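import Pool.Agent.K4H97.SG.Indep

/-!
# A finite support iteration which adds independent compact sets

`Λ` is the well-ordered set of the stages; the iterand with index `ξ` adds closed subsets
`C ξ n` (`n < ω`) of the Cantor space, which contain all members of a basis of the reals of the
intermediate model over the span of the sets `C η m` with `η < ξ`. `I` indexes the names for
elements of the Cantor space (and some Cohen reals). The condition `(ξ, n, u) ∈ U` says that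
`C ξ n` does not meet the cone of `u`, and `(ξ, n, i) ∈ E` promises that the real with the name
`nm i` belongs to `C ξ n`.
-/

set_option autoImplicit false
set_option linter.unusedSectionVars false

namespace Pool.Agent.K4H97.SG

open Set

/-! ### Preconditions -/

/-- preconditions -/
structure Pre (I Λ : Type) where
  c : I → List Bool
  U : Set (Λ × ℕ × Str)
  E : Set (Λ × ℕ × I)

variable {I Λ : Type}

namespace Pre

/-- `q` is stronger than `p` -/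
def Le (q p : Pre I Λ) : Prop := (∀ i, p.c i <+: q.c i) ∧ p.U ⊆ q.U ∧ p.E ⊆ q.E

theorem Le.refl (p : Pre I Λ) : Le p p := ⟨fun _ => List.prefix_rfl, subset_rfl, subset_rfl⟩

theorem Le.trans {r q p : Pre I Λ} (h1 : Le r q) (h2 : Le q p) : Le r p :=
  ⟨fun i => (h2.1 i).trans (h1.1 i), h2.2.1.trans h1.2.1, h2.2.2.trans h1.2.2⟩

/-- finiteness -/
def Fin (p : Pre I Λ) : Prop := {i | p.c i ≠ []}.Finite ∧ p.U.Finite ∧ p.E.Finite

/-- the part of `p` with stages in `D` -/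
def restrict (p : Pre I Λ) (D : Set Λ) : Pre I Λ :=
  ⟨p.c, {x | x ∈ p.U ∧ x.1 ∈ D}, {x | x ∈ p.E ∧ x.1 ∈ D}⟩

/-- the stages of `p` are in `D` -/
def Sup (p : Pre I Λ) (D : Set Λ) : Prop := (∀ x ∈ p.U, x.1 ∈ D) ∧ ∀ x ∈ p.E, x.1 ∈ D

theorem le_restrict (p : Pre I Λ) (D : Set Λ) : Le p (restrict p D) :=
  ⟨fun _ => List.prefix_rfl, fun _ h => h.1, fun _ h => h.1⟩

theorem restrict_mono {q p : Pre I Λ} (h : Le q p) (D : Set Λ) :
    Le (restrict q D) (restrict p D) :=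
  ⟨h.1, fun _ hx => ⟨h.2.1 hx.1, hx.2⟩, fun _ hx => ⟨h.2.2 hx.1, hx.2⟩⟩

theorem restrict_le_of_sup {q r : Pre I Λ} {D : Set Λ} (h : Le q r) (hr : Sup r D) :
    Le (restrict q D) r :=
  ⟨h.1, fun x hx => ⟨h.2.1 hx, hr.1 x hx⟩, fun x hx => ⟨h.2.2 hx, hr.2 x hx⟩⟩

theorem restrict_eq {q : Pre I Λ} {D : Set Λ} (h : Sup q D) : restrict q D = q := by
  obtain ⟨c, U, E⟩ := q
  unfold restrict
  congr 1
  · ext x; exact ⟨fun hx => hx.1, fun hx => ⟨hx, h.1 x hx⟩⟩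
  · ext x; exact ⟨fun hx => hx.1, fun hx => ⟨hx, h.2 x hx⟩⟩

theorem sup_restrict (q : Pre I Λ) (D : Set Λ) : Sup (restrict q D) D :=
  ⟨fun _ hx => hx.2, fun _ hx => hx.2⟩

theorem Sup.mono {q : Pre I Λ} {D D' : Set Λ} (h : Sup q D) (hD : D ⊆ D') : Sup q D' :=
  ⟨fun x hx => hD (h.1 x hx), fun x hx => hD (h.2 x hx)⟩

theorem Fin.restrict {p : Pre I Λ} (h : Fin p) (D : Set Λ) : Fin (p.restrict D) :=
  ⟨h.1, h.2.1.subset fun _ hx => hx.1, h.2.2.subset fun _ hx => hx.1⟩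

/-- every index is promised to at most one set of each stage, and every set is still nonempty -/
def V1 (p : Pre I Λ) : Prop :=
  (∀ ξ n n' i, (ξ, n, i) ∈ p.E → (ξ, n', i) ∈ p.E → n = n') ∧
    ∀ ξ n, ∃ t, ∀ u, (ξ, n, u) ∈ p.U → Perp t u

theorem V1.restrict {p : Pre I Λ} (h : V1 p) (D : Set Λ) : V1 (p.restrict D) :=
  ⟨fun ξ n n' i h1 h2 => h.1 ξ n n' i h1.1 h2.1, fun ξ n => by
    obtain ⟨t, ht⟩ := h.2 ξ n
    exact ⟨t, fun u hu => ht u hu.1⟩⟩

/-- the union of `p` and `q`, with the stems of `q` -/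
def join (q p : Pre I Λ) : Pre I Λ := ⟨q.c, q.U ∪ p.U, q.E ∪ p.E⟩

/-- the current approximation of the closed set `C ξ n` -/
def C (p : Pre I Λ) (b : Λ × ℕ) : Set Pt := {x | ∀ u, (b.1, b.2, u) ∈ p.U → ¬ Ini u x}

theorem isClosed_C (p : Pre I Λ) (b : Λ × ℕ) : IsClosed (p.C b) := by
  have : p.C b = ⋂ u, ⋂ (_ : (b.1, b.2, u) ∈ p.U), {x | Ini u x}ᶜ := by
    ext x
    simp only [C, mem_ofPred_eq, mem_iInter, mem_compl_iff]
  rw [this]
  exact isClosed_iInter fun u => isClosed_iInter fun _ => (isOpen_ini u).isClosed_compl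

theorem C_mono {q p : Pre I Λ} (h : Le q p) (b : Λ × ℕ) : q.C b ⊆ p.C b :=
  fun _ hx u hu => hx u (h.2.1 hu)

end Pre

open Pre

/-- names for subsets of `ℕ` -/
abbrev Names (I Λ : Type) : Type := I → ℕ → Set (Pre I Λ)

/-- `s` is below a member of `N` -/
def Pos (N : Set (Pre I Λ)) (s : Pre I Λ) : Prop := ∃ a ∈ N, Le s a

/-- no valid extension of `s` is below a member of `N` -/
def Neg (V : Pre I Λ → Prop) (N : Set (Pre I Λ)) (s : Pre I Λ) : Prop :=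
  ∀ r, V r → Le r s → ∀ a ∈ N, ¬ Le r a

theorem Pos.mono {N : Set (Pre I Λ)} {s r : Pre I Λ} (h : Pos N s) (hr : Le r s) : Pos N r := by
  obtain ⟨a, ha, h⟩ := h
  exact ⟨a, ha, hr.trans h⟩

theorem Neg.mono {V : Pre I Λ → Prop} {N : Set (Pre I Λ)} {s r : Pre I Λ} (h : Neg V N s)
    (hr : Le r s) : Neg V N r := fun t ht htr => h t ht (htr.trans hr)

/-- atoms: names, and parts of the sets `C ξ n` in a cone -/
abbrev Atom (I Λ : Type) : Type := I ⊕ ((Λ × ℕ) × Str)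

/-- the approximation which `s` gives of the set of points denoted by an atom -/
def ap (nm : Names I Λ) (V : Pre I Λ → Prop) (s : Pre I Λ) : Atom I Λ → Set Pt
  | Sum.inl j => {x | ∀ k, (Pos (nm j k) s → x k = 1) ∧ (Neg V (nm j k) s → x k = 0)}
  | Sum.inr b => BC s.C b

theorem isClosed_ap (nm : Names I Λ) (V : Pre I Λ → Prop) (s : Pre I Λ) (a : Atom I Λ) :
    IsClosed (ap nm V s a) := by
  rcases a with j | b
  · have : ap nm V s (Sum.inl j) = ⋂ k, ((⋂ (_ : Pos (nm j k) s), {x : Pt | x k = 1}) ∩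
        ⋂ (_ : Neg V (nm j k) s), {x : Pt | x k = 0}) := by
      ext x
      simp only [ap, mem_ofPred_eq, mem_iInter, mem_inter_iff]
    rw [this]
    exact isClosed_iInter fun k => (isClosed_iInter fun _ =>
      isClosed_eq (continuous_apply k) continuous_const).inter (isClosed_iInter fun _ =>
      isClosed_eq (continuous_apply k) continuous_const)
  · exact isClosed_BC (isClosed_C _ _)

theorem ap_mono (nm : Names I Λ) (V : Pre I Λ → Prop) {s r : Pre I Λ} (h : Le r s)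
    (a : Atom I Λ) : ap nm V r a ⊆ ap nm V s a := by
  rcases a with j | b
  · intro x hx k
    exact ⟨fun h1 => (hx k).1 (h1.mono h), fun h1 => (hx k).2 (h1.mono h)⟩
  · exact inter_subset_inter_left _ (C_mono h _)

theorem ap_nonempty (nm : Names I Λ) {V : Pre I Λ → Prop} {s : Pre I Λ} (hs : V s) (j : I) :
    (ap nm V s (Sum.inl j)).Nonempty := by
  classical
  refine ⟨fun k => if Pos (nm j k) s then 1 else 0, fun k => ⟨fun h => if_pos h, fun h => ?_⟩⟩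
  apply if_neg
  rintro ⟨a, ha, h1⟩
  exact h s hs (Le.refl s) a ha h1

section Validity

variable [LinearOrder I] [LinearOrder Λ] [WellFoundedLT Λ] (nm : Names I Λ)

/-- the name `nm i` only uses the stages below `ξ` -/
def Low (ξ : Λ) (i : I) : Prop := ∀ m, ∀ r ∈ nm i m, Sup r (Iio ξ)

/-- the lists relevant for the promises with stage `ξ` and index `i` -/
def Adm (ξ : Λ) (i : I) (L : List (ℚ × Atom I Λ)) : Prop :=
  ∀ x ∈ L, (∀ j, x.2 = Sum.inl j → j < i ∧ Low nm ξ j) ∧ ∀ b, x.2 = Sum.inr b → b.1.1 < ξ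

/-- one step of the recursive definition of validity; `V` is the validity below the stage -/
def OKV (ξ : Λ) (V : Pre I Λ → Prop) (p : Pre I Λ) : Prop :=
  ∀ n i, (ξ, n, i) ∈ p.E → Low nm ξ i ∧
    (∀ u, (ξ, n, u) ∈ p.U → ∀ q, V q → Le q (p.restrict (Iio ξ)) →
      ∃ s, V s ∧ Le s q ∧ ∀ x ∈ ap nm V s (Sum.inl i), ¬ Ini u x) ∧
    ∀ L, Adm nm ξ i L → ∀ q, V q → Le q (p.restrict (Iio ξ)) →
      ∃ s, V s ∧ Le s q ∧ (0 : ℝ) ∉ Sm (ap nm V s) ((1, Sum.inl i) :: L)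

/-- the promises with index `ξ` made by `p` are forced to be allowed -/
noncomputable def OK : Λ → Pre I Λ → Prop :=
  (wellFounded_lt (α := Λ)).fix fun ξ ih => OKV nm ξ fun q =>
    Pre.Fin q ∧ V1 q ∧ Sup q (Iio ξ) ∧ ∀ η (h : η < ξ), ih η h q

theorem OK_eq (ξ : Λ) : OK nm ξ = OKV nm ξ fun q =>
    Pre.Fin q ∧ V1 q ∧ Sup q (Iio ξ) ∧ ∀ η, η < ξ → OK nm η q := by
  unfold OK
  rw [WellFounded.fix_eq]

/-- the conditions -/
def Valid (p : Pre I Λ) : Prop := Pre.Fin p ∧ V1 p ∧ ∀ ξ, OK nm ξ p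

/-- the conditions with stages below `ξ` -/
def VB (ξ : Λ) (p : Pre I Λ) : Prop := Valid nm p ∧ Sup p (Iio ξ)

variable {nm}

theorem VB_eq (ξ : Λ) : (fun q : Pre I Λ => Pre.Fin q ∧ V1 q ∧ Sup q (Iio ξ) ∧
    ∀ η, η < ξ → OK nm η q) = VB nm ξ := by
  funext q
  apply propext
  constructor
  · rintro ⟨h1, h2, h3, h4⟩
    refine ⟨⟨h1, h2, fun η => ?_⟩, h3⟩
    by_cases h : η < ξ
    · exact h4 η h
    · rw [OK_eq]
      intro n i hE
      exact absurd (h3.2 _ hE) h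
  · rintro ⟨⟨h1, h2, h3⟩, h4⟩
    exact ⟨h1, h2, h4, fun η _ => h3 η⟩

theorem OK_iff (ξ : Λ) (p : Pre I Λ) : OK nm ξ p ↔ OKV nm ξ (VB nm ξ) p := by
  rw [OK_eq, VB_eq]

/-- a criterion for validity -/
theorem valid_of {r : Pre I Λ} (h1 : Pre.Fin r) (h2 : V1 r)
    (h3 : ∀ ξ n i, (ξ, n, i) ∈ r.E → ∃ p, Valid nm p ∧ Le r p ∧ (ξ, n, i) ∈ p.E ∧
      ∀ u, (ξ, n, u) ∈ r.U → (ξ, n, u) ∈ p.U ∨
        ∀ x ∈ ap nm (VB nm ξ) (r.restrict (Iio ξ)) (Sum.inl i), ¬ Ini u x) : Valid nm r := by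
  refine ⟨h1, h2, fun ξ => ?_⟩
  rw [OK_iff]
  intro n i hE
  obtain ⟨p, hp, hrp, hx, hu⟩ := h3 ξ n i hE
  obtain ⟨k1, k2, k3⟩ := (OK_iff ξ p).1 (hp.2.2 ξ) n i hx
  refine ⟨k1, ?_, ?_⟩
  · intro u hur q hq hle
    rcases hu u hur with h | h
    · exact k2 u h q hq (hle.trans (restrict_mono hrp _))
    · exact ⟨q, hq, Le.refl q, fun x hx => h x (ap_mono nm _ hle _ hx)⟩
  · intro L hL q hq hle
    exact k3 L hL q hq (hle.trans (restrict_mono hrp _))

theorem restrict_restrict {p : Pre I Λ} {η ξ : Λ} (h : η ≤ ξ) :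
    (p.restrict (Iio ξ)).restrict (Iio η) = p.restrict (Iio η) := by
  unfold Pre.restrict
  congr 1
  · ext x
    exact ⟨fun hx => ⟨hx.1.1, hx.2⟩, fun hx => ⟨⟨hx.1, lt_of_lt_of_le hx.2 h⟩, hx.2⟩⟩
  · ext x
    exact ⟨fun hx => ⟨hx.1.1, hx.2⟩, fun hx => ⟨⟨hx.1, lt_of_lt_of_le hx.2 h⟩, hx.2⟩⟩

theorem valid_restrict {p : Pre I Λ} (hp : Valid nm p) (ξ : Λ) :
    VB nm ξ (p.restrict (Iio ξ)) := by
  refine ⟨⟨hp.1.restrict _, hp.2.1.restrict _, fun η => ?_⟩, sup_restrict _ _⟩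
  rw [OK_iff]
  intro n i hE
  obtain ⟨k1, k2, k3⟩ := (OK_iff η p).1 (hp.2.2 η) n i hE.1
  have hη : η < ξ := hE.2
  rw [restrict_restrict hη.le]
  exact ⟨k1, fun u hu => k2 u hu.1, k3⟩

theorem valid_join {p q : Pre I Λ} (hp : Valid nm p) {ξ : Λ} (hq : VB nm ξ q)
    (hle : Le q (p.restrict (Iio ξ))) :
    Valid nm (q.join p) ∧ Le (q.join p) p ∧ Le (q.join p) q := by
  have h1 : Le (q.join p) p := ⟨hle.1, Set.subset_union_right, Set.subset_union_right⟩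
  have h2 : Le (q.join p) q :=
    ⟨fun _ => List.prefix_rfl, Set.subset_union_left, Set.subset_union_left⟩
  have hU : ∀ η n u, η < ξ → (η, n, u) ∈ (q.join p).U → (η, n, u) ∈ q.U := by
    rintro η n u hη (h | h)
    · exact h
    · exact hle.2.1 ⟨h, hη⟩
  have hU' : ∀ η n u, ¬ η < ξ → (η, n, u) ∈ (q.join p).U → (η, n, u) ∈ p.U := by
    rintro η n u hη (h | h)
    · exact absurd (hq.2.1 _ h) hη
    · exact h
  have hE : ∀ η n u, η < ξ → (η, n, u) ∈ (q.join p).E → (η, n, u) ∈ q.E := by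
    rintro η n u hη (h | h)
    · exact h
    · exact hle.2.2 ⟨h, hη⟩
  have hE' : ∀ η n u, ¬ η < ξ → (η, n, u) ∈ (q.join p).E → (η, n, u) ∈ p.E := by
    rintro η n u hη (h | h)
    · exact absurd (hq.2.2 _ h) hη
    · exact h
  refine ⟨valid_of ⟨hq.1.1.1, hq.1.1.2.1.union hp.1.2.1, hq.1.1.2.2.union hp.1.2.2⟩
    ⟨?_, ?_⟩ ?_, h1, h2⟩
  · intro η n n' i hn hn'
    by_cases hη : η < ξ
    · exact hq.1.2.1.1 η n n' i (hE _ _ _ hη hn) (hE _ _ _ hη hn')
    · exact hp.2.1.1 η n n' i (hE' _ _ _ hη hn) (hE' _ _ _ hη hn')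
  · intro η n
    by_cases hη : η < ξ
    · obtain ⟨t, ht⟩ := hq.1.2.1.2 η n
      exact ⟨t, fun u hu => ht u (hU _ _ _ hη hu)⟩
    · obtain ⟨t, ht⟩ := hp.2.1.2 η n
      exact ⟨t, fun u hu => ht u (hU' _ _ _ hη hu)⟩
  · intro η n i hi
    by_cases hη : η < ξ
    · exact ⟨q, hq.1, h2, hE _ _ _ hη hi, fun u hu => Or.inl (hU _ _ _ hη hu)⟩
    · exact ⟨p, hp, h1, hE' _ _ _ hη hi, fun u hu => Or.inl (hU' _ _ _ hη hu)⟩

/-! ### The approximations do not depend on the stage -/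

theorem pos_restrict {N : Set (Pre I Λ)} {ξ : Λ} (hN : ∀ a ∈ N, Sup a (Iio ξ)) {s : Pre I Λ} :
    Pos N (s.restrict (Iio ξ)) ↔ Pos N s := by
  constructor
  · intro h
    exact h.mono (le_restrict _ _)
  · rintro ⟨a, ha, h⟩
    exact ⟨a, ha, restrict_le_of_sup h (hN a ha)⟩

theorem neg_restrict {N : Set (Pre I Λ)} {ξ : Λ} (hN : ∀ a ∈ N, Sup a (Iio ξ)) {s : Pre I Λ}
    (hs : Valid nm s) : Neg (VB nm ξ) N (s.restrict (Iio ξ)) ↔ Neg (Valid nm) N s := by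
  constructor
  · intro h r hr hrs a ha hra
    exact h _ (valid_restrict hr ξ) (restrict_mono hrs _) a ha (restrict_le_of_sup hra (hN a ha))
  · intro h r hr hrs a ha hra
    obtain ⟨h1, h2, h3⟩ := valid_join hs hr hrs
    exact h _ h1 h2 a ha (h3.trans hra)

theorem ap_restrict {ξ : Λ} {i : I} (hi : Low nm ξ i) {s : Pre I Λ} (hs : Valid nm s) :
    ap nm (VB nm ξ) (s.restrict (Iio ξ)) (Sum.inl i) = ap nm (Valid nm) s (Sum.inl i) := by
  ext x
  simp only [ap, mem_ofPred_eq]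
  refine forall_congr' fun k => ?_
  rw [pos_restrict (hi k), neg_restrict (hi k) hs]

theorem ap_VB {ξ : Λ} {i : I} (hi : Low nm ξ i) {s : Pre I Λ} (hs : VB nm ξ s) :
    ap nm (VB nm ξ) s (Sum.inl i) = ap nm (Valid nm) s (Sum.inl i) := by
  have := ap_restrict hi hs.1
  rwa [restrict_eq hs.2] at this

/-- the approximation with respect to all conditions -/
abbrev apv (nm : Names I Λ) (s : Pre I Λ) : Atom I Λ → Set Pt := ap nm (Valid nm) s

theorem Sm_VB {ξ : Λ} {i : I} (hi : Low nm ξ i) {L : List (ℚ × Atom I Λ)} (hL : Adm nm ξ i L)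
    {s : Pre I Λ} (hs : VB nm ξ s) :
    Sm (ap nm (VB nm ξ) s) ((1, Sum.inl i) :: L) = Sm (apv nm s) ((1, Sum.inl i) :: L) := by
  have h : ∀ x ∈ ((1, Sum.inl i) :: L : List (ℚ × Atom I Λ)),
      ap nm (VB nm ξ) s x.2 = apv nm s x.2 := by
    intro x hx
    rcases List.mem_cons.1 hx with rfl | hx
    · exact ap_VB hi hs
    · obtain ⟨q, j | b⟩ := x
      · exact ap_VB ((hL _ hx).1 j rfl).2 hs
      · rfl
  apply Subset.antisymm
  · exact Sm_mono fun x hx => (h x hx).subset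
  · exact Sm_mono fun x hx => (h x hx).superset

/-- what is known about a promise, for the conditions below the stage -/
theorem promise {p : Pre I Λ} (hp : Valid nm p) {ξ : Λ} {n : ℕ} {i : I} (hE : (ξ, n, i) ∈ p.E) :
    Low nm ξ i ∧
    (∀ u, (ξ, n, u) ∈ p.U → ∀ q, VB nm ξ q → Le q (p.restrict (Iio ξ)) →
      ∃ s, VB nm ξ s ∧ Le s q ∧ ∀ x ∈ apv nm s (Sum.inl i), ¬ Ini u x) ∧
    ∀ L, Adm nm ξ i L → ∀ q, VB nm ξ q → Le q (p.restrict (Iio ξ)) →
      ∃ s, VB nm ξ s ∧ Le s q ∧ (0 : ℝ) ∉ Sm (apv nm s) ((1, Sum.inl i) :: L) := by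
  obtain ⟨k1, k2, k3⟩ := (OK_iff ξ p).1 (hp.2.2 ξ) n i hE
  refine ⟨k1, ?_, ?_⟩
  · intro u hu q hq hle
    obtain ⟨s, hs, h1, h2⟩ := k2 u hu q hq hle
    rw [ap_VB k1 hs] at h2
    exact ⟨s, hs, h1, h2⟩
  · intro L hL q hq hle
    obtain ⟨s, hs, h1, h2⟩ := k3 L hL q hq hle
    rw [Sm_VB k1 hL hs] at h2
    exact ⟨s, hs, h1, h2⟩

/-- making a promise -/
theorem valid_addE {p : Pre I Λ} (hp : Valid nm p) {ξ : Λ} {n : ℕ} {i : I} (hi : Low nm ξ i)
    (hn : ∀ n', (ξ, n', i) ∉ p.E) (hu : ∀ u, (ξ, n, u) ∉ p.U)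
    (hA : ∀ L, Adm nm ξ i L → ∀ q, Valid nm q → Le q p →
      ∃ s, Valid nm s ∧ Le s q ∧ (0 : ℝ) ∉ Sm (apv nm s) ((1, Sum.inl i) :: L)) :
    Valid nm ⟨p.c, p.U, insert (ξ, n, i) p.E⟩ := by
  refine ⟨⟨hp.1.1, hp.1.2.1, hp.1.2.2.insert _⟩, ⟨?_, hp.2.1.2⟩, ?_⟩
  · intro η m m' j h1 h2
    rcases h1 with h1 | h1 <;> rcases h2 with h2 | h2
    · simp only [Prod.mk.injEq] at h1 h2
      rw [h1.2.1, h2.2.1]
    · simp only [Prod.mk.injEq] at h1
      obtain ⟨rfl, rfl, rfl⟩ := h1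
      exact absurd h2 (hn _)
    · simp only [Prod.mk.injEq] at h2
      obtain ⟨rfl, rfl, rfl⟩ := h2
      exact absurd h1 (hn _)
    · exact hp.2.1.1 η m m' j h1 h2
  · intro η
    rw [OK_iff]
    intro m j hE
    have key : ∀ q, Le q (Pre.restrict ⟨p.c, p.U, insert (ξ, n, i) p.E⟩ (Iio η)) →
        Le q (p.restrict (Iio η)) := fun q h => ⟨h.1, h.2.1, fun x hx => h.2.2 ⟨Or.inr hx.1, hx.2⟩⟩
    rcases hE with hE | hE
    · simp only [Prod.mk.injEq] at hE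
      obtain ⟨rfl, rfl, rfl⟩ := hE
      refine ⟨hi, fun u hu' => absurd hu' (hu u), fun L hL q hq hle => ?_⟩
      obtain ⟨h1, h2, h3⟩ := valid_join hp hq (key q hle)
      obtain ⟨s, hs, h4, h5⟩ := hA L hL _ h1 h2
      refine ⟨s.restrict (Iio η), valid_restrict hs η, ?_, ?_⟩
      · exact restrict_le_of_sup (h4.trans h3) hq.2
      · rw [Sm_VB hi hL (valid_restrict hs η)]
        intro h0
        apply h5
        refine Sm_mono ?_ h0
        intro x hx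
        have hj : ∀ j, Low nm η j → apv nm (s.restrict (Iio η)) (Sum.inl j) ⊆
            apv nm s (Sum.inl j) := by
          intro j hj
          show ap nm (Valid nm) (s.restrict (Iio η)) (Sum.inl j) ⊆ _
          rw [← ap_VB hj (valid_restrict hs η), ap_restrict hj hs]
        rcases List.mem_cons.1 hx with rfl | hx
        · exact hj j hi
        · obtain ⟨q, j' | b⟩ := x
          · exact hj j' ((hL _ hx).1 j' rfl).2
          · intro y hy
            refine ⟨fun u hu' => hy.1 u ⟨hu', (hL _ hx).2 b rfl⟩, hy.2⟩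
    · obtain ⟨k1, k2, k3⟩ := (OK_iff η p).1 (hp.2.2 η) m j hE
      exact ⟨k1, fun u hu' q hq hle => k2 u hu' q hq (key q hle),
        fun L hL q hq hle => k3 L hL q hq (key q hle)⟩

theorem valid_empty : Valid nm ⟨fun _ => [], ∅, ∅⟩ := by
  refine ⟨⟨by simp, Set.finite_empty, Set.finite_empty⟩, ⟨?_, ?_⟩, ?_⟩
  · intro ξ n n' i h
    exact absurd h (Set.notMem_empty _)
  · intro ξ n
    exact ⟨[], fun u h => absurd h (Set.notMem_empty _)⟩
  · intro ξ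
    rw [OK_iff]
    intro n i h
    exact absurd h (Set.notMem_empty _)

/-- extending the stems -/
theorem valid_ext {p : Pre I Λ} (hp : Valid nm p) {c' : I → List Bool}
    (h1 : {i | c' i ≠ []}.Finite) (h2 : ∀ i, p.c i <+: c' i) :
    Valid nm ⟨c', p.U, p.E⟩ := by
  refine valid_of ⟨h1, hp.1.2.1, hp.1.2.2⟩ hp.2.1 ?_
  intro ξ n i hE
  exact ⟨p, hp, ⟨h2, subset_rfl, subset_rfl⟩, hE, fun u hu => Or.inl hu⟩

end Validity

end Pool.Agent.K4H97.SG
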