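import Pool.Agent.K4H97.SG.Cover
import Pool.Agent.Helper126.Fact
import Pool.Agent.W684.FM.Ambient

/-!
# The countable chain condition
-/

set_option autoImplicit false
set_option linter.unusedSectionVars false

namespace Pool.Agent.K4H97.SG

open Set Pre Pool.Agent.Helper669.Forcing Pool.Agent.W684.FM

variable {I Λ : Type} [LinearOrder I] [LinearOrder Λ] [WellFoundedLT Λ] {nm : Names I Λ}

/-- the condition `p` says something about `C ξ n` -/
def On (p : Pre I Λ) (ξ : Λ) (n : ℕ) : Prop := (∃ u, (ξ, n, u) ∈ p.U) ∨ ∃ i, (ξ, n, i) ∈ p.E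

/-- amalgamation -/
theorem amalg {p q : Pre I Λ} (hp : Valid nm p) (hq : Valid nm q)
    (h1 : ∀ i, p.c i ≠ [] → q.c i ≠ [] → p.c i = q.c i)
    (h2 : ∀ ξ n, On p ξ n → On q ξ n → ∀ u, (ξ, n, u) ∈ p.U ↔ (ξ, n, u) ∈ q.U)
    (h3 : ∀ ξ n n' i, (ξ, n, i) ∈ p.E → (ξ, n', i) ∈ q.E → n = n') :
    ∃ r, Valid nm r ∧ Le r p ∧ Le r q := by
  classical
  let c : I → List Bool := fun i => if p.c i = [] then q.c i else p.c i
  have hcp : ∀ i, p.c i <+: c i := by
    intro i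
    by_cases h : p.c i = []
    · rw [h]; exact List.nil_prefix
    · simp only [c, if_neg h]; exact List.prefix_rfl
  have hcq : ∀ i, q.c i <+: c i := by
    intro i
    by_cases h : p.c i = []
    · simp only [c, if_pos h]; exact List.prefix_rfl
    · simp only [c, if_neg h]
      by_cases h' : q.c i = []
      · rw [h']; exact List.nil_prefix
      · rw [h1 i h h']
  have hrp : Le (⟨c, p.U ∪ q.U, p.E ∪ q.E⟩ : Pre I Λ) p :=
    ⟨hcp, subset_union_left, subset_union_left⟩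
  have hrq : Le (⟨c, p.U ∪ q.U, p.E ∪ q.E⟩ : Pre I Λ) q :=
    ⟨hcq, subset_union_right, subset_union_right⟩
  refine ⟨⟨c, p.U ∪ q.U, p.E ∪ q.E⟩, ?_, hrp, hrq⟩
  apply valid_of
  · refine ⟨?_, hp.1.2.1.union hq.1.2.1, hp.1.2.2.union hq.1.2.2⟩
    refine (hp.1.1.union hq.1.1).subset ?_
    intro i hi
    by_cases h : p.c i = []
    · right
      have h4 : c i ≠ [] := hi
      simp only [c, if_pos h] at h4
      exact h4
    · exact Or.inl h
  · constructor
    · rintro ξ n n' i (ha | ha) (hb | hb)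
      · exact hp.2.1.1 ξ n n' i ha hb
      · exact h3 ξ n n' i ha hb
      · exact (h3 ξ n' n i hb ha).symm
      · exact hq.2.1.1 ξ n n' i ha hb
    · intro ξ n
      by_cases h : ∃ u, (ξ, n, u) ∈ p.U
      · obtain ⟨t, ht⟩ := hp.2.1.2 ξ n
        refine ⟨t, ?_⟩
        rintro u (hu | hu)
        · exact ht u hu
        · exact ht u ((h2 ξ n (Or.inl h) (Or.inl ⟨u, hu⟩) u).2 hu)
      · push Not at h
        obtain ⟨t, ht⟩ := hq.2.1.2 ξ n
        refine ⟨t, ?_⟩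
        rintro u (hu | hu)
        · exact absurd hu (h u)
        · exact ht u hu
  · rintro ξ n i (hE | hE)
    · refine ⟨p, hp, hrp, hE, ?_⟩
      rintro u (hu | hu)
      · exact Or.inl hu
      · exact Or.inl ((h2 ξ n (Or.inr ⟨i, hE⟩) (Or.inl ⟨u, hu⟩) u).2 hu)
    · refine ⟨q, hq, hrq, hE, ?_⟩
      rintro u (hu | hu)
      · exact Or.inl ((h2 ξ n (Or.inl ⟨u, hu⟩) (Or.inr ⟨i, hE⟩) u).1 hu)
      · exact Or.inl hu

theorem pccc : PCCC (Cond nm) := by
  classical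
  intro K hK
  by_contra hcon
  -- the supports
  let F : Cond nm → Finset (I ⊕ ((Λ × ℕ) ⊕ (Λ × I))) := fun a =>
    a.2.1.1.toFinset.image Sum.inl ∪
      a.2.1.2.1.toFinset.image (fun x => Sum.inr (Sum.inl (x.1, x.2.1))) ∪
      a.2.1.2.2.toFinset.image (fun x => Sum.inr (Sum.inl (x.1, x.2.1))) ∪
      a.2.1.2.2.toFinset.image (fun x => Sum.inr (Sum.inr (x.1, x.2.2)))
  have fc : ∀ a i, a.1.c i ≠ [] → Sum.inl i ∈ F a := by
    intro a i h
    simp only [F, Finset.mem_union, Finset.mem_image, Set.Finite.mem_toFinset]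
    exact Or.inl (Or.inl (Or.inl ⟨i, h, rfl⟩))
  have fU : ∀ a ξ n u, (ξ, n, u) ∈ a.1.U → Sum.inr (Sum.inl (ξ, n)) ∈ F a := by
    intro a ξ n u h
    simp only [F, Finset.mem_union, Finset.mem_image, Set.Finite.mem_toFinset]
    exact Or.inl (Or.inl (Or.inr ⟨_, h, rfl⟩))
  have fE : ∀ a ξ n i, (ξ, n, i) ∈ a.1.E → Sum.inr (Sum.inl (ξ, n)) ∈ F a := by
    intro a ξ n i h
    simp only [F, Finset.mem_union, Finset.mem_image, Set.Finite.mem_toFinset]
    exact Or.inl (Or.inr ⟨_, h, rfl⟩)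
  have fE' : ∀ a ξ n i, (ξ, n, i) ∈ a.1.E → Sum.inr (Sum.inr (ξ, i)) ∈ F a := by
    intro a ξ n i h
    simp only [F, Finset.mem_union, Finset.mem_image, Set.Finite.mem_toFinset]
    exact Or.inr ⟨_, h, rfl⟩
  obtain ⟨J1, R, h1, h2, h3, h4⟩ := Pool.Agent.Helper126.delta_system F K hcon
  -- the colours
  let col : Cond nm → I ⊕ ((Λ × ℕ) ⊕ (Λ × I)) → List Bool ⊕ (Finset Str ⊕ ℕ) := fun a z =>
    match z with
    | Sum.inl i => Sum.inl (a.1.c i)
    | Sum.inr (Sum.inl (ξ, n)) => Sum.inr (Sum.inl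
        ((a.2.1.2.1.toFinset.filter fun x => x.1 = ξ ∧ x.2.1 = n).image fun x => x.2.2))
    | Sum.inr (Sum.inr (ξ, i)) => Sum.inr (Sum.inr
        (if h : ∃ n, (ξ, n, i) ∈ a.1.E then h.choose else 0))
  obtain ⟨cc, hcc⟩ := Pool.Agent.Helper126.uncountable_fiber (fun a => fun z : R => col a z.1)
    J1 h2
  have h5 : ∃ a ∈ {i ∈ J1 | (fun z : R => col i z.1) = cc},
      ∃ b ∈ {i ∈ J1 | (fun z : R => col i z.1) = cc}, a ≠ b := by
    by_contra h
    push Not at h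
    apply hcc
    exact Set.Subsingleton.countable (fun a ha b hb => h a ha b hb)
  obtain ⟨a, ⟨ha, hac⟩, b, ⟨hb, hbc⟩, hab⟩ := h5
  have hcol : ∀ z ∈ R, col a z = col b z := by
    intro z hz
    have := congrFun (hac.trans hbc.symm) ⟨z, hz⟩
    exact this
  have hroot : ∀ z, z ∈ F a → z ∈ F b → z ∈ R := fun z hz1 hz2 => h4 a ha b hb hab z hz1 hz2
  obtain ⟨r, hr, hra, hrb⟩ := amalg a.2 b.2 (by
    intro i hi hi'
    have := hcol _ (hroot _ (fc a i hi) (fc b i hi'))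
    simpa [col] using this) (by
    intro ξ n hna hnb u
    have hin : ∀ c : Cond nm, On c.1 ξ n → Sum.inr (Sum.inl (ξ, n)) ∈ F c := by
      rintro c (⟨u, hu⟩ | ⟨i, hi⟩)
      · exact fU c ξ n u hu
      · exact fE c ξ n i hi
    have := hcol _ (hroot _ (hin a hna) (hin b hnb))
    simp only [col, Sum.inr.injEq, Sum.inl.injEq] at this
    have key : ∀ c : Cond nm, (ξ, n, u) ∈ c.1.U ↔ u ∈ ((c.2.1.2.1.toFinset.filter
        fun x => x.1 = ξ ∧ x.2.1 = n).image fun x => x.2.2) := by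
      intro c
      simp only [Finset.mem_image, Finset.mem_filter, Set.Finite.mem_toFinset]
      constructor
      · intro h
        exact ⟨_, ⟨h, rfl, rfl⟩, rfl⟩
      · rintro ⟨⟨ξ', n', u'⟩, ⟨h, h6, h7⟩, h8⟩
        simp only at h6 h7 h8
        subst h6 h7 h8
        exact h
    rw [key a, key b, this]) (by
    intro ξ n n' i hi hi'
    have := hcol _ (hroot _ (fE' a ξ n i hi) (fE' b ξ n' i hi'))
    have e1 : ∃ n, (ξ, n, i) ∈ a.1.E := ⟨n, hi⟩
    have e2 : ∃ n, (ξ, n, i) ∈ b.1.E := ⟨n', hi'⟩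
    simp only [col, Sum.inr.injEq, dif_pos e1, dif_pos e2] at this
    rw [a.2.2.1.1 ξ n _ i hi e1.choose_spec, b.2.2.1.1 ξ n' _ i hi' e2.choose_spec, this])
  exact hK a (h1 ha) b (h1 hb) hab ⟨⟨r, hr⟩, hra, hrb⟩

end Pool.Agent.K4H97.SG
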