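import Pool.Agent.K4H97.SG.CCC

/-!
# Counting names
-/

set_option autoImplicit false
set_option linter.unusedSectionVars false

namespace Pool.Agent.K4H97.SG

open Set Cardinal Pre Pool.Agent.Helper669.Forcing Pool.Agent.W684.FM

/-! ### The size of the continuum in ccc extensions -/

section General

variable {P : Type} [Preorder P]

/-- correct a name so that it is a name for a function -/
def fix (x : ℕ → ℕ → Set P) : ℕ → ℕ → Set P := fun n a =>
  {p | p ∈ IsFun x ∧ p ∈ meets (x n a)} ∪ {p | p ∈ fnot (IsFun x) ∧ a = 0}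

theorem isFun_fix (x : ℕ → ℕ → Set P) (p : P) : p ∈ IsFun (fix x) := by
  refine ⟨fun n => mem_fex.2 fun q hq => ?_, fun n a b => mem_fimp.2 fun q hq h => ?_⟩
  · by_cases h : ∃ r ≤ q, r ∈ IsFun x
    · obtain ⟨r, hr, h1⟩ := h
      obtain ⟨s, hs, a, h2⟩ := IsFun.total h1 n
      exact ⟨s, hs.trans hr, a, meets_of_mem (Or.inl ⟨down_IsFun _ _ h1 _ hs, h2⟩)⟩
    · push Not at h
      exact ⟨q, le_rfl, 0, meets_of_mem (Or.inr ⟨h, rfl⟩)⟩
  · refine ⟨q, le_rfl, ?_⟩
    obtain ⟨r, hr, s, hs, hrs⟩ := h.1 q le_rfl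
    obtain ⟨t, ht, s', hs', hts⟩ := h.2 r hr
    rcases hs with ⟨h1, h2⟩ | ⟨h1, h2⟩ <;> rcases hs' with ⟨h3, h4⟩ | ⟨h3, h4⟩
    · exact IsFun.unique (down_IsFun _ _ h1 _ (ht.trans hrs))
        (down_meets _ _ h2 _ (ht.trans hrs)) (down_meets _ _ h4 _ hts)
    · exact absurd (down_IsFun _ _ h1 _ (ht.trans hrs)) (h3 t hts)
    · exact absurd (down_IsFun _ _ h3 _ hts) (h1 t (ht.trans hrs))
    · exact h2.trans h4.symm

theorem same_fix {x : ℕ → ℕ → Set P} {p : P} (h : p ∈ IsFun x) : p ∈ SameReal x (fix x) := by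
  intro n a b
  refine mem_fimp.2 fun q hq h' => ⟨q, le_rfl, ?_⟩
  obtain ⟨r, hr, s, hs, hrs⟩ := h'.2 q le_rfl
  have h1 : r ∈ IsFun x := down_IsFun _ _ h _ (hr.trans hq)
  rcases hs with ⟨h2, h3⟩ | ⟨h2, h3⟩
  · exact IsFun.unique h1 (down_meets _ _ h'.1 _ hr) (down_meets _ _ h3 _ hrs)
  · exact absurd h1 (h2 r hrs)

/-- the name with a countable code -/
def cnm (c : ℕ → ℕ → Option (P × ℕ)) (n m : ℕ) : Set P := {q | ∃ j, c n j = some (q, m)}

theorem exists_cnm (hP : PCCC P) [Nonempty P] (x : ℕ → ℕ → Set P) :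
    ∃ c, (∀ p, p ∈ IsFun (cnm c)) ∧ ∀ p ∈ IsFun x, p ∈ SameReal x (cnm c) := by
  classical
  have hx := isFun_fix x
  have hD : ∀ n, ∃ A : Set P, A.Countable ∧ A ⊆ {q | ∃ m, q ∈ meets (fix x n m)} ∧
      ∀ p ∈ {q | ∃ m, q ∈ meets (fix x n m)}, ∃ a ∈ A, ∃ r, r ≤ p ∧ r ≤ a := by
    intro n
    apply exists_predense hP
    rintro p ⟨m, hm⟩ q hq
    exact ⟨m, down_meets _ _ hm _ hq⟩
  choose A hAc hAD hApre using hD
  have hval : ∀ n, ∀ a : P, ∃ m, a ∈ A n → a ∈ meets (fix x n m) := by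
    intro n a
    by_cases ha : a ∈ A n
    · obtain ⟨m, hm⟩ := hAD n ha
      exact ⟨m, fun _ => hm⟩
    · exact ⟨0, fun h => absurd h ha⟩
  choose w hw using hval
  have hApre' : ∀ n p, ∃ a ∈ A n, ∃ r, r ≤ p ∧ r ≤ a := by
    intro n p
    obtain ⟨q, hq, m, hm⟩ := IsFun.total (hx p) n
    obtain ⟨a, ha, r, hr1, hr2⟩ := hApre n q ⟨m, hm⟩
    exact ⟨a, ha, r, hr1.trans hq, hr2⟩
  have hcode : ∀ n, ∃ g : ℕ → Option (P × ℕ), ∀ q m, (∃ j, g j = some (q, m)) ↔
      (q ∈ A n ∧ w n q = m) := by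
    intro n
    obtain ⟨a₀, ha₀, _⟩ := hApre' n (Classical.arbitrary _)
    have : Nonempty (A n) := ⟨⟨a₀, ha₀⟩⟩
    have hc : Countable (A n) := (hAc n).to_subtype
    obtain ⟨g, hg⟩ := exists_surjective_nat (A n)
    refine ⟨fun j => some ((g j).1, w n (g j).1), fun q m => ?_⟩
    constructor
    · rintro ⟨j, hj⟩
      simp only [Option.some.injEq, Prod.mk.injEq] at hj
      obtain ⟨rfl, rfl⟩ := hj
      exact ⟨(g j).2, rfl⟩
    · rintro ⟨hq, rfl⟩
      obtain ⟨j, hj⟩ := hg ⟨q, hq⟩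
      exact ⟨j, by simp [hj]⟩
  choose c hc using hcode
  have hmem : ∀ n m q, q ∈ cnm c n m ↔ (q ∈ A n ∧ w n q = m) := fun n m q => hc n q m
  refine ⟨c, fun p => ⟨fun n => mem_fex.2 fun q _ => ?_, fun n m m' => mem_fimp.2 fun q _ h => ?_⟩,
    fun p hp n a b => mem_fimp.2 fun q hq h => ?_⟩
  · obtain ⟨a, ha, s, hs1, hs2⟩ := hApre' n q
    exact ⟨s, hs1, w n a, meets_of_le ((hmem n _ a).2 ⟨ha, rfl⟩) hs2⟩
  · obtain ⟨r, hr, a, ha, hra⟩ := h.1 q le_rfl
    obtain ⟨r', hr', a', ha', hra'⟩ := h.2 r hr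
    obtain ⟨ha1, rfl⟩ := (hmem n _ a).1 ha
    obtain ⟨ha2, rfl⟩ := (hmem n _ a').1 ha'
    exact ⟨q, le_rfl, IsFun.unique (hx r') (down_meets _ _ (hw n a ha1) r' (hr'.trans hra))
      (down_meets _ _ (hw n a' ha2) r' hra')⟩
  · obtain ⟨r, hr, s, hs, hrs⟩ := h.2 q le_rfl
    obtain ⟨hs1, rfl⟩ := (hmem n _ s).1 hs
    have h1 : r ∈ SameReal x (fix x) := same_fix (down_IsFun x p hp r (hr.trans hq))
    exact ⟨r, hr, SameReal.eq h1 (down_meets _ _ h.1 r hr) (down_meets _ _ (hw n s hs1) r hrs)⟩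

theorem mk_seq_le {μ : Cardinal.{0}} (hpow : μ ^ ℵ₀ = μ) {X : Type} (hX : #X ≤ μ) :
    #(ℕ → X) ≤ μ := by
  have : #(ℕ → X) = #X ^ ℵ₀ := by simp [mk_pi]
  rw [this]
  exact (power_le_power_right hX).trans hpow.le

theorem continuumLe (hP : PCCC P) [Nonempty P] {Y : Type} (hY : ℵ₀ < #Y) (hpow : #Y ^ ℵ₀ = #Y)
    (hPY : #P ≤ #Y) (p : P) : p ∈ ContinuumLe P Y := by
  classical
  let N := {c : ℕ → ℕ → Option (P × ℕ) // ∀ p, p ∈ IsFun (cnm c)}
  have hN : #N ≤ #Y := by
    refine (mk_subtype_le _).trans (mk_seq_le hpow (mk_seq_le hpow ?_))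
    rw [mk_option, mk_prod]
    simp only [lift_uzero, mk_nat]
    exact (add_le_add ((mul_le_mul' hPY hY.le).trans (mul_eq_self hY.le).le)
      (one_le_aleph0.trans hY.le)).trans (add_eq_self hY.le).le
  have hne : Nonempty N := by
    obtain ⟨c, hc, _⟩ := exists_cnm hP fun _ _ => ∅
    exact ⟨⟨c, hc⟩⟩
  obtain ⟨g⟩ : Nonempty (N ↪ Y) := Cardinal.le_def _ _ |>.1 hN
  have hsurj : Function.Surjective (Function.invFun g) := Function.invFun_surjective g.injective
  refine mem_fex_of_mem (fun i => cnm (Function.invFun g i).1) ?_ ?_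
  · exact down_fand (down_fall fun _ => down_IsFun _) (down_fall fun _ => down_fimp _ _)
  · refine ⟨fun i => (Function.invFun g i).2 p, fun x => mem_fimp.2 fun q _ hq => ?_⟩
    obtain ⟨c, hc1, hc2⟩ := exists_cnm hP x
    obtain ⟨i, hi⟩ := hsurj ⟨c, hc1⟩
    refine ⟨q, le_rfl, mem_fex_of_mem i (down_SameReal _ _) ?_⟩
    have h2 : q ∈ SameReal x (cnm (Function.invFun g i).1) := by
      rw [show (Function.invFun g i).1 = c from congrArg Subtype.val hi]
      exact hc2 q hq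
    exact h2

/-- many different reals -/
theorem not_continuumLe (hP : PCCC P) {I Y : Type} (hY : #Y * ℵ₀ < #I) (X : I → ℕ → ℕ → Set P)
    (hX : ∀ i p, p ∈ IsFun (X i)) (hne : ∀ i j, i ≠ j → ∀ p, p ∈ fnot (SameReal (X i) (X j)))
    (p : P) : p ∈ fnot (ContinuumLe P Y) := by
  intro q _ hq
  obtain ⟨r, _, E, hE1, hE2⟩ := mem_fex.1 hq q le_rfl
  have h1 : ∀ i, ∃ s ≤ r, ∃ y, s ∈ SameReal (X i) (E y) := by
    intro i
    obtain ⟨s, hs, h⟩ := mem_fimp.1 (hE2 (X i)) r le_rfl (hX i r)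
    obtain ⟨t, ht, y, hy⟩ := mem_fex.1 h s le_rfl
    exact ⟨t, ht.trans hs, y, hy⟩
  choose f hf y hy using h1
  obtain ⟨i, j, hij, hyy, s, hs1, hs2⟩ := hP.exists_compat_same hY f y
  refine hne i j hij s s le_rfl ?_
  intro n a b
  refine mem_fimp.2 fun t ht h => ?_
  have h2 : t ∈ SameReal (X i) (E (y i)) := down_SameReal _ _ _ (hy i) t (ht.trans hs1)
  have h3 : t ∈ SameReal (X j) (E (y i)) := by
    rw [hyy]
    exact down_SameReal _ _ _ (hy j) t (ht.trans hs2)
  obtain ⟨u, hu, m, hm⟩ := IsFun.total (down_IsFun _ _ (hE1 (y i)) t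
    (ht.trans (hs1.trans (hf i)))) n
  refine ⟨u, hu, ?_⟩
  have e1 := SameReal.eq (down_SameReal _ _ _ h2 u hu) (down_meets _ _ h.1 u hu) hm
  have e2 := SameReal.eq (down_SameReal _ _ _ h3 u hu) (down_meets _ _ h.2 u hu) hm
  exact e1.trans e2.symm

end General

/-! ### Conditions and names of the iteration -/

section

variable {I Λ : Type}

theorem mk_fin_le (hI : ℵ₀ ≤ #I) (hΛ : #Λ ≤ #I) : #{p : Pre I Λ // Pre.Fin p} ≤ #I := by
  classical
  have hinf : Infinite I := infinite_iff.2 hI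
  let f : {p : Pre I Λ // Pre.Fin p} → Finset (I × List Bool) × Finset (Λ × ℕ × Str) ×
      Finset (Λ × ℕ × I) := fun p => (p.2.1.toFinset.image fun i => (i, p.1.c i),
        p.2.2.1.toFinset, p.2.2.2.toFinset)
  have hf : Function.Injective f := by
    rintro ⟨p, hp⟩ ⟨q, hq⟩ h
    simp only [f, Prod.mk.injEq] at h
    obtain ⟨h1, h2, h3⟩ := h
    have e2 : p.U = q.U := by
      have := congrArg (fun s : Finset _ => (s : Set (Λ × ℕ × Str))) h2
      simpa using this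
    have e3 : p.E = q.E := by
      have := congrArg (fun s : Finset _ => (s : Set (Λ × ℕ × I))) h3
      simpa using this
    have e1 : p.c = q.c := by
      funext i
      have key : ∀ b, b ≠ [] → (p.c i = b ↔ q.c i = b) := by
        intro b hb
        have h4 : ((i, b) ∈ hp.1.toFinset.image fun i => (i, p.c i)) ↔
            ((i, b) ∈ hq.1.toFinset.image fun i => (i, q.c i)) := by rw [h1]
        simp only [Finset.mem_image, Set.Finite.mem_toFinset, mem_ofPred_eq, Prod.mk.injEq] at h4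
        constructor
        · intro h5
          obtain ⟨j, -, rfl, h6⟩ := h4.1 ⟨i, by rw [h5]; exact hb, rfl, h5⟩
          exact h6
        · intro h5
          obtain ⟨j, -, rfl, h6⟩ := h4.2 ⟨i, by rw [h5]; exact hb, rfl, h5⟩
          exact h6
      by_cases h5 : p.c i = []
      · by_contra h6
        have h7 : q.c i ≠ [] := fun h8 => h6 (h5.trans h8.symm)
        exact h7 (((key _ h7).2 rfl).symm.trans h5)
      · exact ((key _ h5).1 rfl).symm
    apply Subtype.ext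
    cases p
    cases q
    simp_all
  refine (mk_le_of_injective hf).trans ?_
  have fin_le : ∀ X : Type, #X ≤ #I → #(Finset X) ≤ #I := by
    intro X hX
    rcases finite_or_infinite X with h | h
    · exact (mk_le_aleph0).trans hI
    · rwa [mk_finset_of_infinite]
  have hprod : ∀ X Y : Type, #X ≤ #I → #Y ≤ #I → #(X × Y) ≤ #I := by
    intro X Y hX hY
    rw [mk_prod, lift_id, lift_id]
    exact (mul_le_mul' hX hY).trans (mul_eq_self hI).le
  refine hprod _ _ (fin_le _ (hprod _ _ le_rfl (mk_le_aleph0.trans hI))) (hprod _ _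
    (fin_le _ (hprod _ _ hΛ (hprod _ _ (mk_le_aleph0.trans hI) (mk_le_aleph0.trans hI))))
    (fin_le _ (hprod _ _ hΛ (hprod _ _ (mk_le_aleph0.trans hI) le_rfl))))

/-- `nm` enumerates all families of countable sets of finite preconditions -/
def Universal (nm : Names I Λ) : Prop :=
  ∀ N : ℕ → Set (Pre I Λ), (∀ k, (N k).Countable) → (∀ k, ∀ r ∈ N k, Pre.Fin r) → ∃ i, nm i = N

theorem exists_universal (hI : ℵ₀ < #I) (hpow : #I ^ ℵ₀ = #I) (hΛ : #Λ ≤ #I) :
    ∃ nm : Names I Λ, Universal nm := by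
  classical
  let C : Type := ℕ → ℕ → Option {p : Pre I Λ // Pre.Fin p}
  have hC : #C ≤ #I := by
    refine mk_seq_le hpow (mk_seq_le hpow ?_)
    rw [mk_option]
    exact (add_le_add (mk_fin_le hI.le hΛ) (one_le_aleph0.trans hI.le)).trans
      (add_eq_self hI.le).le
  have hne : Nonempty C := ⟨fun _ _ => none⟩
  obtain ⟨g⟩ : Nonempty (C ↪ I) := Cardinal.le_def _ _ |>.1 hC
  have hsurj : Function.Surjective (Function.invFun g) := Function.invFun_surjective g.injective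
  refine ⟨fun i k => {r | ∃ j, (Function.invFun g i k j).map Subtype.val = some r}, ?_⟩
  intro N hN hF
  have hcode : ∀ k, ∃ c : ℕ → Option {p : Pre I Λ // Pre.Fin p},
      ∀ r, (∃ j, (c j).map Subtype.val = some r) ↔ r ∈ N k := by
    intro k
    rcases (N k).eq_empty_or_nonempty with h | h
    · exact ⟨fun _ => none, fun r => by simp [h]⟩
    · obtain ⟨e, he⟩ := (hN k).exists_eq_range h
      refine ⟨fun j => some ⟨e j, hF k _ (he ▸ mem_range_self j)⟩, fun r => ?_⟩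
      have h1 : r ∈ N k ↔ r ∈ range e := by rw [he]
      rw [h1]
      simp
  choose c hc using hcode
  obtain ⟨i, hi⟩ := hsurj c
  refine ⟨i, ?_⟩
  funext k
  ext r
  simp only [mem_ofPred_eq, hi]
  exact hc k r

end

section

variable {I Λ : Type} [LinearOrder I] [LinearOrder Λ] [WellFoundedLT Λ] {nm : Names I Λ}

instance : Nonempty (Cond nm) := ⟨⟨_, valid_empty⟩⟩

theorem mk_cond_le (hI : ℵ₀ ≤ #I) (hΛ : #Λ ≤ #I) : #(Cond nm) ≤ #I := by
  refine (mk_le_of_injective (f := fun p : Cond nm =>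
    (⟨p.1, p.2.1⟩ : {p : Pre I Λ // Pre.Fin p})) ?_).trans (mk_fin_le hI hΛ)
  intro p q h
  exact Subtype.ext (congrArg (fun x : {p : Pre I Λ // Pre.Fin p} => x.1) h)

/-- the names of the Cohen reals -/
def CR (nm : Names I Λ) (i : I) (k a : ℕ) : Set (Cond nm) :=
  {p | ∃ b : Bool, (p.1.c i)[k]? = some b ∧ a = b.toNat}

theorem prefix_getElem? {a b : List Bool} (h : a <+: b) {k : ℕ} (hk : k < a.length) :
    b[k]? = a[k]? := by
  obtain ⟨t, rfl⟩ := h
  exact List.getElem?_append_left hk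

theorem prefix_some {a b : List Bool} (h : a <+: b) {k : ℕ} {c : Bool} (hk : a[k]? = some c) :
    b[k]? = some c := by
  have h1 : k < a.length := by
    by_contra h2
    rw [List.getElem?_eq_none (not_lt.1 h2)] at hk
    exact absurd hk (by simp)
  rw [prefix_getElem? h h1, hk]

theorem down_CR (i : I) (k a : ℕ) : Down (CR nm i k a) := by
  rintro p ⟨b, hb, rfl⟩ q hq
  exact ⟨b, prefix_some (hq.1 i) hb, rfl⟩

theorem exists_stem (p : Cond nm) (i : I) (t : List Bool) (h : p.1.c i <+: t) :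
    ∃ q ≤ p, q.1.c i = t ∧ ∀ j, j ≠ i → q.1.c j = p.1.c j := by
  classical
  have h1 : ∀ j, p.1.c j <+: Function.update p.1.c i t j := by
    intro j
    by_cases hj : j = i
    · subst hj; simpa using h
    · rw [Function.update_of_ne hj]
  refine ⟨⟨⟨Function.update p.1.c i t, p.1.U, p.1.E⟩, valid_ext p.2 ?_ h1⟩,
    ⟨h1, subset_rfl, subset_rfl⟩, by simp, fun j hj => Function.update_of_ne hj _ _⟩
  refine (p.2.1.1.insert i).subset ?_
  intro j hj
  by_cases hji : j = i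
  · exact Or.inl hji
  · right
    have h2 : Function.update p.1.c i t j ≠ [] := hj
    rwa [Function.update_of_ne hji] at h2

theorem isFun_CR (i : I) (p : Cond nm) : p ∈ IsFun (CR nm i) := by
  constructor
  · intro k
    rw [mem_fex]
    intro q _
    obtain ⟨r, hr, hrc, -⟩ := exists_stem q i (q.1.c i ++ List.replicate (k + 1) false)
      (List.prefix_append _ _)
    have hk : k < (r.1.c i).length := by
      rw [hrc]
      simp
      omega
    exact ⟨r, hr, _, meets_of_mem ⟨(r.1.c i)[k], List.getElem?_eq_getElem hk, rfl⟩⟩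
  · intro k a a'
    rw [mem_fimp]
    rintro q _ ⟨h1, h2⟩
    refine ⟨q, le_rfl, ?_⟩
    obtain ⟨r, hr, h3⟩ := exists_of_meets (down_CR i k a) h1
    obtain ⟨r', hr', h4⟩ := exists_of_meets (down_CR i k a') (down_meets _ _ h2 r hr)
    obtain ⟨b, hb, rfl⟩ := down_CR i k a r h3 r' hr'
    obtain ⟨b', hb', rfl⟩ := h4
    rw [hb] at hb'
    rw [Option.some_injective _ hb']
    rfl

theorem not_same_CR (i j : I) (hij : i ≠ j) (p : Cond nm) :
    p ∈ fnot (SameReal (CR nm i) (CR nm j)) := by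
  intro q _ hq
  set k := max (q.1.c i).length (q.1.c j).length with hk
  obtain ⟨r, hr, hri, hrj⟩ := exists_stem q i
    (q.1.c i ++ List.replicate (k + 1) false) (List.prefix_append _ _)
  obtain ⟨r', hr', hrj', hri'⟩ := exists_stem r j
    (r.1.c j ++ List.replicate (k + 1) true) (List.prefix_append _ _)
  have e1 : (r'.1.c i)[k]? = some false := by
    rw [hri' i hij, hri, List.getElem?_append_right (le_max_left _ _)]
    rw [List.getElem?_replicate]
    rw [if_pos (by omega)]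
  have e2 : (r'.1.c j)[k]? = some true := by
    rw [hrj', hrj j hij.symm, List.getElem?_append_right (le_max_right _ _)]
    rw [List.getElem?_replicate]
    rw [if_pos (by omega)]
  obtain ⟨_, _, h⟩ := mem_fimp.1 (hq k 0 1) r' (hr'.trans hr)
    ⟨meets_of_mem ⟨false, e1, rfl⟩, meets_of_mem ⟨true, e2, rfl⟩⟩
  exact zero_ne_one h

theorem continuumIs (hI : ℵ₀ < #I) (hpow : #I ^ ℵ₀ = #I) (hΛ : #Λ ≤ #I) (p : Cond nm) :
    p ∈ ContinuumIs (Cond nm) #I := by
  refine ⟨?_, fun μ hμ => ?_⟩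
  · apply continuumLe pccc
    · rw [mk_out]; exact hI
    · rw [mk_out]; exact hpow
    · rw [mk_out]; exact mk_cond_le hI.le hΛ
  · apply not_continuumLe pccc (I := I) ?_ (CR nm) isFun_CR not_same_CR
    rw [mk_out]
    exact mul_lt_of_lt hI.le hμ hI

end

end Pool.Agent.K4H97.SG
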