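import Pool.Agent.Helper669.Forcing

/-!
# Cardinal numbers of the extension
-/

set_option autoImplicit false

namespace Pool.Agent.K4H97.SG

open Pool.Agent.Helper669.Forcing

/-- In the extension there is an injective function from `X` to `Y`. -/
def InjN (P : Type) [Preorder P] (X Y : Type) : Set P :=
  fex fun R : X → Y → Set P => fand (IsFun R) (IsInj R)

/-- In the extension `|Y|` is the successor of `|X|`: there is no injective function from `Y` to
`X`, but there is one for every proper initial segment of the linearly ordered set `Y`. -/
def NextN (P : Type) [Preorder P] (X Y : Type) [LinearOrder Y] : Set P :=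
  fand (fnot (InjN P Y X)) (fall fun b : Y => InjN P {y : Y // y < b} X)

/-- In the extension the continuum is `|X|`: there are a map from `X` onto the Baire space, and
an injective map from `X` to the Baire space. -/
def ContinuumEq (P : Type) [Preorder P] (X : Type) : Set P :=
  fand (ContinuumLe P X)
    (fex fun E : X → ℕ → ℕ → Set P => fand (fall fun i => IsFun (E i))
      (fall fun i => fall fun j => fall fun _ : i ≠ j => fnot (SameReal (E i) (E j))))

end Pool.Agent.K4H97.SG
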