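import Pool.Agent.K4H97.SG.Prod

/-!
# Cardinals in the product with a collapse
-/

set_option autoImplicit false
set_option linter.unusedSectionVars false

namespace Pool.Agent.K4H97.SG

open Set Cardinal Pool.Agent.Helper669.Forcing Pool.Agent.W684.FM Pool.Agent.Helper669.Lift

/-! ### No injections -/

theorem down_InjN {P : Type} [Preorder P] (X Y : Type) : Down (InjN P X Y) := down_fex _

/-- a bound for antichains -/
def ACB (D : Type) [Preorder D] (θ : Cardinal.{0}) : Prop :=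
  ∀ A : Set D, (∀ a ∈ A, ∀ b ∈ A, a ≠ b → ¬ ∃ r, r ≤ a ∧ r ≤ b) → #A ≤ θ

theorem no_inj {D : Type} [Preorder D] {θ : Cardinal.{0}} (hcc : ACB D θ) (hinf : ℵ₀ ≤ θ)
    {X Y : Type} (hX : #X ≤ θ) (hY : θ < #Y) (d : D) : d ∈ fnot (InjN D Y X) := by
  intro d1 _ h1
  obtain ⟨d2, hd2, R, hR, hI⟩ := mem_fex.1 h1 d1 le_rfl
  have h2 : ∀ y, ∃ e ≤ d2, ∃ x, e ∈ meets (R y x) := fun y => by
    obtain ⟨e, he, x, hx⟩ := IsFun.total hR y
    exact ⟨e, he, x, hx⟩
  choose e he x hx using h2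
  -- a large fiber
  have h3 : ∃ x0, θ < #(x ⁻¹' {x0}) := by
    by_contra hcon
    push Not at hcon
    have h4 : #Y ≤ θ := by
      have h5 : #Y = #(⋃ x0, x ⁻¹' {x0}) := by
        have : (⋃ x0, x ⁻¹' {x0}) = Set.univ := by
          ext y
          simp
        rw [this, mk_univ]
      rw [h5]
      refine (mk_iUnion_le _).trans ?_
      refine (mul_le_mul' hX (ciSup_le' hcon)).trans ?_
      exact (mul_eq_self hinf).le
    exact absurd hY (not_lt.2 h4)
  obtain ⟨x0, hx0⟩ := h3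
  have hinj : ∀ y y', x y = x0 → x y' = x0 → (∃ r, r ≤ e y ∧ r ≤ e y') → y = y' := by
    rintro y y' hy hy' ⟨r, hr, hr'⟩
    refine IsInj.eq (down_IsInj _ _ hI r (hr.trans (he y))) (y := x0) ?_ ?_
    · have := down_meets _ _ (hx y) r hr
      rwa [hy] at this
    · have := down_meets _ _ (hx y') r hr'
      rwa [hy'] at this
  have h6 : #(x ⁻¹' {x0}) ≤ #(e '' (x ⁻¹' {x0})) := by
    refine mk_le_of_injective (f := fun y : x ⁻¹' {x0} =>
      (⟨e y.1, y.1, y.2, rfl⟩ : e '' (x ⁻¹' {x0}))) ?_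
    intro y y' h
    have h7 : e y.1 = e y'.1 := congrArg Subtype.val h
    exact Subtype.ext (hinj _ _ y.2 y'.2 ⟨e y.1, le_rfl, h7 ▸ le_rfl⟩)
  refine absurd (hcc (e '' (x ⁻¹' {x0})) ?_) (not_le.2 (hx0.trans_le h6))
  rintro _ ⟨y, hy, rfl⟩ _ ⟨y', hy', rfl⟩ hne hc
  exact hne (congrArg e (hinj y y' hy hy' hc))

section

variable {Q P : Type} [Preorder Q] [Preorder P]

theorem acb_prod (hP : PCCC P) {θ : Cardinal.{0}} (hinf : ℵ₀ ≤ θ) (hQ : #Q ≤ θ) :
    ACB (Q × P) θ := by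
  intro A hA
  have h1 : A = ⋃ q : Q, A ∩ {d | d.1 = q} := by
    ext d
    simp
  rw [h1]
  refine (mk_iUnion_le _).trans ?_
  refine (mul_le_mul' hQ (ciSup_le' (a := ℵ₀) fun q => ?_)).trans ?_
  · have h2 : (Prod.snd '' (A ∩ {d : Q × P | d.1 = q})).Countable := by
      apply hP
      rintro _ ⟨d, hd, rfl⟩ _ ⟨d', hd', rfl⟩ hne ⟨r, hr, hr'⟩
      have e1 : d.1 = q := hd.2
      have e2 : d'.1 = q := hd'.2
      refine hA d hd.1 d' hd'.1 (fun h => hne (by rw [h])) ⟨(q, r), ⟨e1 ▸ le_rfl, hr⟩,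
        ⟨e2 ▸ le_rfl, hr'⟩⟩
    have h3 : (A ∩ {d : Q × P | d.1 = q}).Countable := by
      refine countable_of_injective_of_countable_image (f := Prod.snd) ?_ h2
      rintro d hd d' hd' h
      exact Prod.ext (hd.2.trans hd'.2.symm) h
    exact h3.le_aleph0
  · exact (mul_le_mul' le_rfl hinf).trans (mul_eq_self hinf).le

theorem ac_of_pccc (hP : PCCC P) : AC P := by
  intro A hA
  apply hP
  intro a ha b hb hne hc
  exact hne (hA a ha b hb hc)

/-- uncountable sets stay uncountable -/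
theorem no_inj_nat (hP : PCCC P) (hQ : SC Q) {X : Type} (hX : ¬ Countable X) (d : Q × P) :
    d ∈ fnot (InjN (Q × P) X ℕ) := by
  classical
  rintro d1 _ h1
  obtain ⟨⟨q1, p1⟩, hd2, R, hR, hI⟩ := mem_fex.1 h1 d1 le_rfl
  have hlt : ∀ {X : Type} {S : Set X}, #S < ℵ₁ ↔ S.Countable := by
    intro X S
    rw [← Cardinal.le_aleph0_iff_set_countable, ← succ_aleph0, Order.lt_succ_iff]
  obtain ⟨q', hq', h⟩ := Pool.Agent.Helper669.Easton.easton (B := P) (T := Q) (κ := ℵ₁)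
    isRegular_aleph_one
    (fun A hA => hlt.2 (ac_of_pccc hP A hA)) (fun S h1 h2 h3 => hQ S h1 (hlt.1 h2) h3)
    (Λ := ℕ) (by
      rw [← succ_aleph0, Order.lt_succ_iff]; exact mk_le_aleph0)
    (fun i b t => (∃ a, (t, b) ∈ meets (R a i)) ∨ ∀ a, (t, b) ∈ fnot (meets (R a i)))
    (by
      rintro i b t (⟨a, h⟩ | h) b' hb' t' ht'
      · exact Or.inl ⟨a, down_meets _ _ h _ ⟨ht', hb'⟩⟩
      · exact Or.inr fun a => down_fnot _ _ (h a) _ ⟨ht', hb'⟩)
    (by
      intro i b t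
      by_cases hc : ∀ a, (t, b) ∈ fnot (meets (R a i))
      · exact ⟨b, le_rfl, t, le_rfl, Or.inr hc⟩
      · push Not at hc
        obtain ⟨a, ha⟩ := hc
        simp only [fnot, mem_ofPred_eq, not_forall, not_not] at ha
        obtain ⟨⟨t', b'⟩, hle, hm⟩ := ha
        exact ⟨b', hle.2, t', hle.1, Or.inl ⟨a, hm⟩⟩) q1
  let Z : ℕ → Set X := fun i => {a | ∃ b ≤ p1, (q', b) ∈ meets (R a i)}
  have huniq : ∀ (i : ℕ) (a a' : X) (r : Q × P), r ≤ (q1, p1) → r ∈ meets (R a i) →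
      r ∈ meets (R a' i) → a = a' := fun i a a' r hr h1 h2 =>
    IsInj.eq (down_IsInj _ _ hI r hr) h1 h2
  have hZ : ∀ i, (Z i).Countable := by
    intro i
    have h2 : ∀ a : Z i, ∃ b ≤ p1, (q', b) ∈ meets (R a.1 i) := fun a => a.2
    choose f hf1 hf2 using h2
    have hinj : ∀ a a' : Z i, (∃ r, r ≤ f a ∧ r ≤ f a') → a = a' := by
      rintro a a' ⟨r, hr, hr'⟩
      refine Subtype.ext (huniq i a.1 a'.1 (q', r) ⟨hq', hr.trans (hf1 a)⟩ ?_ ?_)
      · exact down_meets _ _ (hf2 a) _ ⟨le_rfl, hr⟩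
      · exact down_meets _ _ (hf2 a') _ ⟨le_rfl, hr'⟩
    have h3 : (range f).Countable := by
      apply hP
      rintro _ ⟨a, rfl⟩ _ ⟨a', rfl⟩ hne hc
      exact hne (congrArg f (hinj a a' hc))
    have h4 : Countable (Z i) := by
      have : Countable (range f) := h3.to_subtype
      refine Function.Injective.countable (f := fun a : Z i => (⟨f a, a, rfl⟩ : range f)) ?_
      intro a a' h
      have h5 : f a = f a' := congrArg Subtype.val h
      exact hinj a a' ⟨f a, le_rfl, h5 ▸ le_rfl⟩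
    exact h4
  obtain ⟨a, ha⟩ : ∃ a, a ∉ ⋃ i, Z i := by
    by_contra hcon
    push Not at hcon
    apply hX
    rw [← countable_univ_iff]
    exact (countable_iUnion hZ).mono fun a _ => hcon a
  obtain ⟨⟨q2, p2⟩, hle, i, hm⟩ := IsFun.total (down_IsFun R _ hR (q', p1) ⟨hq', le_rfl⟩) a
  obtain ⟨b', hb', h2 | h2⟩ := h i p2
  · obtain ⟨a', h3⟩ := h2
    have h4 : a = a' := huniq i a a' (q2, b') ⟨hle.1.trans hq', hb'.trans hle.2⟩
      (down_meets _ _ hm _ ⟨le_rfl, hb'⟩) (down_meets _ _ h3 _ ⟨hle.1, le_rfl⟩)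
    subst h4
    exact ha (mem_iUnion.2 ⟨i, b', hb'.trans hle.2, h3⟩)
  · exact h2 a (q2, b') ⟨hle.1, le_rfl⟩ (down_meets _ _ hm _ ⟨le_rfl, hb'⟩)

/-- injections of the ground model -/
theorem inj_ground {X Y : Type} (f : X → Y) (hf : Function.Injective f) (p : P) :
    p ∈ InjN P X Y := by
  refine mem_fex_of_mem (fun x y => {_p | f x = y}) (down_fand (down_IsFun _) (down_IsInj _))
    ⟨⟨fun x => ?_, fun x y y' => ?_⟩, fun x x' y => ?_⟩
  · exact mem_fex_of_mem (f x) (down_meets _) (meets_of_mem rfl)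
  · rw [mem_fimp]
    rintro q _ ⟨h1, h2⟩
    obtain ⟨_, _, _, h3, _⟩ := h1 q le_rfl
    obtain ⟨_, _, _, h4, _⟩ := h2 q le_rfl
    exact ⟨q, le_rfl, h3.symm.trans h4⟩
  · rw [mem_fimp]
    rintro q _ ⟨h1, h2⟩
    obtain ⟨_, _, _, h3, _⟩ := h1 q le_rfl
    obtain ⟨_, _, _, h4, _⟩ := h2 q le_rfl
    exact ⟨q, le_rfl, hf (h3.trans h4.symm)⟩

end

/-! ### The collapse -/

/-- countable partial injective functions from `X` to `Y` -/
structure Col (X Y : Type) where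
  s : Set (X × Y)
  cnt : s.Countable
  fn : ∀ a b b', (a, b) ∈ s → (a, b') ∈ s → b = b'
  inj : ∀ a a' b, (a, b) ∈ s → (a', b) ∈ s → a = a'

instance (X Y : Type) : Preorder (Col X Y) where
  le q p := p.s ⊆ q.s
  le_refl _ := subset_rfl
  le_trans _ _ _ h1 h2 := h2.trans h1

instance (X Y : Type) : Nonempty (Col X Y) :=
  ⟨⟨∅, countable_empty, fun _ _ _ h => absurd h (notMem_empty _),
    fun _ _ _ h => absurd h (notMem_empty _)⟩⟩

theorem sc_col (X Y : Type) : SC (Col X Y) := by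
  intro S hS hc _
  refine ⟨⟨⋃ p ∈ S, p.s, hc.biUnion fun p _ => p.cnt, ?_, ?_⟩, ?_⟩
  · intro a b b' h1 h2
    simp only [mem_iUnion] at h1 h2
    obtain ⟨p, hp, h1⟩ := h1
    obtain ⟨q, hq, h2⟩ := h2
    rcases hS p hp q hq with h | h
    · exact p.fn a b b' h1 (h h2)
    · exact q.fn a b b' (h h1) h2
  · intro a a' b h1 h2
    simp only [mem_iUnion] at h1 h2
    obtain ⟨p, hp, h1⟩ := h1
    obtain ⟨q, hq, h2⟩ := h2
    rcases hS p hp q hq with h | h
    · exact p.inj a a' b h1 (h h2)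
    · exact q.inj a a' b (h h1) h2
  · intro p hp z hz
    exact mem_iUnion₂.2 ⟨p, hp, hz⟩

theorem mk_col_le {X Y : Type} {θ : Cardinal.{0}} (hX : #X ≤ θ) (hY : #Y ≤ θ) (hθ : ℵ₀ ≤ θ)
    (hpow : θ ^ ℵ₀ = θ) : #(Col X Y) ≤ θ := by
  have h1 : #(Col X Y) ≤ #{t : Set (X × Y) // #t ≤ ℵ₀} := by
    refine mk_le_of_injective (f := fun p : Col X Y =>
      (⟨p.s, p.cnt.le_aleph0⟩ : {t : Set (X × Y) // #t ≤ ℵ₀})) ?_
    rintro ⟨s, _, _, _⟩ ⟨t, _, _, _⟩ h
    have : s = t := congrArg Subtype.val h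
    subst this
    rfl
  refine h1.trans ((mk_bounded_set_le _ _).trans ?_)
  rw [← hpow]
  apply power_le_power_right
  rw [mk_prod, lift_id, lift_id]
  exact max_le ((mul_le_mul' hX hY).trans (mul_eq_self hθ).le) hθ

theorem inj_col {X Y P : Type} [Preorder P] (hY : ¬ Countable Y) (d : Col X Y × P) :
    d ∈ InjN (Col X Y × P) X Y := by
  have hdown : ∀ x y, Down {d : Col X Y × P | (x, y) ∈ d.1.s} :=
    fun x y d hd e he => he.1 hd
  refine mem_fex_of_mem (fun x y => {d | (x, y) ∈ d.1.s})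
    (down_fand (down_IsFun _) (down_IsInj _)) ⟨⟨fun x => ?_, fun x y y' => ?_⟩, fun x x' y => ?_⟩
  · rw [mem_fex]
    rintro ⟨q, p⟩ _
    by_cases h : ∃ y, (x, y) ∈ q.s
    · obtain ⟨y, hy⟩ := h
      exact ⟨(q, p), le_rfl, y, meets_of_mem hy⟩
    · push Not at h
      obtain ⟨y, hy⟩ : ∃ y, y ∉ Prod.snd '' q.s := by
        by_contra hcon
        push Not at hcon
        apply hY
        rw [← countable_univ_iff]
        exact (q.cnt.image _).mono fun a _ => hcon a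
      have hy' : ∀ a, (a, y) ∉ q.s := fun a ha => hy ⟨_, ha, rfl⟩
      refine ⟨(⟨insert (x, y) q.s, q.cnt.insert _, ?_, ?_⟩, p), ⟨subset_insert _ _, le_rfl⟩, y,
        meets_of_mem (mem_insert _ _)⟩
      · rintro a b b' (h1 | h1) (h2 | h2)
        · simp only [Prod.mk.injEq] at h1 h2
          exact h1.2.trans h2.2.symm
        · simp only [Prod.mk.injEq] at h1
          obtain ⟨rfl, rfl⟩ := h1
          exact absurd h2 (h _)
        · simp only [Prod.mk.injEq] at h2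
          obtain ⟨rfl, rfl⟩ := h2
          exact absurd h1 (h _)
        · exact q.fn a b b' h1 h2
      · rintro a a' b (h1 | h1) (h2 | h2)
        · simp only [Prod.mk.injEq] at h1 h2
          exact h1.1.trans h2.1.symm
        · simp only [Prod.mk.injEq] at h1
          obtain ⟨rfl, rfl⟩ := h1
          exact absurd h2 (hy' _)
        · simp only [Prod.mk.injEq] at h2
          obtain ⟨rfl, rfl⟩ := h2
          exact absurd h1 (hy' _)
        · exact q.inj a a' b h1 h2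
  · rw [mem_fimp]
    rintro q _ ⟨h1, h2⟩
    obtain ⟨r, hr, h3⟩ := exists_of_meets (hdown x y) h1
    obtain ⟨r', hr', h4⟩ := exists_of_meets (hdown x y') (down_meets _ _ h2 r hr)
    exact ⟨q, le_rfl, r'.1.fn x y y' (hr'.1 h3) h4⟩
  · rw [mem_fimp]
    rintro q _ ⟨h1, h2⟩
    obtain ⟨r, hr, h3⟩ := exists_of_meets (hdown x y) h1
    obtain ⟨r', hr', h4⟩ := exists_of_meets (hdown x' y) (down_meets _ _ h2 r hr)
    exact ⟨q, le_rfl, r'.1.inj x x' y (hr'.1 h3) h4⟩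

/-- composition with an injection of the ground model -/
theorem inj_comp {P X X' Y : Type} [Preorder P] (f : X' → X) (hf : Function.Injective f) {p : P}
    (h : p ∈ InjN P X Y) : p ∈ InjN P X' Y := by
  unfold InjN at h ⊢
  rw [mem_fex]
  intro q hq
  obtain ⟨r, hr, R, hR, hI⟩ := mem_fex.1 h q hq
  refine ⟨r, hr, fun x y => R (f x) y, ⟨fun x => hR.1 (f x), fun x => hR.2 (f x)⟩,
    fun x x' y => ?_⟩
  rw [mem_fimp]
  rintro s hs h1
  exact ⟨s, le_rfl, hf (IsInj.eq (down_IsInj _ _ hI s hs) h1.1 h1.2)⟩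

/-! ### The continuum of the product -/

theorem exists_codes {P : Type} [Preorder P] [Nonempty P] (hP : PCCC P) {Y : Type}
    (hY : ℵ₀ < #Y) (hpow : #Y ^ ℵ₀ = #Y) (hPY : #P ≤ #Y) :
    ∃ E : Y → ℕ → ℕ → Set P, (∀ i p, p ∈ IsFun (E i)) ∧
      ∀ x : ℕ → ℕ → Set P, ∃ i, ∀ p ∈ IsFun x, p ∈ SameReal x (E i) := by
  classical
  let N := {c : ℕ → ℕ → Option (P × ℕ) // ∀ p, p ∈ IsFun (cnm c)}
  have hN : #N ≤ #Y := by
    refine (mk_subtype_le _).trans (mk_seq_le hpow (mk_seq_le hpow ?_))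
    rw [mk_option, mk_prod]
    simp only [lift_uzero, mk_nat]
    exact (add_le_add ((mul_le_mul' hPY hY.le).trans (mul_eq_self hY.le).le)
      (one_le_aleph0.trans hY.le)).trans (add_eq_self hY.le).le
  have hne : Nonempty N := by
    obtain ⟨c, hc, _⟩ := exists_cnm hP fun _ _ => ∅
    exact ⟨⟨c, hc⟩⟩
  obtain ⟨g⟩ : Nonempty (N ↪ Y) := Cardinal.le_def _ _ |>.1 hN
  have hsurj : Function.Surjective (Function.invFun g) := Function.invFun_surjective g.injective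
  refine ⟨fun i => cnm (Function.invFun g i).1, fun i => (Function.invFun g i).2, fun x => ?_⟩
  obtain ⟨c, hc1, hc2⟩ := exists_cnm hP x
  obtain ⟨i, hi⟩ := hsurj ⟨c, hc1⟩
  refine ⟨i, ?_⟩
  intro p hp
  show p ∈ SameReal x (cnm (Function.invFun g i).1)
  rw [show (Function.invFun g i).1 = c from congrArg Subtype.val hi]
  exact hc2 p hp

theorem continuumEq_prod {Q P : Type} [Preorder Q] [Preorder P] [Nonempty P] (hP : PCCC P)
    (hQ : SC Q) {Y : Type} (hY : ℵ₀ < #Y) (hpow : #Y ^ ℵ₀ = #Y) (hPY : #P ≤ #Y)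
    (X : Y → ℕ → ℕ → Set P) (hX : ∀ i p, p ∈ IsFun (X i))
    (hne : ∀ i j, i ≠ j → ∀ p, p ∈ fnot (SameReal (X i) (X j))) (d : Q × P) :
    d ∈ ContinuumEq (Q × P) Y := by
  obtain ⟨E, hE1, hE2⟩ := exists_codes hP hY hpow hPY
  constructor
  · refine mem_fex_of_mem (fun i n m => up Q (E i n m)) ?_ ?_
    · exact down_fand (down_fall fun _ => down_IsFun _) (down_fall fun _ => down_fimp _ _)
    · refine ⟨fun i => ?_, fun x => mem_fimp.2 ?_⟩
      · exact (Rel.isFun (fun n m => rel_up d.1 (E i n m)) d.1 le_rfl d.2).2 (hE1 i d.2)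
      · rintro ⟨q1, p1⟩ _ h1
        obtain ⟨q2, hq2, N', hN'⟩ := reduce (ac_of_pccc hP) hQ (Λ := ℕ × ℕ)
          (fun i => x i.1 i.2) q1
        have hx : ∀ n m, Rel q2 (meets (x n m)) (meets (N' (n, m))) := fun n m => hN' (n, m)
        have h2 : p1 ∈ IsFun fun n m => N' (n, m) :=
          (Rel.isFun hx q2 le_rfl p1).1 (down_IsFun _ _ h1 (q2, p1) ⟨hq2, le_rfl⟩)
        obtain ⟨i, hi⟩ := hE2 fun n m => N' (n, m)
        refine ⟨(q2, p1), ⟨hq2, le_rfl⟩, mem_fex_of_mem i (down_SameReal _ _) ?_⟩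
        exact (Rel.sameReal hx (fun n m => rel_up q2 (E i n m)) q2 le_rfl p1).2 (hi p1 h2)
  · refine mem_fex_of_mem (fun i n m => up Q (X i n m)) ?_ ?_
    · exact down_fand (down_fall fun _ => down_IsFun _)
        (down_fall fun _ => down_fall fun _ => down_fall fun _ => down_fnot _)
    · refine ⟨fun i => ?_, fun i j hij => ?_⟩
      · exact (Rel.isFun (fun n m => rel_up d.1 (X i n m)) d.1 le_rfl d.2).2 (hX i d.2)
      · exact ((Rel.sameReal (fun n m => rel_up d.1 (X i n m))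
          (fun n m => rel_up d.1 (X j n m))).not d.1 le_rfl d.2).2 (hne i j hij d.2)

end Pool.Agent.K4H97.SG
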