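import Pool.Agent.K4H97.SG.Gen

/-!
# The generic sets span all reals
-/

set_option autoImplicit false
set_option linter.unusedSectionVars false

namespace Pool.Agent.K4H97.SG

open Set Pre

variable {I Λ : Type} [LinearOrder I] [LinearOrder Λ] [WellFoundedLT Λ] {nm : Names I Λ}

/-- a promise is kept -/
theorem promise_kept {r : Pre I Λ} (hr : Valid nm r) {ξ : Λ} {n : ℕ} {i : I}
    (hE : (ξ, n, i) ∈ r.E) : ∃ x, x ∈ apv nm r (Sum.inl i) ∧ x ∈ r.C (ξ, n) := by
  obtain ⟨hlow, hu, -⟩ := promise hr hE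
  obtain ⟨g, hg0, hganti, hgD⟩ := exists_seq (P := PB nm ξ)
    ⟨r.restrict (Iio ξ), valid_restrict hr ξ⟩
    ((fun u : Str => {s : PB nm ξ | ∀ x ∈ apv nm s.1 (Sum.inl i), ¬ Ini u x}) ''
      {u | (ξ, n, u) ∈ r.U}) ((Set.to_countable _).image _) (by
    rintro D ⟨u, hu', rfl⟩ q hq
    obtain ⟨s, hs, h1, h2⟩ := hu u hu' q.1 q.2 hq
    exact ⟨⟨s, hs⟩, h1, h2⟩)
  have hdesc : Desc fun k => (g k).1 := fun k l hkl => hganti hkl
  have hval : ∀ k, Valid nm (g k).1 := fun k => (g k).2.1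
  refine ⟨val nm (fun k => (g k).1) i, ?_, ?_⟩
  · have h1 := val_mem hdesc hval i 0
    simp only [hg0] at h1
    have h2 := ap_VB hlow (valid_restrict hr ξ)
    have h3 := ap_restrict hlow hr
    show _ ∈ ap nm (Valid nm) r (Sum.inl i)
    rw [← h3, h2]
    exact h1
  · intro u hu'
    obtain ⟨k, hk⟩ := hgD _ ⟨u, hu', rfl⟩
    exact hk _ (val_mem hdesc hval i k)

/-- the forcing notion -/
def Cond (nm : Names I Λ) : Type := {p : Pre I Λ // Valid nm p}

instance : Preorder (Cond nm) where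
  le q p := Le q.1 p.1
  le_refl p := Le.refl p.1
  le_trans _ _ _ h1 h2 := h1.trans h2

theorem le_def {q p : Cond nm} : q ≤ p ↔ Le q.1 p.1 := Iff.rfl

theorem dense_decide' (i : I) (k : ℕ) (q : Cond nm) :
    ∃ s ≤ q, Pos (nm i k) s.1 ∨ Neg (Valid nm) (nm i k) s.1 := by
  by_cases h : ∃ r, Valid nm r ∧ Le r q.1 ∧ ∃ a ∈ nm i k, Le r a
  · obtain ⟨r, hr, h1, a, ha, h2⟩ := h
    exact ⟨⟨r, hr⟩, h1, Or.inl ⟨a, ha, h2⟩⟩
  · refine ⟨q, le_rfl, Or.inr fun r hr hrq a ha hra => h ⟨r, hr, hrq, a, ha, hra⟩⟩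

/-- the sets approximated by a descending sequence of conditions -/
def Lim (g : ℕ → Cond nm) (a : Atom I Λ) : Set Pt := ⋂ k, apv nm (g k).1 a

theorem Lim_subset (g : ℕ → Cond nm) (a : Atom I Λ) (k : ℕ) : Lim g a ⊆ apv nm (g k).1 a :=
  iInter_subset _ k

/-- the closed sets approximated by a descending sequence of conditions -/
def LimC (g : ℕ → Cond nm) (b : Λ × ℕ) : Set Pt := ⋂ k, (g k).1.C b

theorem isClosed_LimC (g : ℕ → Cond nm) (b : Λ × ℕ) : IsClosed (LimC g b) :=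
  isClosed_iInter fun _ => isClosed_C _ _

theorem Lim_inr (g : ℕ → Cond nm) (b : (Λ × ℕ) × Str) : Lim g (Sum.inr b) = BC (LimC g) b := by
  ext x
  simp only [Lim, LimC, BC, ap, mem_iInter, mem_inter_iff]
  exact ⟨fun h => ⟨fun k => (h k).1, (h 0).2⟩, fun h k => ⟨h.1 k, h.2⟩⟩

theorem mem_Lim_Sm {g : ℕ → Cond nm} (hg : Antitone g) {L : List (ℚ × Atom I Λ)} {z : ℝ}
    (h : ∀ k, z ∈ Sm (apv nm (g k).1) L) : z ∈ Sm (Lim g) L :=
  Sm_iInter (fun a _ _ hkl => ap_mono nm _ (hg hkl) a) (fun _ _ _ => isClosed_ap _ _ _ _) h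

/-- the sequence decides all digits of the point named by `nm i` -/
def Dec (g : ℕ → Cond nm) (i : I) : Prop :=
  ∀ k, ∃ m, Pos (nm i k) (g m).1 ∨ Neg (Valid nm) (nm i k) (g m).1

theorem val_mem_Lim {g : ℕ → Cond nm} (hg : Antitone g) (i : I) :
    val nm (fun k => (g k).1) i ∈ Lim g (Sum.inl i) :=
  mem_iInter.2 fun k => val_mem (fun _ _ hkl => hg hkl) (fun k => (g k).2) i k

theorem Lim_inl {g : ℕ → Cond nm} (hg : Antitone g) {i : I} (hd : Dec g i) :
    Lim g (Sum.inl i) = {val nm (fun k => (g k).1) i} := by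
  apply Subset.antisymm
  · intro x hx
    rw [mem_singleton_iff]
    funext k
    obtain ⟨M, hM⟩ := apv_subset_tk (fun _ _ hkl => hg hkl) (fun k => (g k).2) i hd (k + 1)
    exact ini_tk.1 (hM x (mem_iInter.1 hx M)) k (Nat.lt_succ_self k)
  · rintro x rfl
    exact val_mem_Lim hg i

/-- replacing the names in a list by combinations of points of the generic sets -/
def subst (R : I → List (ℚ × Atom I Λ)) : List (ℚ × Atom I Λ) → List (ℚ × Atom I Λ)
  | [] => []
  | (c, Sum.inl j) :: L => scale (-c) (R j) ++ subst R L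
  | (c, Sum.inr b) :: L => (c, Sum.inr (b.1, [])) :: subst R L

theorem mem_subst {A : Atom I Λ → Set Pt} {X : I → Pt} {R : I → List (ℚ × Atom I Λ)}
    (hA : ∀ b t, A (Sum.inr (b, t)) ⊆ A (Sum.inr (b, [])))
    {L : List (ℚ × Atom I Λ)} (hX : ∀ x ∈ L, ∀ j, x.2 = Sum.inl j → A (Sum.inl j) = {X j})
    (hR : ∀ x ∈ L, ∀ j, x.2 = Sum.inl j → (0 : ℝ) ∈ Sm A ((1, Sum.inl j) :: R j)) {z : ℝ}
    (hz : z ∈ Sm A L) : z ∈ Sm A (subst R L) := by
  induction L generalizing z with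
  | nil => exact hz
  | cons x L ih =>
    obtain ⟨c, j | ⟨b, t⟩⟩ := x
    · obtain ⟨p, hp, y, hy, rfl⟩ := hz
      have hy2 := ih (fun x hx => hX x (List.mem_cons_of_mem _ hx))
        (fun x hx => hR x (List.mem_cons_of_mem _ hx)) hy
      obtain ⟨p', hp', w, hw, h0⟩ := hR _ (List.mem_cons_self ..) j rfl
      have h1 := hX _ (List.mem_cons_self ..) j rfl
      simp only at hp hp' h0
      rw [h1] at hp hp'
      rw [mem_singleton_iff] at hp hp'
      subst hp hp'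
      refine Sm_append ?_ hy2
      have h2 := Sm_scale (-c) hw
      have h3 : (((-c : ℚ) : ℝ)) * w = c * v (X j) := by
        have h4 : w = - v (X j) := by
          push_cast at h0
          linarith
        rw [h4]
        push_cast
        ring
      rw [h3] at h2
      exact h2
    · obtain ⟨p, hp, y, hy, rfl⟩ := hz
      exact ⟨p, hA b t hp, y, ih (fun x hx => hX x (List.mem_cons_of_mem _ hx))
        (fun x hx => hR x (List.mem_cons_of_mem _ hx)) hy, rfl⟩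

/-- lists of whole generic sets with stages at most `ξ` -/
def Pure (ξ : Λ) (L : List (ℚ × Atom I Λ)) : Prop :=
  ∀ x ∈ L, ∃ b : Λ × ℕ, x.2 = Sum.inr (b, []) ∧ b.1 ≤ ξ

theorem pure_subst {ξ : Λ} {R : I → List (ℚ × Atom I Λ)} {L : List (ℚ × Atom I Λ)}
    (hR : ∀ x ∈ L, ∀ j, x.2 = Sum.inl j → Pure ξ (R j))
    (hL : ∀ x ∈ L, ∀ b, x.2 = Sum.inr b → b.1.1 ≤ ξ) : Pure ξ (subst R L) := by
  induction L with
  | nil =>
    intro x hx
    exact absurd hx List.not_mem_nil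
  | cons x L ih =>
    have ih' := ih (fun x hx => hR x (List.mem_cons_of_mem _ hx))
      (fun x hx => hL x (List.mem_cons_of_mem _ hx))
    obtain ⟨c, j | ⟨b, t⟩⟩ := x
    · intro y hy
      rcases List.mem_append.1 hy with h | h
      · obtain ⟨w, hw, rfl⟩ := mem_scale h
        exact hR _ (List.mem_cons_self ..) j rfl w hw
      · exact ih' y h
    · intro y hy
      rcases List.mem_cons.1 hy with rfl | h
      · exact ⟨b, rfl, hL _ (List.mem_cons_self ..) (b, t) rfl⟩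
      · exact ih' y h

/-- the real named by `nm i` is forced to be minus the value of the list -/
def Rep (q : Cond nm) (i : I) (L : List (ℚ × Atom I Λ)) : Prop :=
  ∀ r ≤ q, (0 : ℝ) ∈ Sm (apv nm r.1) ((1, Sum.inl i) :: L)

theorem Rep.mono {q r : Cond nm} {i : I} {L : List (ℚ × Atom I Λ)} (h : Rep q i L) (hr : r ≤ q) :
    Rep r i L := fun s hs => h s (hs.trans hr)

theorem rep_promise {q : Cond nm} {ξ : Λ} {n : ℕ} {i : I} (hE : (ξ, n, i) ∈ q.1.E) :
    Rep q i [(-1, Sum.inr ((ξ, n), []))] := by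
  intro r hr
  obtain ⟨x, hx1, hx2⟩ := promise_kept r.2 (hr.2.2 hE)
  refine ⟨x, hx1, -v x, ⟨x, ⟨hx2, ini_nil _⟩, 0, rfl, by push_cast; ring⟩, by push_cast; ring⟩

/-- representing all names in a finite set -/
theorem exists_reps {ξ : Λ} (J : Finset I) (h : ∀ j ∈ J, ∀ p : Cond nm, ∃ q ≤ p, ∃ L, Pure ξ L ∧
    Rep q j L) (p : Cond nm) : ∃ q ≤ p, ∃ R : I → List (ℚ × Atom I Λ),
      ∀ j ∈ J, Pure ξ (R j) ∧ Rep q j (R j) := by
  classical
  induction J using Finset.induction_on with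
  | empty => exact ⟨p, le_rfl, fun _ => [], by simp⟩
  | insert a J ha ih =>
    obtain ⟨q, hq, R, hR⟩ := ih fun j hj => h j (Finset.mem_insert_of_mem hj)
    obtain ⟨q', hq', L, hL1, hL2⟩ := h a (Finset.mem_insert_self _ _) q
    refine ⟨q', hq'.trans hq, Function.update R a L, fun j hj => ?_⟩
    by_cases hja : j = a
    · subst hja
      simpa using ⟨hL1, hL2⟩
    · rw [Function.update_of_ne hja]
      have := hR j (Finset.mem_of_mem_insert_of_ne hj hja)
      exact ⟨this.1, this.2.mono hq'⟩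

theorem dense_rep [WellFoundedLT I] (ξ : Λ) (i : I) : Low nm ξ i → ∀ p : Cond nm, ∃ q ≤ p, ∃ L,
    Pure ξ L ∧ Rep q i L := by
  classical
  induction i using WellFoundedLT.induction with
  | ind i IH =>
  intro hlow p
  by_cases hA : ∀ L, Adm nm ξ i L → ∀ q, Valid nm q → Le q p.1 →
      ∃ s, Valid nm s ∧ Le s q ∧ (0 : ℝ) ∉ Sm (apv nm s) ((1, Sum.inl i) :: L)
  · -- the real is new
    by_cases hE : ∃ n, (ξ, n, i) ∈ p.1.E
    · obtain ⟨n, hn⟩ := hE
      refine ⟨p, le_rfl, _, ?_, rep_promise hn⟩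
      intro x hx
      rw [List.mem_singleton] at hx
      subst hx
      exact ⟨_, rfl, le_rfl⟩
    · push Not at hE
      obtain ⟨n, hn⟩ : ∃ n, ∀ u, (ξ, n, u) ∉ p.1.U := by
        refine ⟨(p.2.1.2.1.toFinset.sup fun x => x.2.1) + 1, fun u hu => ?_⟩
        have := Finset.le_sup (f := fun x : Λ × ℕ × Str => x.2.1) (p.2.1.2.1.mem_toFinset.2 hu)
        simp only at this
        omega
      have hv := valid_addE p.2 hlow (n := n) hE hn hA
      refine ⟨⟨_, hv⟩, ⟨fun _ => List.prefix_rfl, subset_rfl, subset_insert _ _⟩, _, ?_,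
        rep_promise (ξ := ξ) (n := n) (i := i) (mem_insert _ _)⟩
      intro x hx
      rw [List.mem_singleton] at hx
      subst hx
      exact ⟨_, rfl, le_rfl⟩
  · push Not at hA
    obtain ⟨L, hL, q0, hq0, hq0p, hA⟩ := hA
    set q1 : Cond nm := ⟨q0, hq0⟩ with hq1
    set J : Finset I := (L.filterMap fun x => x.2.getLeft?).toFinset with hJ
    have memJ : ∀ j, (∃ x ∈ L, x.2 = Sum.inl j) → j ∈ J := by
      rintro j ⟨x, hx, hj⟩
      rw [hJ, List.mem_toFinset, List.mem_filterMap]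
      exact ⟨x, hx, by rw [hj]; rfl⟩
    have memJ' : ∀ j ∈ J, ∃ x ∈ L, x.2 = Sum.inl j := by
      intro j hj
      rw [hJ, List.mem_toFinset, List.mem_filterMap] at hj
      obtain ⟨x, hx, h1⟩ := hj
      exact ⟨x, hx, Sum.getLeft?_eq_some_iff.1 h1⟩
    obtain ⟨q, hq, R, hR⟩ := exists_reps (ξ := ξ) J (fun j hj => by
      obtain ⟨x, hx, h1⟩ := memJ' j hj
      exact IH j ((hL x hx).1 j h1).1 ((hL x hx).1 j h1).2) q1
    refine ⟨q, hq.trans hq0p, subst R L, pure_subst (fun x hx j h1 => (hR j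
      (memJ j ⟨x, hx, h1⟩)).1) (fun x hx b hb => ((hL x hx).2 b hb).le), ?_⟩
    intro r hr
    -- a generic sequence
    obtain ⟨g, hg0, hganti, hgD⟩ := exists_seq r
      ((fun a : I × ℕ => {s : Cond nm | Pos (nm a.1 a.2) s.1 ∨
        Neg (Valid nm) (nm a.1 a.2) s.1}) '' ((insert i J : Finset I) ×ˢ univ))
      (((Finset.finite_toSet _).countable.prod countable_univ).image _) (by
      rintro D ⟨⟨j, k⟩, -, rfl⟩ s _
      exact dense_decide' j k s)
    have hdec : ∀ j ∈ insert i J, Dec g j := fun j hj k => by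
      obtain ⟨m, hm⟩ := hgD _ ⟨(j, k), ⟨Finset.mem_coe.2 hj, trivial⟩, rfl⟩
      exact ⟨m, hm⟩
    have hgr : ∀ k, g k ≤ r := fun k => hg0 ▸ hganti (Nat.zero_le k)
    have h1 : (0 : ℝ) ∈ Sm (Lim g) ((1, Sum.inl i) :: L) :=
      mem_Lim_Sm hganti fun k => hA (g k).1 (g k).2 ((hgr k).trans (hr.trans hq))
    obtain ⟨x, hx, y, hy, h0⟩ := h1
    have h2 : y ∈ Sm (Lim g) (subst R L) := by
      refine mem_subst (X := val nm fun k => (g k).1) ?_ ?_ ?_ hy
      · intro b t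
        rw [Lim_inr, Lim_inr]
        exact fun x hx => ⟨hx.1, ini_nil _⟩
      · intro x hx j hj
        exact Lim_inl hganti (hdec j (Finset.mem_insert_of_mem (memJ j ⟨x, hx, hj⟩)))
      · intro x hx j hj
        refine mem_Lim_Sm hganti fun k => ?_
        exact (hR j (memJ j ⟨x, hx, hj⟩)).2 (g k) ((hgr k).trans hr)
    have h3 : (0 : ℝ) ∈ Sm (Lim g) ((1, Sum.inl i) :: subst R L) := ⟨x, hx, y, h2, h0⟩
    refine Sm_mono (fun x _ => ?_) h3
    exact (Lim_subset g x.2 0).trans (by rw [hg0])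

end Pool.Agent.K4H97.SG
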