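import Pool.Agent.Helper669.Forcing

/-!
# Partitions of the real line of the extension into `F_σ` semigroups
-/

set_option autoImplicit false

namespace Pool.Agent.K4H97.SG

open Pool.Agent.Helper669.Forcing

variable {P : Type} [Preorder P]

/-- The set of rational numbers named by `x` is the left part of a Dedekind cut: it is nonempty,
it is not the set of all rational numbers, it is closed downwards and it has no largest element.
So `x` names a real number, and the set is `{q : q < x}`. -/
def IsReal (x : ℚ → Set P) : Set P :=
  fand (fand (fex fun q => meets (x q)) (fex fun q => fnot (meets (x q))))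
    (fand (fall fun q => fall fun r => fall fun _ : r < q => fimp (meets (x q)) (meets (x r)))
      (fall fun q => fimp (meets (x q)) (fex fun r => fand (fground (q < r)) (meets (x r)))))

/-- `q = a + b` for some rational numbers `a < x` and `b < y`. -/
def InSumCut (x y : ℚ → Set P) (q : ℚ) : Set P :=
  fex fun a => fex fun b => fand (fground (q = a + b)) (fand (meets (x a)) (meets (y b)))

/-- The real number named by `z` is the sum of the real numbers named by `x` and `y`. -/
def IsSum (x y z : ℚ → Set P) : Set P :=
  fall fun q => fand (fimp (meets (z q)) (InSumCut x y q)) (fimp (InSumCut x y q) (meets (z q)))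

/-- The real number named by `x` is in the open interval from `a` to `b`: `a < x`, and there is
a rational number `c < b` with `x ≤ c`. -/
def Between (x : ℚ → Set P) (a b : ℚ) : Set P :=
  fand (meets (x a)) (fex fun c => fand (fground (c < b)) (fnot (meets (x c))))

/-- A name `K : ℕ → ℚ → ℚ → Set P` for a sequence of sets of open intervals with rational end
points is a code for an `F_σ` set, the union over all `n` of the complements of the open sets
`⋃ {(a, b) : (a, b) ∈ K n}`. The real number named by `x` belongs to this `F_σ` set. -/
def InFsigma (x : ℚ → Set P) (K : ℕ → ℚ → ℚ → Set P) : Set P :=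
  fex fun n => fall fun a => fall fun b => fimp (Between x a b) (fnot (meets (K n a b)))

/-- The `F_σ` set with the code `K` is not empty. -/
def NonemptyN (K : ℕ → ℚ → ℚ → Set P) : Set P :=
  fex fun x : ℚ → Set P => fand (IsReal x) (InFsigma x K)

/-- The `F_σ` set with the code `K` contains the sum of any two of its members. -/
def AddClosedN (K : ℕ → ℚ → ℚ → Set P) : Set P :=
  fall fun x : ℚ → Set P => fall fun y : ℚ → Set P => fall fun z : ℚ → Set P =>
    fimp (fand (fand (IsReal x) (fand (IsReal y) (fand (IsReal z) (IsSum x y z))))
      (fand (InFsigma x K) (InFsigma y K))) (InFsigma z K)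

/-- The `F_σ` sets with the codes `K` and `K'` are disjoint. -/
def DisjointN (K K' : ℕ → ℚ → ℚ → Set P) : Set P :=
  fall fun x : ℚ → Set P => fimp (IsReal x) (fnot (fand (InFsigma x K) (InFsigma x K')))

/-- The real line is the union of the `F_σ` sets with the codes `K y`. -/
def CoversN {Y : Type} (K : Y → ℕ → ℚ → ℚ → Set P) : Set P :=
  fall fun x : ℚ → Set P => fimp (IsReal x) (fex fun y => InFsigma x (K y))

/-- In the extension, the real line has a partition into nonempty `F_σ` sets closed under
addition, indexed by `Y`. -/
def SemigroupPartition (P : Type) [Preorder P] (Y : Type) : Set P :=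
  fex fun K : Y → ℕ → ℚ → ℚ → Set P =>
    fand (fand (fall fun y => NonemptyN (K y)) (fall fun y => AddClosedN (K y)))
      (fand (fall fun y => fall fun y' => fall fun _ : y ≠ y' => DisjointN (K y) (K y'))
        (CoversN K))

end Pool.Agent.K4H97.SG
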