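import Pool.Agent.K4H97.SG.Gen
import Pool.Agent.K4H97.SG.Defs

/-!
# Evaluating names of reals
-/

set_option autoImplicit false
set_option linter.unusedSectionVars false

namespace Pool.Agent.K4H97.SG

open Set Pool.Agent.Helper669.Forcing

variable {P : Type} [Preorder P]

/-- the real number `ρ` is the value of the name `x` along the sequence `g` -/
def Ev (g : ℕ → P) (x : ℚ → Set P) (ρ : ℝ) : Prop :=
  (∀ q : ℚ, (∃ k, g k ∈ meets (x q)) ↔ (q : ℝ) < ρ) ∧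
    ∀ q : ℚ, (∃ k, g k ∈ fnot (meets (x q))) ↔ ρ ≤ q

/-- the dense sets needed for the evaluation -/
def RD (x : ℚ → Set P) : Set (Set P) :=
  ((range fun q => {s | s ∈ meets (x q) ∨ s ∈ fnot (meets (x q))}) ∪
    range fun q => {s | s ∈ fnot (meets (x q)) ∨ ∃ r, q < r ∧ s ∈ meets (x r)}) ∪
      {{s | ∃ q, s ∈ meets (x q)}, {s | ∃ q, s ∈ fnot (meets (x q))}}

theorem countable_RD (x : ℚ → Set P) : (RD x).Countable := by
  refine ((countable_range _).union (countable_range _)).union ?_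
  exact (Set.toFinite _).countable

theorem dense_RD {x : ℚ → Set P} {p : P} (hp : p ∈ IsReal x) : ∀ D ∈ RD x, ∀ q ≤ p,
    ∃ r ≤ q, r ∈ D := by
  rintro D ((⟨a, rfl⟩ | ⟨a, rfl⟩) | (rfl | rfl)) q hq
  · by_cases h : q ∈ fnot (meets (x a))
    · exact ⟨q, le_rfl, Or.inr h⟩
    · simp only [fnot, mem_ofPred_eq, not_forall, not_not] at h
      obtain ⟨r, hr, h⟩ := h
      exact ⟨r, hr, Or.inl h⟩
  · by_cases h : q ∈ fnot (meets (x a))
    · exact ⟨q, le_rfl, Or.inl h⟩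
    · simp only [fnot, mem_ofPred_eq, not_forall, not_not] at h
      obtain ⟨r, hr, h⟩ := h
      obtain ⟨s, hs, h1⟩ := mem_fimp.1 (hp.2.2 a) r (hr.trans hq) h
      obtain ⟨t, ht, b, hb1, hb2⟩ := mem_fex.1 h1 s le_rfl
      exact ⟨t, ht.trans (hs.trans hr), Or.inr ⟨b, hb1, hb2⟩⟩
  · exact mem_fex.1 hp.1.1 q hq
  · exact mem_fex.1 hp.1.2 q hq

theorem down_IsReal (x : ℚ → Set P) : Down (IsReal x) :=
  down_fand (down_fand (down_fex _) (down_fex _))
    (down_fand (down_fall fun _ => down_fall fun _ => down_fall fun _ => down_fimp _ _)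
      (down_fall fun _ => down_fimp _ _))

theorem not_both {N : Set P} {g : ℕ → P} (hg : Antitone g) {k l : ℕ} (h1 : g k ∈ meets N)
    (h2 : g l ∈ fnot (meets N)) : False :=
  h2 (g (max k l)) (hg (le_max_right _ _)) (down_meets _ _ h1 _ (hg (le_max_left _ _)))

theorem exists_ev {g : ℕ → P} (hg : Antitone g) {x : ℚ → Set P} {k0 : ℕ} (h0 : g k0 ∈ IsReal x)
    (hD : ∀ D ∈ RD x, ∃ k, g k ∈ D) : ∃ ρ, Ev g x ρ := by
  set A : Set ℝ := {y | ∃ q : ℚ, (∃ k, g k ∈ meets (x q)) ∧ (q : ℝ) = y} with hA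
  have hdec : ∀ q, (∃ k, g k ∈ meets (x q)) ∨ ∃ k, g k ∈ fnot (meets (x q)) := by
    intro q
    obtain ⟨k, h | h⟩ := hD _ (Or.inl (Or.inl ⟨q, rfl⟩))
    · exact Or.inl ⟨k, h⟩
    · exact Or.inr ⟨k, h⟩
  have hdown : ∀ q r : ℚ, r < q → (∃ k, g k ∈ meets (x q)) → ∃ k, g k ∈ meets (x r) := by
    rintro q r hrq ⟨k, hk⟩
    rcases hdec r with h | ⟨l, hl⟩
    · exact h
    · exfalso
      set m := max k0 (max k l) with hm
      have h1 : g m ∈ IsReal x := down_IsReal x _ h0 _ (hg (le_max_left _ _))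
      have h2 : g m ∈ meets (x q) :=
        down_meets _ _ hk _ (hg ((le_max_left _ _).trans (le_max_right _ _)))
      obtain ⟨s, hs, h3⟩ := mem_fimp.1 (h1.2.1 q r hrq) (g m) le_rfl h2
      exact hl s (hs.trans (hg ((le_max_right _ _).trans (le_max_right _ _)))) h3
  have hmax : ∀ q : ℚ, (∃ k, g k ∈ meets (x q)) → ∃ r : ℚ, q < r ∧ ∃ k, g k ∈ meets (x r) := by
    rintro q ⟨k, hk⟩
    obtain ⟨l, hl | ⟨r, hr, hl⟩⟩ := hD _ (Or.inl (Or.inr ⟨q, rfl⟩))
    · exact (not_both hg hk hl).elim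
    · exact ⟨r, hr, l, hl⟩
  obtain ⟨k1, q1, hq1⟩ := hD _ (Or.inr (Or.inl rfl))
  obtain ⟨k2, q2, hq2⟩ := hD _ (Or.inr (Or.inr rfl))
  have hne : A.Nonempty := ⟨q1, q1, ⟨k1, hq1⟩, rfl⟩
  have hub : ∀ q : ℚ, (∃ k, g k ∈ fnot (meets (x q))) → ∀ y ∈ A, y ≤ q := by
    rintro q ⟨k, hk⟩ y ⟨r, hr, rfl⟩
    by_contra hlt
    have hlt' : q < r := by exact_mod_cast not_le.1 hlt
    obtain ⟨l, hl⟩ := hdown r q hlt' hr
    exact not_both hg hl hk
  have hbdd : BddAbove A := ⟨q2, fun y hy => hub q2 ⟨k2, hq2⟩ y hy⟩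
  refine ⟨sSup A, ?_, ?_⟩
  · intro q
    constructor
    · intro h
      obtain ⟨r, hr, h'⟩ := hmax q h
      have h1 : (r : ℝ) ≤ sSup A := le_csSup hbdd ⟨r, h', rfl⟩
      have h2 : (q : ℝ) < r := by exact_mod_cast hr
      linarith
    · intro h
      obtain ⟨y, ⟨r, hr, rfl⟩, h1⟩ := exists_lt_of_lt_csSup hne h
      exact hdown r q (by exact_mod_cast h1) hr
  · intro q
    constructor
    · intro h
      exact csSup_le hne (hub q h)
    · intro h
      rcases hdec q with h1 | h1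
      · exfalso
        obtain ⟨r, hr, h'⟩ := hmax q h1
        have h1 : (r : ℝ) ≤ sSup A := le_csSup hbdd ⟨r, h', rfl⟩
        have h2 : (q : ℝ) < r := by exact_mod_cast hr
        linarith
      · exact h1

theorem Ev.lt {g : ℕ → P} {x : ℚ → Set P} {ρ : ℝ} (h : Ev g x ρ) {q : ℚ} {k : ℕ}
    (hk : g k ∈ meets (x q)) : (q : ℝ) < ρ := (h.1 q).1 ⟨k, hk⟩

theorem Ev.le {g : ℕ → P} {x : ℚ → Set P} {ρ : ℝ} (h : Ev g x ρ) {q : ℚ} {k : ℕ}
    (hk : g k ∈ fnot (meets (x q))) : ρ ≤ q := (h.2 q).1 ⟨k, hk⟩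

/-- sums are evaluated correctly -/
theorem ev_sum {g : ℕ → P} (hg : Antitone g) {x y z : ℚ → Set P} {ρ σ τ : ℝ} (hx : Ev g x ρ)
    (hy : Ev g y σ) (hz : Ev g z τ) {k0 : ℕ} (hxr : g k0 ∈ IsReal x) (hyr : g k0 ∈ IsReal y)
    (hs : g k0 ∈ IsSum x y z) : τ = ρ + σ := by
  apply le_antisymm
  · by_contra hlt
    push Not at hlt
    obtain ⟨q, hq1, hq2⟩ := exists_rat_btwn hlt
    -- split `q` above
    obtain ⟨a, ha1, ha2⟩ := exists_rat_btwn (show ρ < q - σ by linarith)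
    obtain ⟨k1, hk1⟩ := (hz.1 q).2 hq2
    obtain ⟨k2, hk2⟩ := (hx.2 a).2 ha1.le
    obtain ⟨k3, hk3⟩ := (hy.2 (q - a)).2 (by push_cast; linarith)
    set m := max k0 (max k1 (max k2 k3)) with hm
    have hm0 : g m ≤ g k0 := hg (le_max_left _ _)
    have hm1 : g m ≤ g k1 := hg ((le_max_left _ _).trans (le_max_right _ _))
    have hm2 : g m ≤ g k2 := hg ((le_max_left _ _).trans ((le_max_right _ _).trans
      (le_max_right _ _)))
    have hm3 : g m ≤ g k3 := hg ((le_max_right _ _).trans ((le_max_right _ _).trans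
      (le_max_right _ _)))
    obtain ⟨r, hr, h1⟩ := mem_fimp.1 (hs q).1 (g m) hm0 (down_meets _ _ hk1 _ hm1)
    obtain ⟨s, hs1, b, h2⟩ := mem_fex.1 h1 r le_rfl
    obtain ⟨t, ht, c, h3, h4, h5⟩ := mem_fex.1 h2 s le_rfl
    have h3' : q = b + c := h3
    have htm : t ≤ g m := ht.trans (hs1.trans hr)
    by_cases hab : a ≤ b
    · rcases eq_or_lt_of_le hab with rfl | hab
      · exact hk2 t (htm.trans hm2) h4
      · obtain ⟨u, hu, h6⟩ := mem_fimp.1 (hxr.2.1 b a hab) t (htm.trans hm0) h4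
        exact hk2 u (hu.trans (htm.trans hm2)) h6
    · have hlt' : q - a < c := by
        rw [h3']
        linarith
      obtain ⟨u, hu, h6⟩ := mem_fimp.1 (hyr.2.1 c (q - a) hlt') t (htm.trans hm0) h5
      exact hk3 u (hu.trans (htm.trans hm3)) h6
  · by_contra hlt
    push Not at hlt
    obtain ⟨q, hq1, hq2⟩ := exists_rat_btwn hlt
    obtain ⟨a, ha1, ha2⟩ := exists_rat_btwn (show q - σ < ρ by linarith)
    obtain ⟨k1, hk1⟩ := (hz.2 q).2 hq1.le
    obtain ⟨k2, hk2⟩ := (hx.1 a).2 ha2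
    obtain ⟨k3, hk3⟩ := (hy.1 (q - a)).2 (by push_cast; linarith)
    set m := max k0 (max k1 (max k2 k3)) with hm
    have hm0 : g m ≤ g k0 := hg (le_max_left _ _)
    have hm1 : g m ≤ g k1 := hg ((le_max_left _ _).trans (le_max_right _ _))
    have hm2 : g m ≤ g k2 := hg ((le_max_left _ _).trans ((le_max_right _ _).trans
      (le_max_right _ _)))
    have hm3 : g m ≤ g k3 := hg ((le_max_right _ _).trans ((le_max_right _ _).trans
      (le_max_right _ _)))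
    have h1 : g m ∈ InSumCut x y q := by
      refine mem_fex_of_mem a (down_fex _) (mem_fex_of_mem (q - a) ?_ ⟨?_, ?_, ?_⟩)
      · exact down_fand (down_fground _) (down_fand (down_meets _) (down_meets _))
      · show q = a + (q - a)
        ring
      · exact down_meets _ _ hk2 _ hm2
      · exact down_meets _ _ hk3 _ hm3
    obtain ⟨r, hr, h2⟩ := mem_fimp.1 (hs q).2 (g m) hm0 h1
    exact hk1 r (hr.trans hm1) h2

end Pool.Agent.K4H97.SG
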