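import Pool.Agent.K4H97.SG.Parts
import Pool.Agent.K4H97.SG.Eval
import Pool.Agent.K4H97.SG.Card

/-!
# The names of the pieces
-/

set_option autoImplicit false
set_option linter.unusedSectionVars false

namespace Pool.Agent.K4H97.SG

open Set Pre Pool.Agent.Helper669.Forcing Pool.Agent.W684.FM

variable {I Λ : Type} [LinearOrder I] [LinearOrder Λ] [WellFoundedLT Λ] {nm : Names I Λ}

theorem exists_en {Λ : Type} (σ : Λ →₀ SignType) :
    ∃ e : ℕ → (σ.support → List (ℚ × ℕ)) × ℕ, Function.Surjective e := exists_surjective_nat _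

/-- an enumeration of the parameters of the compact pieces -/
noncomputable def en {Λ : Type} (σ : Λ →₀ SignType) : ℕ → (σ.support → List (ℚ × ℕ)) × ℕ :=
  (exists_en σ).choose

theorem en_surj {Λ : Type} (σ : Λ →₀ SignType) : Function.Surjective (en σ) :=
  (exists_en σ).choose_spec

/-- the approximation given by `p` of the compact set number `n` -/
def KC (p : Pre I Λ) (σ : Λ →₀ SignType) (n : ℕ) : Set ℝ := KS p.C σ (en σ n).1 (en σ n).2

theorem KC_mono {q p : Pre I Λ} (h : Le q p) (σ : Λ →₀ SignType) (n : ℕ) :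
    KC q σ n ⊆ KC p σ n := KS_mono (C_mono h) _ _ _

theorem isCompact_KC (p : Pre I Λ) (σ : Λ →₀ SignType) (n : ℕ) : IsCompact (KC p σ n) :=
  isCompact_KS (fun b => isClosed_C p b) _ _ _

/-- the name of the code of the piece with the signature `σ` -/
def KN (nm : Names I Λ) (σ : Λ →₀ SignType) (n : ℕ) (a b : ℚ) : Set (Cond nm) :=
  {s | ∀ z ∈ KC s.1 σ n, ¬ ((a : ℝ) < z ∧ z < b)}

theorem down_KN (σ : Λ →₀ SignType) (n : ℕ) (a b : ℚ) : Down (KN nm σ n a b) :=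
  fun _ hs _ hr z hz => hs z (KC_mono hr σ n hz)

/-- the real named by `x` is in the compact set number `n` -/
def InC (x : ℚ → Set (Cond nm)) (σ : Λ →₀ SignType) (n : ℕ) : Set (Cond nm) :=
  fall fun a => fall fun b => fimp (Between x a b) (fnot (meets (KN nm σ n a b)))

theorem down_InC (x : ℚ → Set (Cond nm)) (σ : Λ →₀ SignType) (n : ℕ) : Down (InC x σ n) :=
  down_fall fun _ => down_fall fun _ => down_fimp _ _

theorem InFsigma_eq (x : ℚ → Set (Cond nm)) (σ : Λ →₀ SignType) :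
    InFsigma x (KN nm σ) = fex fun n => InC x σ n := rfl

theorem ev_mem {g : ℕ → Cond nm} (hg : Antitone g) {x : ℚ → Set (Cond nm)} {ρ : ℝ}
    (hx : Ev g x ρ) {σ : Λ →₀ SignType} {n k0 : ℕ} (h : g k0 ∈ InC x σ n) :
    ρ ∈ KS (LimC g) σ (en σ n).1 (en σ n).2 := by
  apply KS_iInter (B := fun k => (g k).1.C) (fun k b => isClosed_C _ _)
    (fun b k l hkl => C_mono (hg hkl) b)
  intro k
  by_contra hcon
  have hcl := (isCompact_KC (g k).1 σ n).isClosed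
  obtain ⟨ε, hε, hball⟩ := Metric.isOpen_iff.1 hcl.isOpen_compl ρ hcon
  obtain ⟨a, ha1, ha2⟩ := exists_rat_btwn (show ρ - ε < ρ by linarith)
  obtain ⟨b, hb1, hb2⟩ := exists_rat_btwn (show ρ < ρ + ε by linarith)
  obtain ⟨c, hc1, hc2⟩ := exists_rat_btwn hb1
  obtain ⟨k1, hk1⟩ := (hx.1 a).2 ha2
  obtain ⟨k2, hk2⟩ := (hx.2 c).2 hc1.le
  set m := max (max k0 k) (max k1 k2) with hm
  have e0 : g m ≤ g k0 := hg ((le_max_left _ _).trans (le_max_left _ _))
  have e : g m ≤ g k := hg ((le_max_right _ _).trans (le_max_left _ _))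
  have e1 : g m ≤ g k1 := hg ((le_max_left _ _).trans (le_max_right _ _))
  have e2 : g m ≤ g k2 := hg ((le_max_right _ _).trans (le_max_right _ _))
  have hK : g m ∈ KN nm σ n a b := by
    rintro z hz ⟨h1, h2⟩
    have h3 := KC_mono e σ n hz
    refine hball ?_ h3
    rw [Metric.mem_ball, Real.dist_eq, abs_lt]
    constructor <;> linarith
  have hB : g m ∈ Between x a b := by
    refine ⟨down_meets _ _ hk1 _ e1, mem_fex_of_mem c ?_ ⟨?_, down_fnot _ _ hk2 _ e2⟩⟩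
    · exact down_fand (down_fground _) (down_fnot _)
    · show c < b
      exact_mod_cast hc2
  obtain ⟨r, hr, h1⟩ := mem_fimp.1 (h a b) (g m) e0 hB
  exact h1 r le_rfl (meets_of_mem (down_KN σ n a b _ hK r hr))

theorem inC_of {z : ℚ → Set (Cond nm)} {p : Cond nm} (hz : p ∈ IsReal z) {σ : Λ →₀ SignType}
    {n : ℕ} (𝒟 : Set (Set (Cond nm))) (h𝒟 : 𝒟.Countable)
    (hD : ∀ D ∈ 𝒟, ∀ q ≤ p, ∃ r ≤ q, r ∈ D)
    (h : ∀ g : ℕ → Cond nm, Antitone g → g 0 ≤ p → (∀ D ∈ 𝒟, ∃ k, g k ∈ D) →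
      ∀ τ, Ev g z τ → τ ∈ KC (g 0).1 σ n) : p ∈ InC z σ n := by
  intro a b
  rw [mem_fimp]
  intro s hs hbt
  refine ⟨s, le_rfl, ?_⟩
  intro t ht hm
  obtain ⟨u, hu, hK⟩ := exists_of_meets (down_KN σ n a b) hm
  obtain ⟨w, hw, c, hc1, hc2⟩ := mem_fex.1 hbt.2 u (hu.trans ht)
  have hws : w ≤ s := hw.trans (hu.trans ht)
  have hwp : w ≤ p := hws.trans hs
  obtain ⟨g, hg0, hg, hgD⟩ := exists_seq w (𝒟 ∪ RD z) (h𝒟.union (countable_RD z)) (by
    rintro D (h1 | h1) q hq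
    · exact hD D h1 q (hq.trans hwp)
    · exact dense_RD hz D h1 q (hq.trans hwp))
  obtain ⟨τ, hτ⟩ := exists_ev hg (k0 := 0) (x := z) (by
    rw [hg0]
    exact down_IsReal z _ hz _ hwp) (fun D hD => hgD D (Or.inr hD))
  have h1 := h g hg (by rw [hg0]; exact hwp) (fun D hD => hgD D (Or.inl hD)) τ hτ
  rw [hg0] at h1
  refine down_KN σ n a b _ hK w hw τ h1 ⟨?_, ?_⟩
  · refine hτ.lt (k := 0) ?_
    rw [hg0]
    exact down_meets _ _ hbt.1 _ hws
  · refine lt_of_le_of_lt (hτ.le (k := 0) (q := c) ?_) (by exact_mod_cast hc1)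
    rw [hg0]
    exact hc2

theorem addClosed (σ : Λ →₀ SignType) (p : Cond nm) : p ∈ AddClosedN (KN nm σ) := by
  intro x y z
  rw [mem_fimp]
  rintro q hq ⟨⟨hx, hy, hz, hsum⟩, hKx, hKy⟩
  obtain ⟨q1, hq1, n, hn⟩ := mem_fex.1 hKx q le_rfl
  obtain ⟨q2, hq2, n', hn'⟩ := mem_fex.1 hKy q1 hq1
  obtain ⟨m, hm⟩ := en_surj σ (fun α => (en σ n).1 α ++ (en σ n').1 α, (en σ n).2)
  have hq2q : q2 ≤ q := hq2.trans hq1
  refine ⟨q2, hq2q, mem_fex_of_mem m (down_InC z σ m) ?_⟩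
  apply inC_of (down_IsReal z _ hz _ hq2q) (RD x ∪ RD y)
    ((countable_RD x).union (countable_RD y))
  · rintro D (h1 | h1) r hr
    · exact dense_RD (down_IsReal x _ hx _ hq2q) D h1 r hr
    · exact dense_RD (down_IsReal y _ hy _ hq2q) D h1 r hr
  · intro g hg hg0 hgD τ hτ
    have hgq : g 0 ≤ q := hg0.trans hq2q
    have hxr : g 0 ∈ IsReal x := down_IsReal x _ hx _ hgq
    have hyr : g 0 ∈ IsReal y := down_IsReal y _ hy _ hgq
    have hs : g 0 ∈ IsSum x y z := by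
      refine down_fall (fun _ => down_fand (down_fimp _ _) (down_fimp _ _)) _ hsum _ hgq
    obtain ⟨ρ, hρ⟩ := exists_ev hg hxr fun D hD => hgD D (Or.inl hD)
    obtain ⟨ρ', hρ'⟩ := exists_ev hg hyr fun D hD => hgD D (Or.inr hD)
    have h1 := ev_mem hg hρ (down_InC x σ n _ hn _ (hg0.trans hq2))
    have h2 := ev_mem hg hρ' (down_InC y σ n' _ hn' _ hg0)
    have h3 := KS_add h1 h2
    rw [ev_sum hg hρ hρ' hτ hxr hyr hs]
    unfold KC
    rw [hm]
    exact KS_mono (fun b => iInter_subset _ 0) _ _ _ h3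

/-! ### Nonempty -/

theorem C_nonempty (p : Cond nm) (b : Λ × ℕ) : (p.1.C b).Nonempty := by
  obtain ⟨t, ht⟩ := p.2.2.1.2 b.1 b.2
  obtain ⟨x, hx⟩ := exists_ini t
  exact ⟨x, fun u hu => ht u hu x hx⟩

theorem mdl_single (hΛ : ∀ S : Set Λ, S.Countable → ∃ ξ, ∀ η ∈ S, η < ξ) (α : Λ) (p : Cond nm) :
    ∃ q ≤ p, ∃ N : ℕ, ∀ c ∈ q.1.C (α, 0), 1 / ((N : ℝ) + 1) ≤ v c := by
  obtain ⟨ξ, hξ⟩ := hΛ {α} (countable_singleton α)
  obtain ⟨q, hq, hqp, h0⟩ := mdl (nm := nm) ξ [((1 : ℚ), (((α, 0) : Λ × ℕ), ([] : Str)))] (by simp)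
    ⟨by simp, by simp⟩ (by simpa using hξ) p.1 p.2
  refine ⟨⟨q, hq⟩, hqp, ?_⟩
  have hpos : ∀ c ∈ q.C (α, 0), 0 < v c := by
    intro c hc
    rcases (Real.ofDigits_nonneg c).lt_or_eq with h | h
    · exact h
    · exfalso
      apply h0
      refine ⟨c, ⟨hc, ini_nil _⟩, 0, rfl, ?_⟩
      have : v c = 0 := h.symm
      rw [this]
      simp
  have hcpt : IsCompact (q.C (α, 0)) := (isClosed_C q (α, 0)).isCompact
  obtain ⟨c, hc, hmin⟩ := hcpt.exists_isMinOn (C_nonempty ⟨q, hq⟩ (α, 0)) continuous_v.continuousOn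
  obtain ⟨N, hN⟩ := exists_nat_one_div_lt (hpos c hc)
  exact ⟨N, fun c' hc' => hN.le.trans (hmin hc')⟩

theorem mdl_many (hΛ : ∀ S : Set Λ, S.Countable → ∃ ξ, ∀ η ∈ S, η < ξ) (S : Finset Λ)
    (p : Cond nm) : ∃ q ≤ p, ∃ N : ℕ, ∀ α ∈ S, ∀ c ∈ q.1.C (α, 0), 1 / ((N : ℝ) + 1) ≤ v c := by
  classical
  induction S using Finset.induction_on with
  | empty => exact ⟨p, le_rfl, 0, by simp⟩
  | insert a S ha ih =>
    obtain ⟨q, hq, N, hN⟩ := ih
    obtain ⟨r, hr, M, hM⟩ := mdl_single hΛ a q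
    refine ⟨r, hr.trans hq, max N M, fun α hα c hc => ?_⟩
    rcases Finset.mem_insert.1 hα with rfl | h
    · refine le_trans ?_ (hM c hc)
      apply one_div_le_one_div_of_le (by positivity)
      push_cast
      linarith [le_max_right (N : ℝ) (M : ℝ)]
    · refine le_trans ?_ (hN α h c (C_mono hr _ hc))
      apply one_div_le_one_div_of_le (by positivity)
      push_cast
      linarith [le_max_left (N : ℝ) (M : ℝ)]

/-- the least element of a piece -/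
def minN (nm : Names I Λ) (σ : Λ →₀ SignType) (n : ℕ) (q : ℚ) : Set (Cond nm) :=
  {s | ∀ z ∈ KC s.1 σ n, (q : ℝ) < z}

theorem down_minN (σ : Λ →₀ SignType) (n : ℕ) (q : ℚ) : Down (minN nm σ n q) :=
  fun _ hs _ hr z hz => hs z (KC_mono hr σ n hz)

theorem isReal_minN {σ : Λ →₀ SignType} {n : ℕ} {s0 : Cond nm}
    (h : ∀ s ≤ s0, (KC s.1 σ n).Nonempty) : s0 ∈ IsReal (minN nm σ n) := by
  refine ⟨⟨?_, ?_⟩, ?_, ?_⟩
  · rw [mem_fex]
    intro s hs
    obtain ⟨z, hz, hmin⟩ := (isCompact_KC s.1 σ n).exists_isMinOn (h s hs) continuousOn_id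
    obtain ⟨a, ha⟩ := exists_rat_lt z
    exact ⟨s, le_rfl, a, meets_of_mem fun w hw => lt_of_lt_of_le ha (hmin hw)⟩
  · rw [mem_fex]
    intro s hs
    obtain ⟨z, hz, hmax⟩ := (isCompact_KC s.1 σ n).exists_isMaxOn (h s hs) continuousOn_id
    obtain ⟨a, ha⟩ := exists_rat_gt z
    refine ⟨s, le_rfl, a, ?_⟩
    intro t ht hm
    obtain ⟨u, hu, hK⟩ := exists_of_meets (down_minN σ n a) hm
    obtain ⟨w, hw⟩ := h u (hu.trans (ht.trans hs))
    have h1 := hK w hw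
    have h2 : w ≤ z := hmax (KC_mono (hu.trans ht) σ n hw)
    linarith
  · intro a b hab
    rw [mem_fimp]
    intro s hs hm
    refine ⟨s, le_rfl, fun t ht => ?_⟩
    obtain ⟨u, hu, hK⟩ := exists_of_meets (down_minN σ n a) (down_meets _ _ hm t ht)
    refine ⟨u, hu, u, ?_, le_rfl⟩
    intro w hw
    have h1 := hK w hw
    have h2 : (b : ℝ) < a := by exact_mod_cast hab
    linarith
  · intro a
    rw [mem_fimp]
    intro s hs hm
    obtain ⟨u, hu, hK⟩ := exists_of_meets (down_minN σ n a) hm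
    obtain ⟨z, hz, hmin⟩ := (isCompact_KC u.1 σ n).exists_isMinOn (h u (hu.trans hs))
      continuousOn_id
    obtain ⟨b, hb1, hb2⟩ := exists_rat_btwn (hK z hz)
    refine ⟨u, hu, mem_fex_of_mem b (down_fand (down_fground _) (down_meets _)) ⟨?_, ?_⟩⟩
    · show a < b
      exact_mod_cast hb1
    · exact meets_of_mem fun w hw => lt_of_lt_of_le hb2 (hmin hw)

theorem cast_sign (s : SignType) : (((s : SignType) : ℚ) : ℝ) = ((s : SignType) : ℝ) := by
  rcases s with _ | _ | _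
  · show (((0 : ℚ)) : ℝ) = (0 : ℝ)
    norm_num
  · show (((-1 : ℚ)) : ℝ) = (-1 : ℝ)
    norm_num
  · show (((1 : ℚ)) : ℝ) = (1 : ℝ)
    norm_num

theorem nonemptyN (hΛ : ∀ S : Set Λ, S.Countable → ∃ ξ, ∀ η ∈ S, η < ξ) (σ : Λ →₀ SignType)
    (p : Cond nm) : p ∈ NonemptyN (KN nm σ) := by
  unfold NonemptyN
  rw [mem_fex]
  intro q _
  obtain ⟨s0, hs0, N, hN⟩ := mdl_many hΛ σ.support q
  obtain ⟨n, hn⟩ := en_surj σ (fun α => [(((σ α.1 : SignType) : ℚ), 0)], N)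
  have hne : ∀ s ≤ s0, (KC s.1 σ n).Nonempty := by
    intro s hs
    choose c hc using fun α : σ.support => C_nonempty s (α.1, 0)
    refine ⟨∑ α : σ.support, ((σ α.1 : SignType) : ℝ) * v (c α), ?_⟩
    unfold KC
    rw [hn]
    refine ⟨fun α => ((σ α.1 : SignType) : ℝ) * v (c α), fun α => ⟨?_, ?_⟩, rfl⟩
    · refine ⟨c α, hc α, 0, rfl, ?_⟩
      simp only [cast_sign, add_zero]
    · have h1 := hN α.1 α.2 (c α) (C_mono hs _ (hc α))
      have h2 : ((σ α.1 : SignType) : ℝ) * (((σ α.1 : SignType) : ℝ) * v (c α)) = v (c α) := by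
        have h3 : σ α.1 ≠ 0 := Finsupp.mem_support_iff.1 α.2
        rw [← mul_assoc]
        rcases hσ : σ α.1 with _ | _ | _
        · exact absurd hσ h3
        · have : ((SignType.neg : SignType) : ℝ) = -1 := rfl
          rw [this]
          ring
        · have : ((SignType.pos : SignType) : ℝ) = 1 := rfl
          rw [this]
          ring
      rw [h2]
      exact h1
  refine ⟨s0, hs0, minN nm σ n, isReal_minN hne, ?_⟩
  rw [InFsigma_eq]
  refine mem_fex_of_mem n (down_InC _ _ _) ?_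
  intro a b
  rw [mem_fimp]
  intro s hs hbt
  refine ⟨s, le_rfl, ?_⟩
  intro t ht hm
  obtain ⟨u, hu, hK⟩ := exists_of_meets (down_KN σ n a b) hm
  obtain ⟨w, hw, hwa⟩ := exists_of_meets (down_minN σ n a)
    (down_meets _ _ hbt.1 u (hu.trans ht))
  obtain ⟨w', hw', c, hc1, hc2⟩ := mem_fex.1 hbt.2 w (hw.trans (hu.trans ht))
  have h1 : w' ∉ minN nm σ n c := fun h => hc2 w' le_rfl (meets_of_mem h)
  simp only [minN, mem_ofPred_eq, not_forall, not_lt] at h1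
  obtain ⟨z, hz, hzc⟩ := h1
  refine hK z (KC_mono (hw'.trans hw) σ n hz) ⟨hwa z (KC_mono hw' σ n hz), ?_⟩
  have : (c : ℝ) < b := by exact_mod_cast hc1
  linarith

/-! ### Disjoint -/

theorem disjointN (hΛ : ∀ S : Set Λ, S.Countable → ∃ ξ, ∀ η ∈ S, η < ξ) {σ σ' : Λ →₀ SignType}
    (hne : σ ≠ σ') (p : Cond nm) : p ∈ DisjointN (KN nm σ) (KN nm σ') := by
  classical
  intro x
  rw [mem_fimp]
  intro q hq hx
  refine ⟨q, le_rfl, ?_⟩
  rintro s hs ⟨h1, h2⟩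
  obtain ⟨t, ht, n, hn⟩ := mem_fex.1 h1 s le_rfl
  obtain ⟨u, hu, n', hn'⟩ := mem_fex.1 h2 t ht
  have huq : u ≤ q := hu.trans (ht.trans hs)
  have hxu : u ∈ IsReal x := down_IsReal x _ hx _ huq
  set S : Set Λ := ↑(σ.support ∪ σ'.support) with hS
  obtain ⟨ξ, hξ⟩ := hΛ S (Finset.countable_toSet _)
  let 𝒜 : Set ((Λ × ℕ) × Str) := {b | b.1.1 ∈ S}
  have h𝒜 : 𝒜.Countable := by
    refine (((Finset.countable_toSet (σ.support ∪ σ'.support)).prod
      (countable_univ (α := ℕ))).prod (countable_univ (α := Str))).mono ?_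
    rintro ⟨⟨a, m⟩, t⟩ h
    exact ⟨⟨h, trivial⟩, trivial⟩
  obtain ⟨g, hg0, hg, hgD⟩ := exists_seq u (RD x ∪ (fun L : List (ℚ × ((Λ × ℕ) × Str)) =>
    {s : Cond nm | L ≠ [] → Good L → (0 : ℝ) ∉ Sm (BC s.1.C) L}) ''
      {L | ∀ x ∈ L, x.2 ∈ 𝒜}) ((countable_RD x).union ((countable_lists h𝒜).image _)) (by
    rintro D (h | ⟨L, hL, rfl⟩) r hr
    · exact dense_RD hxu D h r hr
    · by_cases hg : L ≠ [] ∧ Good L
      · obtain ⟨r', hr', h3, h4⟩ := mdl (nm := nm) ξ L hg.1 hg.2 (fun x hx => hξ _ (hL x hx))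
          r.1 r.2
        exact ⟨⟨r', hr'⟩, h3, fun _ _ => h4⟩
      · exact ⟨r, le_rfl, fun h5 h6 => absurd ⟨h5, h6⟩ hg⟩)
  obtain ⟨ρ, hρ⟩ := exists_ev hg (k0 := 0) (x := x) (by rw [hg0]; exact hxu)
    (fun D hD => hgD D (Or.inl hD))
  have e1 := ev_mem hg hρ (k0 := 0) (by rw [hg0]; exact down_InC x σ n _ hn _ hu)
  have e2 := ev_mem hg hρ (k0 := 0) (by rw [hg0]; exact hn')
  have hind : Indep (LimC g) {b : Λ × ℕ | b.1 ∈ S} := by
    apply indep_of_lists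
    intro L hL hgood hLS h0
    obtain ⟨k, hk⟩ := hgD _ (Or.inr ⟨L, fun x hx => hLS x hx, rfl⟩)
    refine hk hL hgood (Sm_mono (fun x _ => ?_) h0)
    exact inter_subset_inter_left _ (iInter_subset _ k)
  refine hne (KS_disjoint hind ?_ ?_ e1 e2)
  · intro α hα m
    show α ∈ S
    rw [hS, Finset.mem_coe]
    exact Finset.mem_union_left _ hα
  · intro α hα m
    show α ∈ S
    rw [hS, Finset.mem_coe]
    exact Finset.mem_union_right _ hα

end Pool.Agent.K4H97.SG
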