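import Pool.Agent.K4H97.SG.Base

/-!
# Generic sequences, and the independence of the generic sets
-/

set_option autoImplicit false
set_option linter.unusedSectionVars false

namespace Pool.Agent.K4H97.SG

open Set Pre

/-- a descending sequence which meets countably many dense sets -/
theorem exists_seq {P : Type*} [Preorder P] (p : P) (𝒟 : Set (Set P)) (h𝒟 : 𝒟.Countable)
    (hD : ∀ D ∈ 𝒟, ∀ q ≤ p, ∃ r ≤ q, r ∈ D) :
    ∃ g : ℕ → P, g 0 = p ∧ Antitone g ∧ ∀ D ∈ 𝒟, ∃ k, g k ∈ D := by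
  classical
  rcases 𝒟.eq_empty_or_nonempty with h0 | h0
  · exact ⟨fun _ => p, rfl, antitone_const, by simp [h0]⟩
  obtain ⟨D, hDr⟩ := h𝒟.exists_eq_range h0
  have hD' : ∀ k, ∀ q ≤ p, ∃ r ≤ q, r ∈ D k := fun k => hD _ (hDr ▸ mem_range_self k)
  choose! st hst1 hst2 using hD'
  let g : ℕ → P := fun n => Nat.rec p (fun k q => st k q) n
  have hg0 : g 0 = p := rfl
  have hgs : ∀ k, g (k + 1) = st k (g k) := fun _ => rfl
  have hgp : ∀ k, g k ≤ p := by
    intro k
    induction k with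
    | zero => exact le_rfl
    | succ k ih => rw [hgs]; exact (hst1 k _ ih).trans ih
  refine ⟨g, hg0, antitone_nat_of_succ_le fun k => ?_, ?_⟩
  · rw [hgs]
    exact hst1 k _ (hgp k)
  · intro D' hD'
    rw [hDr] at hD'
    obtain ⟨k, rfl⟩ := hD'
    exact ⟨k + 1, by rw [hgs]; exact hst2 k _ (hgp k)⟩

variable {I Λ : Type} [LinearOrder I] [LinearOrder Λ] [WellFoundedLT Λ] {nm : Names I Λ}

/-- descending sequences of preconditions -/
def Desc (g : ℕ → Pre I Λ) : Prop := ∀ k l, k ≤ l → Le (g l) (g k)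

open Classical in
/-- the point named by `nm i` -/
noncomputable def val (nm : Names I Λ) (g : ℕ → Pre I Λ) (i : I) : Pt :=
  fun k => if ∃ m, Pos (nm i k) (g m) then 1 else 0

theorem val_mem {g : ℕ → Pre I Λ} (hg : Desc g) (hv : ∀ m, Valid nm (g m)) (i : I) (m : ℕ) :
    val nm g i ∈ apv nm (g m) (Sum.inl i) := by
  intro k
  constructor
  · intro h
    exact if_pos ⟨m, h⟩
  · intro h
    apply if_neg
    rintro ⟨m', a, ha, hle⟩
    exact h (g (max m m')) (hv _) (hg _ _ (le_max_left _ _)) a ha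
      ((hg _ _ (le_max_right _ _)).trans hle)

theorem apv_subset_tk {g : ℕ → Pre I Λ} (hg : Desc g) (hv : ∀ m, Valid nm (g m)) (i : I)
    (hd : ∀ k, ∃ m, Pos (nm i k) (g m) ∨ Neg (Valid nm) (nm i k) (g m)) (K : ℕ) :
    ∃ M, ∀ x ∈ apv nm (g M) (Sum.inl i), Ini (tk (val nm g i) K) x := by
  choose m hm using hd
  refine ⟨(Finset.range K).sup m, fun x hx => ?_⟩
  rw [ini_tk]
  intro k hk
  set M := (Finset.range K).sup m with hM
  have h1 : m k ≤ M := Finset.le_sup (Finset.mem_range.2 hk)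
  have h2 := val_mem hg hv i M
  rcases hm k with h | h
  · rw [(hx k).1 (h.mono (hg _ _ h1)), (h2 k).1 (h.mono (hg _ _ h1))]
  · rw [(hx k).2 (h.mono (hg _ _ h1)), (h2 k).2 (h.mono (hg _ _ h1))]

/-- the conditions below a stage -/
abbrev PB (nm : Names I Λ) (η : Λ) : Type := {q : Pre I Λ // VB nm η q}

instance (η : Λ) : Preorder (PB nm η) where
  le q p := Le q.1 p.1
  le_refl p := Le.refl p.1
  le_trans _ _ _ h1 h2 := h1.trans h2

theorem dense_decide {η : Λ} {i : I} (hi : Low nm η i) (k : ℕ) (q : PB nm η) :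
    ∃ s ≤ q, Pos (nm i k) s.1 ∨ Neg (Valid nm) (nm i k) s.1 := by
  by_cases h : ∃ r, Valid nm r ∧ Le r q.1 ∧ ∃ a ∈ nm i k, Le r a
  · obtain ⟨r, hr, h1, a, ha, h2⟩ := h
    refine ⟨⟨r.restrict (Iio η), valid_restrict hr η⟩, restrict_le_of_sup h1 q.2.2, Or.inl ?_⟩
    exact ⟨a, ha, restrict_le_of_sup h2 (hi k a ha)⟩
  · refine ⟨q, le_rfl, Or.inr fun r hr hrq a ha hra => h ⟨r, hr, hrq, a, ha, hra⟩⟩

theorem BC_restrict {q : Pre I Λ} {η : Λ} {b : (Λ × ℕ) × Str} (hb : b.1.1 < η) :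
    BC (q.restrict (Iio η)).C b = BC q.C b := by
  unfold BC
  congr 1
  ext x
  exact ⟨fun h u hu => h u ⟨hu, hb⟩, fun h u hu => h u hu.1⟩

theorem ini_tk_iff {u : Str} {y x : Pt} {N : ℕ} (hN : u.length ≤ N) (hx : Ini (tk y N) x) :
    Ini u x ↔ Ini u y := by
  rw [ini_tk] at hx
  constructor
  · intro h k hk
    rw [← hx k (by omega)]
    exact h k hk
  · intro h k hk
    rw [hx k (by omega)]
    exact h k hk

theorem eq_tk_of_ini {u : Str} {x : Pt} (h : Ini u x) : u = tk x u.length := by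
  apply List.ext_getElem (by simp)
  intro k h1 h2
  rw [getElem_tk]
  exact (h k h1).symm

/-- **Independence.** -/
theorem mdl (ξ : Λ) : ∀ L : List (ℚ × ((Λ × ℕ) × Str)), L ≠ [] → Good L →
    (∀ x ∈ L, x.2.1.1 < ξ) → ∀ p, Valid nm p → ∃ q, Valid nm q ∧ Le q p ∧
      (0 : ℝ) ∉ Sm (BC q.C) L := by
  classical
  induction ξ using WellFoundedLT.induction with
  | ind ξ IH =>
  intro L hne hG hlt p hp
  -- the largest stage
  obtain ⟨η, hη1, hη2⟩ : ∃ η, (∃ x ∈ L, x.2.1.1 = η) ∧ ∀ x ∈ L, x.2.1.1 ≤ η := by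
    have h1 : (L.toFinset.image fun x => x.2.1.1).Nonempty := by
      rw [Finset.image_nonempty]
      exact List.toFinset_nonempty_iff _ |>.2 hne
    refine ⟨(L.toFinset.image fun x => x.2.1.1).max' h1, ?_, fun x hx =>
      Finset.le_max' (L.toFinset.image fun x => x.2.1.1) x.2.1.1
        (Finset.mem_image_of_mem (fun x => x.2.1.1) (List.mem_toFinset.2 hx))⟩
    have h2 := Finset.max'_mem _ h1
    simp only [Finset.mem_image, List.mem_toFinset] at h2
    exact h2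
  have hηξ : η < ξ := by
    obtain ⟨x, hx, rfl⟩ := hη1
    exact hlt x hx
  have IHη := IH η hηξ
  set p0 : PB nm η := ⟨p.restrict (Iio η), valid_restrict hp η⟩ with hp0
  -- the indices promised at the stage
  have hEfin : {i | ∃ n, (η, n, i) ∈ p.E}.Finite := by
    refine (hp.1.2.2.image fun x => x.2.2).subset ?_
    rintro i ⟨n, h⟩
    exact ⟨_, h, rfl⟩
  set EI : Finset I := hEfin.toFinset with hEI
  have memEI : ∀ i, i ∈ EI ↔ ∃ n, (η, n, i) ∈ p.E := by
    intro i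
    rw [hEI, Set.Finite.mem_toFinset]
    rfl
  have hlow : ∀ i ∈ EI, Low nm η i := by
    intro i hi
    obtain ⟨n, hn⟩ := (memEI i).1 hi
    exact (promise hp hn).1
  -- the lower sets
  set 𝒜 : Set (Λ × ℕ) := {b | b.1 < η ∧ ∃ x ∈ L, x.2.1 = b} with h𝒜
  have h𝒜c : 𝒜.Countable := by
    refine (((L.toFinset.image fun x => x.2.1).finite_toSet).countable).mono ?_
    rintro b ⟨-, x, hx, rfl⟩
    exact Finset.mem_coe.2 (Finset.mem_image_of_mem _ (List.mem_toFinset.2 hx))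
  -- the dense sets
  set 𝒟1 : Set (Set (PB nm η)) := (fun a : I × ℕ =>
    {s : PB nm η | Pos (nm a.1 a.2) s.1 ∨ Neg (Valid nm) (nm a.1 a.2) s.1}) ''
      ((EI : Set I) ×ˢ univ) with h𝒟1
  set 𝒟2 : Set (Set (PB nm η)) := (fun l : List (ℚ × ((Λ × ℕ) × Str)) =>
    {s : PB nm η | (0 : ℝ) ∉ Sm (BC s.1.C) l}) '' {l | (∀ x ∈ l, x.2 ∈ 𝒜 ×ˢ (univ : Set Str)) ∧
      l ≠ [] ∧ Good l} with h𝒟2
  set 𝒜3 : I → Set (Atom I Λ) := fun i =>
    (Sum.inl '' {j | j ∈ EI ∧ j < i}) ∪ (Sum.inr '' (𝒜 ×ˢ {[]})) with h𝒜3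
  set 𝒟3 : Set (Set (PB nm η)) := (fun a : I × List (ℚ × Atom I Λ) =>
    {s : PB nm η | (0 : ℝ) ∉ Sm (apv nm s.1) ((1, Sum.inl a.1) :: a.2)}) ''
      {a | a.1 ∈ EI ∧ ∀ x ∈ a.2, x.2 ∈ 𝒜3 a.1} with h𝒟3
  set 𝒟4 : Set (Set (PB nm η)) := (fun a : I × Str =>
    {s : PB nm η | ∀ x ∈ apv nm s.1 (Sum.inl a.1), ¬ Ini a.2 x}) ''
      {a | ∃ n, (η, n, a.1) ∈ p.E ∧ (η, n, a.2) ∈ p.U} with h𝒟4
  obtain ⟨g, hg0, hganti, hgD⟩ := exists_seq p0 (𝒟1 ∪ 𝒟2 ∪ 𝒟3 ∪ 𝒟4) (by
    refine ((Set.Countable.union ?_ ?_).union ?_).union ?_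
    · exact ((EI.finite_toSet.countable.prod countable_univ).image _)
    · refine Set.Countable.image ((countable_lists (h𝒜c.prod (countable_univ (α := Str)))).mono ?_)
        _
      rintro l ⟨h, -⟩
      exact h
    · have h3 : ∀ i, (𝒜3 i).Countable := by
        intro i
        refine Set.Countable.union ?_ ?_
        · refine Set.Countable.image ?_ _
          exact EI.finite_toSet.countable.mono fun j hj => hj.1
        · exact (h𝒜c.prod (countable_singleton _)).image _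
      refine Set.Countable.image ?_ _
      have h4 : {a : I × List (ℚ × Atom I Λ) | a.1 ∈ EI ∧ ∀ x ∈ a.2, x.2 ∈ 𝒜3 a.1} ⊆
          ⋃ i ∈ (EI : Set I), (fun l => (i, l)) '' {l | ∀ x ∈ l, x.2 ∈ 𝒜3 i} := by
        rintro ⟨i, l⟩ ⟨h5, h6⟩
        simp only [mem_iUnion]
        exact ⟨i, h5, l, h6, rfl⟩
      refine Set.Countable.mono h4 ?_
      exact EI.finite_toSet.countable.biUnion fun i _ => (countable_lists (h3 i)).image _
    · refine Set.Countable.image ?_ _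
      have h4 : {a : I × Str | ∃ n, (η, n, a.1) ∈ p.E ∧ (η, n, a.2) ∈ p.U} ⊆
          ((fun x : Λ × ℕ × I => x.2.2) '' p.E) ×ˢ ((fun x : Λ × ℕ × Str => x.2.2) '' p.U) := by
        rintro ⟨i, u⟩ ⟨n, h5, h6⟩
        exact ⟨⟨_, h5, rfl⟩, ⟨_, h6, rfl⟩⟩
      exact ((hp.1.2.2.image _).countable.prod (hp.1.2.1.image _).countable).mono h4) (by
    rintro D (((hD | hD) | hD) | hD) q hq
    · obtain ⟨⟨i, k⟩, ⟨hi, -⟩, rfl⟩ := hD
      exact dense_decide (hlow i hi) k q
    · obtain ⟨l, ⟨hl1, hl2, hl3⟩, rfl⟩ := hD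
      obtain ⟨r, hr, hrq, h0⟩ := IHη l hl2 hl3 (fun x hx => (hl1 x hx).1.1) q.1 q.2.1
      refine ⟨⟨r.restrict (Iio η), valid_restrict hr η⟩, restrict_le_of_sup hrq q.2.2, ?_⟩
      intro h
      apply h0
      refine Sm_mono (fun x hx => ?_) h
      rw [BC_restrict (hl1 x hx).1.1]
    · obtain ⟨⟨i, l⟩, ⟨hi, hl⟩, rfl⟩ := hD
      obtain ⟨n, hn⟩ := (memEI i).1 hi
      obtain ⟨s, hs, hsq, h0⟩ := (promise hp hn).2.2 l (by
        intro x hx
        constructor
        · intro j hj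
          rcases hl x hx with ⟨j', hj', h5⟩ | ⟨b, hb, h5⟩
          · rw [hj] at h5
            obtain rfl := Sum.inl_injective h5
            exact ⟨hj'.2, hlow _ hj'.1⟩
          · rw [hj] at h5
            simp at h5
        · intro b hb
          rcases hl x hx with ⟨j', hj', h5⟩ | ⟨b', hb', h5⟩
          · rw [hb] at h5
            simp at h5
          · rw [hb] at h5
            obtain rfl := Sum.inr_injective h5
            exact hb'.1.1) q.1 q.2 hq
      exact ⟨⟨s, hs⟩, hsq, h0⟩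
    · obtain ⟨⟨i, u⟩, ⟨n, hn, hu⟩, rfl⟩ := hD
      obtain ⟨s, hs, hsq, h0⟩ := (promise hp hn).2.1 u hu q.1 q.2 hq
      exact ⟨⟨s, hs⟩, hsq, h0⟩)
  have hdesc : Desc fun k => (g k).1 := fun k l hkl => hganti hkl
  have hval : ∀ k, Valid nm (g k).1 := fun k => (g k).2.1
  set X : I → Pt := val nm (fun k => (g k).1) with hX
  have hdec : ∀ i ∈ EI, ∀ k, ∃ m, Pos (nm i k) (g m).1 ∨ Neg (Valid nm) (nm i k) (g m).1 :=
    fun i hi k => hgD _ (Or.inl (Or.inl (Or.inl ⟨(i, k), ⟨hi, trivial⟩, rfl⟩)))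
  set B : Λ × ℕ → Set Pt := fun b => ⋂ k, (g k).1.C b with hB
  have hBcl : ∀ b, IsClosed (B b) := fun b => isClosed_iInter fun k => isClosed_C _ _
  have hBC : ∀ k b, BC B b ⊆ BC (g k).1.C b := by
    intro k b x hx
    exact ⟨mem_iInter.1 hx.1 k, hx.2⟩
  have hind : Indep B 𝒜 := by
    apply indep_of_lists
    intro l hl1 hl2 hl3 h0
    obtain ⟨k, hk⟩ := hgD _ (Or.inl (Or.inl (Or.inr ⟨l, ⟨fun x hx => ⟨hl3 x hx, trivial⟩, hl1,
      hl2⟩, rfl⟩)))
    exact hk (Sm_mono (fun x _ => hBC k x.2) h0)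
  have hindX : LinearIndepOn ℚ (cls (W B 𝒜) X) (EI : Set I) := by
    apply indep_points
    intro i hi hmem
    let A : Atom I Λ → Set Pt := fun a => match a with
      | Sum.inl j => {X j}
      | Sum.inr b => BC B b
    have h1 : W B 𝒜 ⊔ Submodule.span ℚ ((fun j => v (X j)) '' {j | j ∈ EI ∧ j < i}) ≤
        W A (𝒜3 i) := by
      rw [sup_le_iff]
      constructor
      · unfold W
        rw [Submodule.span_le]
        intro z hz
        simp only [mem_iUnion, mem_image] at hz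
        obtain ⟨b, hb, x, hx, rfl⟩ := hz
        apply Submodule.subset_span
        simp only [mem_iUnion]
        exact ⟨Sum.inr (b, []), Or.inr ⟨(b, []), ⟨hb, rfl⟩, rfl⟩, x, ⟨hx, ini_nil _⟩, rfl⟩
      · rw [Submodule.span_le]
        rintro z ⟨j, hj, rfl⟩
        apply Submodule.subset_span
        simp only [mem_iUnion]
        exact ⟨Sum.inl j, Or.inl ⟨j, hj, rfl⟩, X j, rfl, rfl⟩
    have h2 := (W A (𝒜3 i)).neg_mem (h1 hmem)
    obtain ⟨l, hl1, hl2⟩ := mem_W.1 h2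
    obtain ⟨k, hk⟩ := hgD _ (Or.inl (Or.inr ⟨(i, l), ⟨hi, hl1⟩, rfl⟩))
    apply hk
    have h3 : (0 : ℝ) ∈ Sm A ((1, Sum.inl i) :: l) := ⟨X i, rfl, _, hl2, by simp⟩
    refine Sm_mono ?_ h3
    rintro ⟨q, j | b⟩ -
    · rintro x rfl
      exact val_mem hdesc hval j k
    · exact hBC k b
  have hV : ∀ F : Submodule ℚ ℝ, (F : Set ℝ).Countable → W B 𝒜 ⊔ F ≠ ⊤ := fun F hF h =>
    ne_top_of_indep hBcl h𝒜c hind (top_of_sup hBcl h𝒜c hF h)
  -- the free points
  obtain ⟨fr, hfr⟩ : ∃ fr : ℕ → Str, ∀ m u, (η, m, u) ∈ p.U → Perp (fr m) u := by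
    choose fr hfr using fun m => hp.2.1.2 η m
    exact ⟨fr, hfr⟩
  set tops : Finset ℕ := (L.toFinset.filter fun x => x.2.1.1 = η).image fun x => x.2.1.2
    with htops
  have memtops : ∀ m, m ∈ tops ↔ ∃ x ∈ L, x.2.1 = (η, m) := by
    intro m
    simp only [htops, Finset.mem_image, Finset.mem_filter, List.mem_toFinset]
    constructor
    · rintro ⟨x, ⟨hx, h1⟩, h2⟩
      exact ⟨x, hx, Prod.ext h1 h2⟩
    · rintro ⟨x, hx, h1⟩
      exact ⟨x, ⟨hx, by rw [h1]⟩, by rw [h1]⟩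
  set S : Finset ℕ := tops.filter fun m => ∀ i, (η, m, i) ∉ p.E with hS
  obtain ⟨z, hz1, hz2⟩ := exists_free hV hindX EI.finite_toSet S fr
  set f : I ⊕ ℕ → Pt := Sum.elim X z with hf
  set T : Set (I ⊕ ℕ) := Sum.inl '' (EI : Set I) ∪ Sum.inr '' (S : Set ℕ) with hT
  have hTfin : T.Finite := (EI.finite_toSet.image _).union (S.finite_toSet.image _)
  choose! lb hlb using fun i (hi : i ∈ EI) => (memEI i).1 hi
  set lab : I ⊕ ℕ → ℕ := Sum.elim lb id with hlab
  -- the transformed list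
  let tr : ℚ × ((Λ × ℕ) × Str) → ℚ × ((ℕ ⊕ (Λ × ℕ)) × Str) := fun x =>
    (x.1, (if x.2.1.1 = η then Sum.inl x.2.1.2 else Sum.inr x.2.1, x.2.2))
  have htr1 : ∀ x, x.2.1.1 = η → tr x = (x.1, (Sum.inl x.2.1.2, x.2.2)) := by
    intro x hx
    simp only [tr, if_pos hx]
  have htr2 : ∀ x, x.2.1.1 ≠ η → tr x = (x.1, (Sum.inr x.2.1, x.2.2)) := by
    intro x hx
    simp only [tr, if_neg hx]
  have hGtr : Good (L.map tr) := by
    constructor
    · intro x hx
      obtain ⟨y, hy, rfl⟩ := List.mem_map.1 hx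
      exact hG.1 y hy
    · rw [List.pairwise_map]
      refine hG.2.imp ?_
      intro x y hxy h
      by_cases h1 : x.2.1.1 = η <;> by_cases h2 : y.2.1.1 = η
      · rw [htr1 x h1, htr1 y h2] at h ⊢
        exact hxy (Prod.ext (h1.trans h2.symm) (Sum.inl_injective h))
      · rw [htr1 x h1, htr2 y h2] at h
        simp at h
      · rw [htr2 x h1, htr1 y h2] at h
        simp at h
      · rw [htr2 x h1, htr2 y h2] at h ⊢
        exact hxy (Sum.inr_injective h)
  have htopstep : (0 : ℝ) ∉ Sm (TB B T f lab) (L.map tr) := by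
    apply top_step hz2 hGtr
    · intro x hx b hb
      obtain ⟨y, hy, rfl⟩ := List.mem_map.1 hx
      by_cases h1 : y.2.1.1 = η
      · rw [htr1 y h1] at hb
        simp at hb
      · rw [htr2 y h1] at hb
        obtain rfl := Sum.inr_injective hb
        exact ⟨lt_of_le_of_ne (hη2 y hy) h1, y, hy, rfl⟩
    · obtain ⟨x, hx, h1⟩ := hη1
      exact ⟨tr x, List.mem_map_of_mem hx, x.2.1.2, by rw [htr1 x h1]⟩
  -- finite approximation
  let A : ℕ → (ℕ ⊕ (Λ × ℕ)) × Str → Set Pt := fun k a => match a with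
    | (Sum.inl m, t) => {x | Ini t x ∧ ∃ o ∈ T, lab o = m ∧ Ini (tk (f o) k) x}
    | (Sum.inr b, t) => BC (g k).1.C (b, t)
  have hAanti : ∀ a, Antitone fun k => A k a := by
    rintro ⟨m | b, t⟩ k l hkl
    · rintro x ⟨h1, o, ho, h2, h3⟩
      refine ⟨h1, o, ho, h2, ?_⟩
      rw [ini_tk] at h3 ⊢
      exact fun i hi => h3 i (lt_of_lt_of_le hi hkl)
    · rintro x ⟨h1, h2⟩
      exact ⟨C_mono (hdesc k l hkl) _ h1, h2⟩
  have hAcl : ∀ k a, IsClosed (A k a) := by
    rintro k ⟨m | b, t⟩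
    · have h1 : A k (Sum.inl m, t) = {x | Ini t x} ∩
          ⋃ o ∈ {o | o ∈ T ∧ lab o = m}, {x | Ini (tk (f o) k) x} := by
        ext x
        simp only [A, mem_ofPred_eq, mem_inter_iff, mem_iUnion, exists_prop]
        exact and_congr_right fun _ => exists_congr fun o => by tauto
      rw [h1]
      refine (isClosed_ini _).inter (Set.Finite.isClosed_biUnion (hTfin.subset fun o ho => ho.1)
        fun o _ => isClosed_ini _)
    · exact isClosed_BC (isClosed_C _ _)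
  obtain ⟨K, hK⟩ : ∃ K, (0 : ℝ) ∉ Sm (A K) (L.map tr) := by
    by_contra hcon
    push Not at hcon
    apply htopstep
    have h1 := Sm_iInter hAanti (fun x _ k => hAcl k x.2) hcon
    refine Sm_mono ?_ h1
    rintro ⟨q, m | b, t⟩ - x hx
    · rw [mem_iInter] at hx
      -- some `o` works for all `k`
      have h2 : ∃ o ∈ T, lab o = m ∧ ∀ k, Ini (tk (f o) k) x := by
        by_contra hcon2
        push Not at hcon2
        have h3 : ∀ o, ∃ k, o ∈ T → lab o = m → ¬ Ini (tk (f o) k) x := by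
          intro o
          by_cases h4 : o ∈ T ∧ lab o = m
          · obtain ⟨k, hk⟩ := hcon2 o h4.1 h4.2
            exact ⟨k, fun _ _ => hk⟩
          · exact ⟨0, fun h5 h6 => absurd ⟨h5, h6⟩ h4⟩
        choose κ hκ using h3
        obtain ⟨-, o, ho, ho2, ho3⟩ := hx (hTfin.toFinset.sup κ)
        apply hκ o ho ho2
        rw [ini_tk] at ho3 ⊢
        intro i hi
        exact ho3 i (lt_of_lt_of_le hi (Finset.le_sup (f := κ) (hTfin.mem_toFinset.2 ho)))
      obtain ⟨o, ho, ho2, ho3⟩ := h2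
      refine ⟨o, ho, ho2, ?_, (hx 0).1⟩
      funext k
      exact ((ini_tk.1 (ho3 (k + 1))) k (Nat.lt_succ_self k)).symm
    · rw [mem_iInter] at hx
      exact ⟨mem_iInter.2 fun k => (hx k).1, (hx 0).2⟩
  -- a member of the sequence which knows the first `K` entries
  obtain ⟨M, hKM, hM⟩ : ∃ M, K ≤ M ∧ ∀ i ∈ EI, ∀ x ∈ apv nm (g M).1 (Sum.inl i),
      Ini (tk (X i) K) x := by
    choose! M hM using fun i (hi : i ∈ EI) =>
      apv_subset_tk (nm := nm) hdesc hval i (hdec i hi) K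
    refine ⟨max K (EI.sup M), le_max_left _ _, fun i hi x hx => ?_⟩
    apply hM i hi
    exact ap_mono nm _ (hdesc _ _ ((Finset.le_sup (f := M) hi).trans (le_max_right _ _))) _ hx
  have hgM : Le (g M).1 (p.restrict (Iio η)) := by
    have := hganti (Nat.zero_le M)
    rw [hg0] at this
    exact this
  obtain ⟨hj1, hj2, hj3⟩ := valid_join hp (g M).2 hgM
  set j := (g M).1.join p with hj
  -- the new cones
  set N : Set (Λ × ℕ × Str) := {x | x.1 = η ∧ x.2.1 ∈ tops ∧ x.2.2.length = K ∧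
    ∀ o ∈ T, lab o = x.2.1 → x.2.2 ≠ tk (f o) K} with hN
  have hNfin : N.Finite := by
    have h1 : {u : Str | u.length = K}.Finite := by
      have := List.finite_length_eq (Fin 2) K
      exact this
    refine (((Set.finite_singleton η).prod (tops.finite_toSet.prod h1))).subset ?_
    rintro ⟨a, m, u⟩ ⟨h2, h3, h4, -⟩
    exact ⟨h2, h3, h4⟩
  set q : Pre I Λ := ⟨j.c, j.U ∪ N, j.E⟩ with hq
  have hqj : Le q j := ⟨fun _ => List.prefix_rfl, subset_union_left, subset_rfl⟩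
  have hjU : ∀ m u, (η, m, u) ∈ j.U → (η, m, u) ∈ p.U := by
    rintro m u (h | h)
    · exact absurd ((g M).2.2.1 _ h) (lt_irrefl _)
    · exact h
  have hjE : ∀ m i, (η, m, i) ∈ j.E → (η, m, i) ∈ p.E := by
    rintro m u (h | h)
    · exact absurd ((g M).2.2.2 _ h) (lt_irrefl _)
    · exact h
  have hfo : ∀ o ∈ T, ∀ u, (η, lab o, u) ∈ p.U → ¬ Ini u (f o) := by
    rintro o (⟨i, hi, rfl⟩ | ⟨m, hm, rfl⟩) u hu
    · obtain ⟨k, hk⟩ := hgD _ (Or.inr ⟨(i, u), ⟨lb i, hlb i hi, hu⟩, rfl⟩)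
      exact hk _ (val_mem hdesc hval i k)
    · exact fun h => (hfr m u hu) _ (hz1 m hm) h
  have htopo : ∀ m ∈ tops, ∃ o ∈ T, lab o = m := by
    intro m hm
    by_cases h : ∃ i, (η, m, i) ∈ p.E
    · obtain ⟨i, hi⟩ := h
      have hi' : i ∈ EI := (memEI i).2 ⟨m, hi⟩
      refine ⟨Sum.inl i, Or.inl ⟨i, hi', rfl⟩, ?_⟩
      exact hp.2.1.1 η _ _ i (hlb i hi') hi
    · push Not at h
      exact ⟨Sum.inr m, Or.inr ⟨m, Finset.mem_coe.2 (Finset.mem_filter.2 ⟨hm, h⟩), rfl⟩, rfl⟩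
  have hqv : Valid nm q := by
    apply valid_of
    · exact ⟨hj1.1.1, hj1.1.2.1.union hNfin, hj1.1.2.2⟩
    · refine ⟨hj1.2.1.1, fun ζ m => ?_⟩
      by_cases h : ζ = η ∧ m ∈ tops
      · obtain ⟨rfl, hm⟩ := h
        obtain ⟨o, ho, rfl⟩ := htopo m hm
        obtain ⟨R, hR⟩ : ∃ R, ∀ u, (ζ, lab o, u) ∈ p.U → u.length ≤ R := by
          refine ⟨hp.1.2.1.toFinset.sup fun x => x.2.2.length, fun u hu => ?_⟩
          exact Finset.le_sup (f := fun x : Λ × ℕ × Str => x.2.2.length)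
            (hp.1.2.1.mem_toFinset.2 hu)
        refine ⟨tk (f o) (max K R), ?_⟩
        rintro u (hu | hu) x hx h5
        · have hu' := hjU _ _ hu
          rw [ini_tk_iff ((hR u hu').trans (le_max_right _ _)) hx] at h5
          exact hfo o ho u hu' h5
        · obtain ⟨-, -, h6, h7⟩ := hu
          simp only at h6 h7
          rw [ini_tk_iff (h6.le.trans (le_max_left _ _)) hx] at h5
          apply h7 o ho rfl
          rw [← h6]
          exact eq_tk_of_ini h5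
      · obtain ⟨t, ht⟩ := hj1.2.1.2 ζ m
        refine ⟨t, ?_⟩
        rintro u (hu | hu)
        · exact ht u hu
        · exact absurd ⟨hu.1, hu.2.1⟩ h
    · intro ζ m i hE
      refine ⟨j, hj1, hqj, hE, ?_⟩
      rintro u (hu | hu)
      · exact Or.inl hu
      · right
        obtain ⟨rfl, h5, h6, h7⟩ := hu
        simp only at h5 h6 h7
        intro x hx h8
        have hpE := hjE m i hE
        have hiE : i ∈ EI := (memEI i).2 ⟨m, hpE⟩
        have h9 : Le (q.restrict (Iio ζ)) (g M).1 :=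
          restrict_le_of_sup (hqj.trans hj3) (g M).2.2
        have h10 := ap_mono nm (VB nm ζ) h9 _ hx
        rw [ap_VB (hlow i hiE) (g M).2] at h10
        have h11 := hM i hiE x h10
        apply h7 (Sum.inl i) (Or.inl ⟨i, hiE, rfl⟩) (hp.2.1.1 ζ _ _ i (hlb i hiE) hpE)
        rw [eq_tk_of_ini h8, h6]
        have h12 := eq_tk_of_ini h11
        rw [length_tk] at h12
        exact h12.symm
  refine ⟨q, hqv, hqj.trans hj2, ?_⟩
  intro h0
  apply hK
  have htrans : ∀ l : List (ℚ × ((Λ × ℕ) × Str)), (∀ x ∈ l, x ∈ L) → ∀ y ∈ Sm (BC q.C) l,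
      y ∈ Sm (A K) (l.map tr) := by
    intro l
    induction l with
    | nil => intro _ y hy; exact hy
    | cons x l ih =>
      intro hl y hy
      obtain ⟨w, hw, y', hy', rfl⟩ := hy
      have hy2 := ih (fun x hx => hl x (List.mem_cons_of_mem _ hx)) y' hy'
      have hxL : x ∈ L := hl x (List.mem_cons_self ..)
      refine ⟨w, ?_, y', hy2, rfl⟩
      by_cases h1 : x.2.1.1 = η
      · rw [htr1 x h1]
        have h2 : x.2.1 = (η, x.2.1.2) := Prod.ext h1 rfl
        have hm : x.2.1.2 ∈ tops := (memtops _).2 ⟨x, hxL, h2⟩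
        refine ⟨hw.2, ?_⟩
        by_contra hcon
        push Not at hcon
        refine hw.1 (tk w K) (Or.inr ⟨h1, hm, by simp, ?_⟩) (ini_tk_self _ _)
        intro o ho hlo h3
        apply hcon o ho hlo
        rw [← h3]
        exact ini_tk_self _ _
      · rw [htr2 x h1]
        exact ⟨C_mono ((hqj.trans hj3).trans (hdesc _ _ hKM)) _ hw.1, hw.2⟩
  exact htrans L (fun _ h => h) 0 h0

end Pool.Agent.K4H97.SG
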