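import Pool.Agent.K4H97.SG.Line

/-!
# Linear independence and good lists
-/

set_option autoImplicit false

namespace Pool.Agent.K4H97.SG

open Set

section

variable {β : Type*}

/-- the part of `B b` in the cone of a string -/
def BC (B : β → Set Pt) (b : β × Str) : Set Pt := B b.1 ∩ {x | Ini b.2 x}

/-- the coefficients are nonzero, and the cones are disjoint -/
def Good (L : List (ℚ × (β × Str))) : Prop :=
  (∀ x ∈ L, x.1 ≠ 0) ∧ L.Pairwise fun x y => x.2.1 = y.2.1 → Perp x.2.2 y.2.2

theorem isClosed_BC {B : β → Set Pt} {b : β × Str} (h : IsClosed (B b.1)) : IsClosed (BC B b) :=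
  h.inter (isClosed_ini _)

theorem perp_tk {x y : Pt} {k : ℕ} (h : tk x k ≠ tk y k) : Perp (tk x k) (tk y k) := by
  intro z h1 h2
  apply h
  rw [ini_tk] at h1 h2
  apply List.ext_getElem (by simp)
  intro i h3 h4
  rw [getElem_tk, getElem_tk]
  have hi : i < k := by simpa using h3
  rw [← h1 i hi, ← h2 i hi]

theorem exists_sep (F : Finset Pt) : ∃ k, ∀ x ∈ F, ∀ y ∈ F, x ≠ y → tk x k ≠ tk y k := by
  classical
  have h1 : ∀ x y : Pt, ∃ k, x ≠ y → ∃ i < k, x i ≠ y i := by
    intro x y
    by_cases h : x = y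
    · exact ⟨0, fun h' => absurd h h'⟩
    · obtain ⟨i, hi⟩ := Function.ne_iff.1 h
      exact ⟨i + 1, fun _ => ⟨i, Nat.lt_succ_self i, hi⟩⟩
  choose k hk using h1
  refine ⟨∑ x ∈ F, ∑ y ∈ F, k x y, fun x hx y hy hne h => ?_⟩
  obtain ⟨i, hi, hxy⟩ := hk x y hne
  have h2 : k x y ≤ ∑ x ∈ F, ∑ y ∈ F, k x y :=
    (Finset.single_le_sum (f := fun y => k x y) (fun _ _ => Nat.zero_le _) hy).trans
      (Finset.single_le_sum (f := fun x => ∑ y ∈ F, k x y) (fun _ _ => Nat.zero_le _) hx)
  have h3 := congrArg (fun l => l[i]?) h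
  simp only [tk, List.getElem?_ofFn] at h3
  rw [dif_pos (lt_of_lt_of_le hi h2), dif_pos (lt_of_lt_of_le hi h2)] at h3
  exact hxy (Option.some_injective _ h3)

theorem indep_of_lists [DecidableEq β] {B : β → Set Pt} {𝒜 : Set β}
    (h : ∀ L : List (ℚ × (β × Str)), L ≠ [] → Good L → (∀ x ∈ L, x.2.1 ∈ 𝒜) →
      (0 : ℝ) ∉ Sm (BC B) L) : Indep B 𝒜 := by
  classical
  unfold Indep
  rw [linearIndepOn_iff]
  intro l hl h0
  by_contra hne
  obtain ⟨k, hk⟩ := exists_sep (l.support.image Prod.snd)
  rw [Finsupp.mem_supported] at hl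
  let g : β × Pt → ℚ × (β × Str) := fun c => (l c, (c.1, tk c.2 k))
  have hsum : ∀ L0 : List (β × Pt), (∀ c ∈ L0, c ∈ l.support) →
      (L0.map fun c => (l c : ℝ) * v c.2).sum ∈ Sm (BC B) (L0.map g) := by
    intro L0
    induction L0 with
    | nil => intro _; simp [mem_Sm_nil]
    | cons c L0 ih =>
      intro hc
      simp only [List.map_cons, List.sum_cons]
      refine ⟨c.2, ⟨(hl (hc c (List.mem_cons_self ..))).2, ini_tk_self _ _⟩, _,
        ih fun c hc' => hc c (List.mem_cons_of_mem _ hc'), rfl⟩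
  apply h (l.support.toList.map g)
  · simpa using hne
  · constructor
    · intro x hx
      simp only [List.mem_map, Finset.mem_toList] at hx
      obtain ⟨c, hc, rfl⟩ := hx
      exact Finsupp.mem_support_iff.1 hc
    · rw [List.pairwise_map]
      have h1 : l.support.toList.Nodup := Finset.nodup_toList _
      refine List.Pairwise.imp_of_mem ?_ h1
      intro c d hc hd hcd h2
      rw [Finset.mem_toList] at hc hd
      apply perp_tk
      apply hk c.2 (Finset.mem_image_of_mem _ hc) d.2 (Finset.mem_image_of_mem _ hd)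
      intro h3
      exact hcd (Prod.ext h2 h3)
  · intro x hx
    simp only [List.mem_map, Finset.mem_toList] at hx
    obtain ⟨c, hc, rfl⟩ := hx
    exact (hl hc).1
  · have h1 := hsum l.support.toList (fun c hc => by simpa using hc)
    have h2 : (l.support.toList.map fun c => (l c : ℝ) * v c.2).sum = 0 := by
      rw [Finset.sum_map_toList, ← h0]
      rw [Finsupp.linearCombination_apply, Finsupp.sum]
      refine Finset.sum_congr rfl fun c _ => ?_
      rw [Rat.smul_def]
    rwa [h2] at h1

/-! ### One step -/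

variable {ο : Type*}

/-- the class of `v (f o)` modulo `V` -/
noncomputable def cls (V : Submodule ℚ ℝ) (f : ο → Pt) (o : ο) : ℝ ⧸ V := V.mkQ (v (f o))

/-- the sets assigned to the upper atoms (`Sum.inl`) and to the lower atoms (`Sum.inr`) -/
def TB (B : β → Set Pt) (T : Set ο) (f : ο → Pt) (lab : ο → ℕ) : (ℕ ⊕ β) × Str → Set Pt
  | (Sum.inl m, t) => {x | ∃ o ∈ T, lab o = m ∧ f o = x ∧ Ini t x}
  | (Sum.inr b, t) => BC B (b, t)

theorem top_step {B : β → Set Pt} {𝒜 : Set β} {T : Set ο} {f : ο → Pt} {lab : ο → ℕ}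
    (hT : LinearIndepOn ℚ (cls (W B 𝒜) f) T) {L : List (ℚ × ((ℕ ⊕ β) × Str))} (hL : Good L)
    (hlow : ∀ x ∈ L, ∀ b, x.2.1 = Sum.inr b → b ∈ 𝒜) (htop : ∃ x ∈ L, ∃ m, x.2.1 = Sum.inl m) :
    (0 : ℝ) ∉ Sm (TB B T f lab) L := by
  classical
  intro h0
  have key : ∀ L : List (ℚ × ((ℕ ⊕ β) × Str)), Good L →
      (∀ x ∈ L, ∀ b, x.2.1 = Sum.inr b → b ∈ 𝒜) → ∀ z ∈ Sm (TB B T f lab) L,
      ∃ a : ο →₀ ℚ, (∀ o ∈ a.support, o ∈ T ∧ ∃ x ∈ L, x.2.1 = Sum.inl (lab o) ∧
        Ini x.2.2 (f o)) ∧ (W B 𝒜).mkQ z = Finsupp.linearCombination ℚ (cls (W B 𝒜) f) a ∧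
      ((∃ x ∈ L, ∃ m, x.2.1 = Sum.inl m) → a ≠ 0) := by
    intro L
    induction L with
    | nil =>
      intro _ _ z hz
      rw [mem_Sm_nil] at hz
      subst hz
      refine ⟨0, by simp, by simp, ?_⟩
      rintro ⟨x, hx, -⟩
      exact absurd hx (List.not_mem_nil)
    | cons x L ih =>
      intro hG hl z hz
      obtain ⟨p, hp, y, hy, rfl⟩ := hz
      obtain ⟨a, h1, h2, h3⟩ := ih ⟨fun w hw => hG.1 w (List.mem_cons_of_mem _ hw),
        (List.pairwise_cons.1 hG.2).2⟩ (fun w hw => hl w (List.mem_cons_of_mem _ hw)) y hy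
      obtain ⟨q, ⟨m | b, t⟩⟩ := x
      · obtain ⟨o, ho, hlab, rfl, hini⟩ := hp
        have hq : q ≠ 0 := hG.1 _ (List.mem_cons_self ..)
        have hao : a o = 0 := by
          by_contra h4
          obtain ⟨-, w, hw, h5, h6⟩ := h1 o (Finsupp.mem_support_iff.2 h4)
          have h7 := (List.pairwise_cons.1 hG.2).1 w hw
          refine h7 ?_ (f o) hini h6
          rw [h5, hlab]
        refine ⟨a + Finsupp.single o q, ?_, ?_, ?_⟩
        · intro o' ho'
          rcases Finset.mem_union.1 (Finsupp.support_add ho') with h4 | h4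
          · obtain ⟨h5, w, hw, h6⟩ := h1 o' h4
            exact ⟨h5, w, List.mem_cons_of_mem _ hw, h6⟩
          · have := Finsupp.support_single_subset h4
            rw [Finset.mem_singleton] at this
            subst this
            exact ⟨ho, _, List.mem_cons_self .., by rw [hlab], hini⟩
        · rw [map_add, map_add, ← h2, Finsupp.linearCombination_single, add_comm]
          congr 1
        · intro _ h4
          have h5 := DFunLike.congr_fun h4 o
          rw [Finsupp.add_apply, hao, Finsupp.single_eq_same] at h5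
          simp only [zero_add, Finsupp.coe_zero, Pi.zero_apply] at h5
          exact hq h5
      · have hb : b ∈ 𝒜 := hl _ (List.mem_cons_self ..) b rfl
        refine ⟨a, ?_, ?_, ?_⟩
        · intro o ho
          obtain ⟨h5, w, hw, h6⟩ := h1 o ho
          exact ⟨h5, w, List.mem_cons_of_mem _ hw, h6⟩
        · rw [map_add, h2]
          have h4 : (W B 𝒜).mkQ ((q : ℝ) * v p) = 0 := by
            rw [Submodule.mkQ_apply, Submodule.Quotient.mk_eq_zero, ← Rat.smul_def]
            apply Submodule.smul_mem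
            apply Submodule.subset_span
            simp only [mem_iUnion]
            exact ⟨b, hb, p, hp.1, rfl⟩
          show (W B 𝒜).mkQ ((q : ℝ) * v p) + _ = _
          rw [h4, zero_add]
        · rintro ⟨w, hw, m, hm⟩
          rcases List.mem_cons.1 hw with rfl | hw
          · simp at hm
          · exact h3 ⟨w, hw, m, hm⟩
  obtain ⟨a, h1, h2, h3⟩ := key L hL hlow 0 h0
  rw [map_zero] at h2
  rw [linearIndepOn_iff] at hT
  refine h3 htop (hT a ?_ h2.symm)
  rw [Finsupp.mem_supported]
  intro o ho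
  exact (h1 o ho).1

theorem mem_span_cls {V : Submodule ℚ ℝ} {f : ο → Pt} {T : Set ο} {z : ℝ}
    (h : V.mkQ z ∈ Submodule.span ℚ (cls V f '' T)) :
    z ∈ V ⊔ Submodule.span ℚ ((fun o => v (f o)) '' T) := by
  have h1 : cls V f '' T = V.mkQ '' ((fun o => v (f o)) '' T) := by
    rw [image_image]
    rfl
  rw [h1, ← Submodule.map_span] at h
  obtain ⟨y, hy, hyz⟩ := h
  have h2 : z - y ∈ V := by
    rw [← Submodule.Quotient.mk_eq_zero (p := V), Submodule.Quotient.mk_sub, sub_eq_zero]
    exact hyz.symm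
  rw [Submodule.mem_sup]
  exact ⟨z - y, h2, y, hy, by ring⟩

/-- the points named by a finite set of indices are independent -/
theorem indep_points {I : Type*} [LinearOrder I] {V : Submodule ℚ ℝ} {X : I → Pt}
    (E : Finset I) (h : ∀ i ∈ E, v (X i) ∉ V ⊔ Submodule.span ℚ ((fun j => v (X j)) ''
      {j | j ∈ E ∧ j < i})) : LinearIndepOn ℚ (cls V X) (E : Set I) := by
  induction E using Finset.induction_on_max with
  | empty => simp
  | insert a E hlt ih =>
    rw [Finset.coe_insert]
    have ha : a ∉ E := fun h' => lt_irrefl _ (hlt a h')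
    apply LinearIndepOn.insert
    · apply ih
      intro i hi hmem
      apply h i (Finset.mem_insert_of_mem hi)
      have hsub : {j | j ∈ E ∧ j < i} ⊆ {j | j ∈ insert a E ∧ j < i} := by
        rintro j ⟨hj, hlt'⟩
        exact ⟨Finset.mem_insert_of_mem hj, hlt'⟩
      have hle : V ⊔ Submodule.span ℚ ((fun j => v (X j)) '' {j | j ∈ E ∧ j < i}) ≤
          V ⊔ Submodule.span ℚ ((fun j => v (X j)) '' {j | j ∈ insert a E ∧ j < i}) :=
        sup_le_sup_left (Submodule.span_mono (image_mono hsub)) V
      exact hle hmem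
    · intro hmem
      apply h a (Finset.mem_insert_self _ _)
      have hsub : (E : Set I) ⊆ {j | j ∈ insert a E ∧ j < a} := by
        intro j hj
        exact ⟨Finset.mem_insert_of_mem hj, hlt j hj⟩
      have hle : V ⊔ Submodule.span ℚ ((fun j => v (X j)) '' (E : Set I)) ≤
          V ⊔ Submodule.span ℚ ((fun j => v (X j)) '' {j | j ∈ insert a E ∧ j < a}) :=
        sup_le_sup_left (Submodule.span_mono (image_mono hsub)) V
      exact hle (mem_span_cls hmem)

/-- adding free points in given cones -/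
theorem exists_free {V : Submodule ℚ ℝ}
    (hV : ∀ F : Submodule ℚ ℝ, (F : Set ℝ).Countable → V ⊔ F ≠ ⊤) {f : ο → Pt} {T : Set ο}
    (hT : LinearIndepOn ℚ (cls V f) T) (hTf : T.Finite) (S : Finset ℕ) (t : ℕ → Str) :
    ∃ z : ℕ → Pt, (∀ m ∈ S, Ini (t m) (z m)) ∧
      LinearIndepOn ℚ (cls V (Sum.elim f z)) (Sum.inl '' T ∪ Sum.inr '' (S : Set ℕ)) := by
  classical
  induction S using Finset.induction_on with
  | empty =>
    refine ⟨fun _ => 0, by simp, ?_⟩
    simp only [Finset.coe_empty, image_empty, union_empty]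
    exact LinearIndepOn.image_of_comp Sum.inl _ hT
  | insert a S ha ih =>
    obtain ⟨z, h1, h2⟩ := ih
    set T' : Set (ο ⊕ ℕ) := Sum.inl '' T ∪ Sum.inr '' (S : Set ℕ) with hT'
    have hfin : T'.Finite := (hTf.image _).union (S.finite_toSet.image _)
    have hcount : ((Submodule.span ℚ ((fun o => v (Sum.elim f z o)) '' T') : Submodule ℚ ℝ) :
        Set ℝ).Countable := by
      have hc : Countable T' := hfin.countable.to_subtype
      have h3 : (fun o => v (Sum.elim f z o)) '' T' =
          range fun o : T' => v (Sum.elim f z o) := by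
        rw [image_eq_range]
      rw [h3]
      exact (inferInstance : Countable (Submodule.span ℚ
        (range fun o : T' => v (Sum.elim f z o)))).to_set
    obtain ⟨x, hx1, hx2⟩ := exists_point (hV _ hcount) (t a)
    have hz : ∀ o ∈ T', Sum.elim f (Function.update z a x) o = Sum.elim f z o := by
      rintro o (⟨o', -, rfl⟩ | ⟨m, hm, rfl⟩)
      · rfl
      · simp only [Sum.elim_inr]
        rw [Function.update_of_ne]
        rintro rfl
        exact ha hm
    refine ⟨Function.update z a x, ?_, ?_⟩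
    · intro m hm
      by_cases h : m = a
      · subst h; simpa using hx1
      · rw [Function.update_of_ne h]
        exact h1 m (Finset.mem_of_mem_insert_of_ne hm h)
    · rw [Finset.coe_insert, image_insert_eq, union_insert]
      apply LinearIndepOn.insert
      · refine h2.congr fun o ho => ?_
        unfold cls
        rw [hz o ho]
      · intro hmem
        apply hx2
        have h3 : cls V (Sum.elim f (Function.update z a x)) '' T' = cls V (Sum.elim f z) '' T' := by
          refine image_congr fun o ho => ?_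
          unfold cls
          rw [hz o ho]
        rw [h3] at hmem
        have h4 := mem_span_cls (z := v x) (V := V) (f := Sum.elim f z) (T := T') (by
          convert hmem using 1
          simp [cls])
        exact h4

end

end Pool.Agent.K4H97.SG
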