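import Mathlib

/-!
# Rational combinations of points of compact sets

Points of the Cantor space `ℕ → Fin 2` code real numbers in `[0, 1]` by their binary expansion.
`Sm A L` is the set of all sums `∑ q_l v(x_l)` with `x_l ∈ A a_l`, for the list `L` of the pairs
`(q_l, a_l)`.
-/

set_option autoImplicit false

namespace Pool.Agent.K4H97.SG

open Set

/-- points of the Cantor space -/
abbrev Pt : Type := ℕ → Fin 2

/-- finite strings -/
abbrev Str : Type := List (Fin 2)

/-- the real number coded by `x` -/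
noncomputable def v (x : Pt) : ℝ := Real.ofDigits x

theorem continuous_v : Continuous v := Real.continuous_ofDigits

/-- `u` is an initial segment of `x` -/
def Ini (u : Str) (x : Pt) : Prop := ∀ k (h : k < u.length), x k = u[k]

theorem ini_nil (x : Pt) : Ini [] x := fun k h => absurd h (Nat.not_lt_zero k)

/-- the first `k` entries of `x` -/
def tk (x : Pt) (k : ℕ) : Str := List.ofFn fun i : Fin k => x i

@[simp] theorem length_tk (x : Pt) (k : ℕ) : (tk x k).length = k := by simp [tk]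

theorem getElem_tk (x : Pt) (k i : ℕ) (h : i < (tk x k).length) : (tk x k)[i] = x i := by
  simp [tk]

theorem ini_tk {x y : Pt} {k : ℕ} : Ini (tk x k) y ↔ ∀ i < k, y i = x i := by
  constructor
  · intro h i hi
    have := h i (by simpa using hi)
    rwa [getElem_tk] at this
  · intro h i hi
    rw [getElem_tk]
    exact h i (by simpa using hi)

theorem ini_tk_self (x : Pt) (k : ℕ) : Ini (tk x k) x := ini_tk.2 fun _ _ => rfl

theorem isClosed_ini (u : Str) : IsClosed {x | Ini u x} := by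
  have : {x : Pt | Ini u x} = ⋂ k : Fin u.length, {x | x k = u[k]} := by
    ext x
    simp only [mem_ofPred_eq, mem_iInter, Ini]
    exact ⟨fun h k => h k k.2, fun h k hk => h ⟨k, hk⟩⟩
  rw [this]
  exact isClosed_iInter fun k => isClosed_eq (continuous_apply _) continuous_const

theorem isOpen_ini (u : Str) : IsOpen {x | Ini u x} := by
  have : {x : Pt | Ini u x} = ⋂ k : Fin u.length, {x | x k = u[k]} := by
    ext x
    simp only [mem_ofPred_eq, mem_iInter, Ini]
    exact ⟨fun h k => h k k.2, fun h k hk => h ⟨k, hk⟩⟩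
  rw [this]
  refine isOpen_iInter_of_finite fun k => ?_
  have hk : Continuous fun x : Pt => x k := continuous_apply _
  exact (isOpen_discrete ({u[k]} : Set (Fin 2))).preimage hk

/-- two strings are incompatible -/
def Perp (s t : Str) : Prop := ∀ x, Ini s x → ¬ Ini t x

theorem Perp.symm {s t : Str} (h : Perp s t) : Perp t s := fun x h1 h2 => h x h2 h1

theorem exists_ini (u : Str) : ∃ x, Ini u x := by
  refine ⟨fun k => u.getD k 0, fun k hk => ?_⟩
  simp [List.getD_eq_getElem?_getD, hk]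

/-! ### Sums -/

section

variable {α : Type*}

/-- all sums `∑ q_l v(x_l)` with `x_l ∈ A a_l` -/
noncomputable def Sm (A : α → Set Pt) : List (ℚ × α) → Set ℝ
  | [] => {0}
  | x :: L => {z | ∃ p ∈ A x.2, ∃ y ∈ Sm A L, z = x.1 * v p + y}

theorem mem_Sm_nil {A : α → Set Pt} {z : ℝ} : z ∈ Sm A [] ↔ z = 0 := Iff.rfl

theorem mem_Sm_cons {A : α → Set Pt} {x : ℚ × α} {L : List (ℚ × α)} {z : ℝ} :
    z ∈ Sm A (x :: L) ↔ ∃ p ∈ A x.2, ∃ y ∈ Sm A L, z = x.1 * v p + y := Iff.rfl

theorem Sm_mono {A B : α → Set Pt} {L : List (ℚ × α)} (h : ∀ x ∈ L, A x.2 ⊆ B x.2) :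
    Sm A L ⊆ Sm B L := by
  induction L with
  | nil => exact subset_rfl
  | cons x L ih =>
    rintro z ⟨p, hp, y, hy, rfl⟩
    exact ⟨p, h x (List.mem_cons_self ..) hp, y, ih (fun x hx => h x (List.mem_cons_of_mem _ hx)) hy,
      rfl⟩

theorem isCompact_Sm {A : α → Set Pt} {L : List (ℚ × α)} (h : ∀ x ∈ L, IsClosed (A x.2)) :
    IsCompact (Sm A L) := by
  induction L with
  | nil => exact isCompact_singleton
  | cons x L ih =>
    have h1 : Sm A (x :: L) = (fun p : Pt × ℝ => (x.1 : ℝ) * v p.1 + p.2) '' (A x.2 ×ˢ Sm A L) := by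
      ext z
      simp only [mem_Sm_cons, mem_image, mem_prod, Prod.exists]
      constructor
      · rintro ⟨p, hp, y, hy, rfl⟩
        exact ⟨p, y, ⟨hp, hy⟩, rfl⟩
      · rintro ⟨p, y, ⟨hp, hy⟩, rfl⟩
        exact ⟨p, hp, y, hy, rfl⟩
    rw [h1]
    refine IsCompact.image ((h x (List.mem_cons_self ..)).isCompact.prod
      (ih fun x hx => h x (List.mem_cons_of_mem _ hx))) ?_
    have := continuous_v
    fun_prop

theorem Sm_iInter {A : ℕ → α → Set Pt} (hA : ∀ a, Antitone fun k => A k a) {L : List (ℚ × α)}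
    (hc : ∀ x ∈ L, ∀ k, IsClosed (A k x.2)) {z : ℝ} (hz : ∀ k, z ∈ Sm (A k) L) :
    z ∈ Sm (fun a => ⋂ k, A k a) L := by
  induction L generalizing z with
  | nil => exact hz 0
  | cons x L ih =>
    let T : ℕ → Set Pt := fun k => {p | p ∈ A k x.2 ∧ z - x.1 * v p ∈ Sm (A k) L}
    have hcL : ∀ k, IsClosed (Sm (A k) L) := fun k =>
      (isCompact_Sm fun y hy => hc y (List.mem_cons_of_mem _ hy) k).isClosed
    have hT : ∀ k, IsClosed (T k) := by
      intro k
      refine (hc x (List.mem_cons_self ..) k).inter ((hcL k).preimage ?_)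
      have := continuous_v
      fun_prop
    have h1 : (⋂ k, T k).Nonempty := by
      apply IsCompact.nonempty_iInter_of_sequence_nonempty_isCompact_isClosed T
      · intro k p hp
        exact ⟨hA _ (Nat.le_succ k) hp.1, Sm_mono (fun y _ => hA _ (Nat.le_succ k)) hp.2⟩
      · intro k
        obtain ⟨p, hp, y, hy, h⟩ := hz k
        refine ⟨p, hp, ?_⟩
        rw [h]
        simpa using hy
      · exact (hT 0).isCompact
      · exact hT
    obtain ⟨p, hp⟩ := h1
    rw [mem_iInter] at hp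
    refine ⟨p, mem_iInter.2 fun k => (hp k).1, z - x.1 * v p,
      ih (fun y hy => hc y (List.mem_cons_of_mem _ hy)) (fun k => (hp k).2), by ring⟩

theorem Sm_append {A : α → Set Pt} {L L' : List (ℚ × α)} {y z : ℝ} (hy : y ∈ Sm A L)
    (hz : z ∈ Sm A L') : y + z ∈ Sm A (L ++ L') := by
  induction L generalizing y with
  | nil =>
    rw [mem_Sm_nil] at hy
    subst hy
    simpa using hz
  | cons x L ih =>
    obtain ⟨p, hp, w, hw, rfl⟩ := hy
    exact ⟨p, hp, w + z, ih hw, by ring⟩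

theorem Sm_append_iff {A : α → Set Pt} {L L' : List (ℚ × α)} {z : ℝ} :
    z ∈ Sm A (L ++ L') ↔ ∃ y ∈ Sm A L, ∃ w ∈ Sm A L', z = y + w := by
  constructor
  · intro h
    induction L generalizing z with
    | nil => exact ⟨0, rfl, z, h, by ring⟩
    | cons x L ih =>
      obtain ⟨p, hp, w, hw, rfl⟩ := h
      obtain ⟨y, hy, w', hw', rfl⟩ := ih hw
      exact ⟨x.1 * v p + y, ⟨p, hp, y, hy, rfl⟩, w', hw', by ring⟩
  · rintro ⟨y, hy, w, hw, rfl⟩
    exact Sm_append hy hw

/-- scaling of a list -/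
def scale (r : ℚ) (L : List (ℚ × α)) : List (ℚ × α) := L.map fun x => (r * x.1, x.2)

theorem Sm_scale {A : α → Set Pt} {L : List (ℚ × α)} {y : ℝ} (r : ℚ) (hy : y ∈ Sm A L) :
    (r : ℝ) * y ∈ Sm A (scale r L) := by
  induction L generalizing y with
  | nil =>
    rw [mem_Sm_nil] at hy
    subst hy
    simp [scale, mem_Sm_nil]
  | cons x L ih =>
    obtain ⟨p, hp, w, hw, rfl⟩ := hy
    exact ⟨p, hp, r * w, ih hw, by push_cast; ring⟩

theorem mem_scale {r : ℚ} {L : List (ℚ × α)} {x : ℚ × α} (h : x ∈ scale r L) :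
    ∃ y ∈ L, x = (r * y.1, y.2) := by
  simp only [scale, List.mem_map] at h
  obtain ⟨y, hy, rfl⟩ := h
  exact ⟨y, hy, rfl⟩

/-- the rational vector space generated by the reals coded by the points of the sets `A a` with
`a ∈ 𝒜` -/
noncomputable def W (A : α → Set Pt) (𝒜 : Set α) : Submodule ℚ ℝ := Submodule.span ℚ (⋃ a ∈ 𝒜, v '' A a)

theorem mem_W {A : α → Set Pt} {𝒜 : Set α} {z : ℝ} :
    z ∈ W A 𝒜 ↔ ∃ L : List (ℚ × α), (∀ x ∈ L, x.2 ∈ 𝒜) ∧ z ∈ Sm A L := by
  constructor
  · intro h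
    refine Submodule.span_induction (p := fun z _ => ∃ L : List (ℚ × α), (∀ x ∈ L, x.2 ∈ 𝒜) ∧
      z ∈ Sm A L) ?_ ?_ ?_ ?_ h
    · intro x hx
      simp only [mem_iUnion, mem_image] at hx
      obtain ⟨a, ha, p, hp, rfl⟩ := hx
      refine ⟨[(1, a)], by simpa using ha, p, hp, 0, rfl, by simp⟩
    · exact ⟨[], by simp, rfl⟩
    · rintro x y _ _ ⟨L, h1, h2⟩ ⟨L', h3, h4⟩
      refine ⟨L ++ L', ?_, Sm_append h2 h4⟩
      intro x hx
      rcases List.mem_append.1 hx with h | h
      · exact h1 x h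
      · exact h3 x h
    · rintro r x _ ⟨L, h1, h2⟩
      refine ⟨scale r L, ?_, ?_⟩
      · intro x hx
        obtain ⟨y, hy, rfl⟩ := mem_scale hx
        exact h1 y hy
      · have := Sm_scale r h2
        rwa [Rat.smul_def]
  · rintro ⟨L, h1, h2⟩
    induction L generalizing z with
    | nil =>
      rw [mem_Sm_nil] at h2
      subst h2
      exact Submodule.zero_mem _
    | cons x L ih =>
      obtain ⟨p, hp, w, hw, rfl⟩ := h2
      refine Submodule.add_mem _ ?_ (ih (fun x hx => h1 x (List.mem_cons_of_mem _ hx)) hw)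
      rw [← Rat.smul_def]
      apply Submodule.smul_mem
      apply Submodule.subset_span
      simp only [mem_iUnion]
      exact ⟨x.2, h1 x (List.mem_cons_self ..), p, hp, rfl⟩

theorem W_mono {A : α → Set Pt} {𝒜 ℬ : Set α} (h : 𝒜 ⊆ ℬ) : W A 𝒜 ≤ W A ℬ :=
  Submodule.span_mono (biUnion_subset_biUnion_left h)

end

/-! ### Small subspaces -/

/-- a rational subspace which contains an interval is everything -/
theorem eq_top_of_interior (V : Submodule ℚ ℝ) (h : (interior (V : Set ℝ)).Nonempty) : V = ⊤ := by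
  obtain ⟨x, hx⟩ := h
  rw [mem_interior] at hx
  obtain ⟨U, hU, hUo, hxU⟩ := hx
  obtain ⟨ε, hε, hb⟩ := Metric.isOpen_iff.1 hUo x hxU
  have hxV : x ∈ V := hU hxU
  rw [Submodule.eq_top_iff']
  intro y
  obtain ⟨n, hn⟩ := exists_nat_gt (|y| / ε)
  have hn0 : (0 : ℝ) < n := lt_of_le_of_lt (by positivity) hn
  have h1 : x + y / n ∈ V := by
    apply hU
    apply hb
    rw [Metric.mem_ball, Real.dist_eq]
    have : x + y / n - x = y / n := by ring
    rw [this, abs_div, abs_of_pos hn0, div_lt_iff₀ hn0]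
    rw [div_lt_iff₀ hε] at hn
    linarith
  have h2 : y / n ∈ V := by
    have := V.sub_mem h1 hxV
    simpa using this
  have h3 := V.smul_mem (n : ℚ) h2
  rw [Rat.smul_def] at h3
  have h4 : (((n : ℚ) : ℝ)) * (y / n) = y := by
    push_cast
    field_simp
  rwa [h4] at h3

theorem countable_lists {α : Type*} {𝒜 : Set α} (h : 𝒜.Countable) :
    {L : List (ℚ × α) | ∀ x ∈ L, x.2 ∈ 𝒜}.Countable := by
  have : Countable 𝒜 := h.to_subtype
  refine (countable_range fun L : List (ℚ × 𝒜) => L.map fun x => (x.1, x.2.1)).mono ?_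
  intro L hL
  refine ⟨L.pmap (fun x hx => (x.1, ⟨x.2, hx⟩)) hL, ?_⟩
  simp only [List.map_pmap]
  simp

theorem interior_translate {S : Set ℝ} {c : ℝ} (h : (interior ((fun y => c + y) '' S)).Nonempty) :
    (interior S).Nonempty := by
  have : (fun y => c + y) '' S = (Homeomorph.addLeft c) '' S := rfl
  rw [this, ← Homeomorph.image_interior] at h
  exact h.of_image

/-- if `W` together with countably many reals spans everything, then so does `W` alone -/
theorem top_of_sup {α : Type*} {A : α → Set Pt} (hA : ∀ a, IsClosed (A a)) {𝒜 : Set α}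
    (hc : 𝒜.Countable) {F : Submodule ℚ ℝ} (hF : (F : Set ℝ).Countable) (h : W A 𝒜 ⊔ F = ⊤) :
    W A 𝒜 = ⊤ := by
  apply eq_top_of_interior
  let ι : Set (List (ℚ × α) × ℝ) := {L : List (ℚ × α) | ∀ x ∈ L, x.2 ∈ 𝒜} ×ˢ (F : Set ℝ)
  have hι : ι.Countable := (countable_lists hc).prod hF
  have : Countable ι := hι.to_subtype
  have hcov : ⋃ i : ι, (fun y => i.1.2 + y) '' Sm A i.1.1 = (univ : Set ℝ) := by
    rw [eq_univ_iff_forall]
    intro x
    have hx : x ∈ W A 𝒜 ⊔ F := by rw [h]; trivial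
    rw [Submodule.mem_sup] at hx
    obtain ⟨y, hy, z, hz, rfl⟩ := hx
    obtain ⟨L, h1, h2⟩ := mem_W.1 hy
    simp only [mem_iUnion]
    exact ⟨⟨(L, z), ⟨h1, hz⟩⟩, y, h2, by simp [add_comm]⟩
  obtain ⟨i, hint⟩ := nonempty_interior_of_iUnion_of_closed (fun i : ι => by
    refine IsCompact.isClosed (IsCompact.image (isCompact_Sm fun x _ => hA _) ?_)
    fun_prop) hcov
  refine (interior_translate hint).mono (interior_mono ?_)
  intro y hy
  exact mem_W.2 ⟨i.1.1, i.2.1, hy⟩

/-- the cone of a string contains points outside a given proper subspace -/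
theorem exists_point {V : Submodule ℚ ℝ} (hV : V ≠ ⊤) (u : Str) : ∃ x, Ini u x ∧ v x ∉ V := by
  by_contra hcon
  push Not at hcon
  apply hV
  apply eq_top_of_interior
  let f : Pt → Pt := fun x k => if h : k < u.length then u[k] else x (k - u.length)
  have hf : ∀ x, Ini u (f x) := by
    intro x k hk
    simp [f, hk]
  have hv : ∀ x, v (f x) = v (f fun _ => 0) + ((2 : ℝ) ^ u.length)⁻¹ * v x := by
    intro x
    have h1 := Real.ofDigits_eq_sum_add_ofDigits (f x) u.length
    have h2 := Real.ofDigits_eq_sum_add_ofDigits (f fun _ => 0) u.length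
    have h3 : (fun i => f x (i + u.length)) = x := by
      funext i
      simp [f]
    have h4 : (fun i => f (fun _ => 0) (i + u.length)) = fun _ => 0 := by
      funext i
      simp [f]
    have h5 : ∑ i ∈ Finset.range u.length, Real.ofDigitsTerm (f x) i =
        ∑ i ∈ Finset.range u.length, Real.ofDigitsTerm (f fun _ => 0) i := by
      refine Finset.sum_congr rfl fun i hi => ?_
      simp [Real.ofDigitsTerm, f, Finset.mem_range.1 hi]
    have h6 : Real.ofDigits (fun _ : ℕ => (0 : Fin 2)) = 0 := by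
      simp [Real.ofDigits, Real.ofDigitsTerm]
    rw [h3] at h1
    rw [h4, h6] at h2
    unfold v
    rw [h1, h2, h5]
    push_cast
    ring
  have hmem : ∀ x, v x ∈ V := by
    intro x
    have h1 := V.sub_mem (hcon _ (hf x)) (hcon _ (hf fun _ => 0))
    rw [hv x, add_sub_cancel_left] at h1
    have h2 := V.smul_mem ((2 : ℚ) ^ u.length) h1
    rw [Rat.smul_def] at h2
    have h3 : (((2 : ℚ) ^ u.length : ℚ) : ℝ) * (((2 : ℝ) ^ u.length)⁻¹ * v x) = v x := by
      push_cast
      rw [← mul_assoc, mul_inv_cancel₀ (by positivity), one_mul]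
    rwa [h3] at h2
  have h1 : Icc (0 : ℝ) 1 ⊆ V := by
    intro y hy
    obtain ⟨x, -, rfl⟩ := Real.ofDigits_SurjOn (b := 2) one_lt_two hy
    exact hmem x
  refine Set.Nonempty.mono (interior_mono h1) ?_
  rw [interior_Icc]
  exact ⟨1 / 2, by norm_num, by norm_num⟩

/-! ### Independent families of sets -/

section

variable {α : Type*}

/-- the reals `v c`, for `a ∈ 𝒜` and `c ∈ A a`, are linearly independent -/
def Indep (A : α → Set Pt) (𝒜 : Set α) : Prop :=
  LinearIndepOn ℚ (fun c : α × Pt => v c.2) {c | c.1 ∈ 𝒜 ∧ c.2 ∈ A c.1}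

theorem W_eq_span {A : α → Set Pt} {𝒜 : Set α} :
    W A 𝒜 = Submodule.span ℚ ((fun c : α × Pt => v c.2) '' {c | c.1 ∈ 𝒜 ∧ c.2 ∈ A c.1}) := by
  unfold W
  congr 1
  ext z
  simp only [mem_iUnion, mem_image, exists_prop, mem_ofPred_eq, Prod.exists]
  constructor
  · rintro ⟨a, ha, p, hp, rfl⟩
    exact ⟨a, p, ⟨ha, hp⟩, rfl⟩
  · rintro ⟨a, p, ⟨ha, hp⟩, rfl⟩
    exact ⟨a, ha, p, hp, rfl⟩

theorem ne_top_of_indep {A : α → Set Pt} (hA : ∀ a, IsClosed (A a)) {𝒜 : Set α}
    (hc : 𝒜.Countable) (hi : Indep A 𝒜) : W A 𝒜 ≠ ⊤ := by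
  intro htop
  -- there is a point
  obtain ⟨a0, ha0, x0, hx0⟩ : ∃ a ∈ 𝒜, ∃ x, x ∈ A a := by
    by_contra hcon
    push Not at hcon
    have h1 : W A 𝒜 = ⊥ := by
      unfold W
      rw [Submodule.span_eq_bot]
      intro z hz
      simp only [mem_iUnion, mem_image] at hz
      obtain ⟨a, ha, p, hp, -⟩ := hz
      exact absurd hp (hcon a ha p)
    rw [h1] at htop
    exact bot_ne_top htop
  let B : α × Str → Set Pt := fun b => A b.1 ∩ {x | Ini b.2 x}
  let ℬ : Set (α × Str) := {b | b.1 ∈ 𝒜 ∧ (b.1 = a0 → ¬ Ini b.2 x0)}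
  have hB : ∀ b, IsClosed (B b) := fun b => (hA _).inter (isClosed_ini _)
  have hℬ : ℬ.Countable := by
    refine (hc.prod (countable_univ (α := Str))).mono ?_
    rintro ⟨a, s⟩ h
    exact ⟨h.1, trivial⟩
  have hsup : W B ℬ ⊔ Submodule.span ℚ {v x0} = ⊤ := by
    rw [eq_top_iff, ← htop]
    unfold W
    rw [Submodule.span_le]
    intro z hz
    simp only [mem_iUnion, mem_image] at hz
    obtain ⟨a, ha, p, hp, rfl⟩ := hz
    by_cases h1 : a = a0 ∧ p = x0
    · obtain ⟨rfl, rfl⟩ := h1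
      exact Submodule.mem_sup_right (Submodule.subset_span rfl)
    · apply Submodule.mem_sup_left
      apply Submodule.subset_span
      simp only [mem_iUnion, mem_image]
      by_cases h2 : a = a0
      · have h3 : p ≠ x0 := fun h => h1 ⟨h2, h⟩
        obtain ⟨k, hk⟩ := Function.ne_iff.1 h3
        refine ⟨(a, tk p (k + 1)), ⟨ha, fun _ h => ?_⟩, p, ⟨hp, ini_tk_self _ _⟩, rfl⟩
        exact hk (ini_tk.1 h k (Nat.lt_succ_self k)).symm
      · exact ⟨(a, []), ⟨ha, fun h => absurd h h2⟩, p, ⟨hp, ini_nil _⟩, rfl⟩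
  have htop' : W B ℬ = ⊤ := by
    refine top_of_sup hB hℬ ?_ hsup
    have : ((Submodule.span ℚ {v x0} : Submodule ℚ ℝ) : Set ℝ) ⊆ range fun q : ℚ => q • v x0 := by
      intro y hy
      obtain ⟨q, rfl⟩ := Submodule.mem_span_singleton.1 hy
      exact ⟨q, rfl⟩
    exact (countable_range _).mono this
  have h1 : v x0 ∈ W B ℬ := by rw [htop']; trivial
  have h2 := (linearIndepOn_iff_notMem_span.1 hi) (a0, x0) ⟨ha0, hx0⟩
  apply h2
  refine (Submodule.span_le.2 ?_ : W B ℬ ≤ _) h1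
  intro z hz
  simp only [mem_iUnion, mem_image] at hz
  obtain ⟨⟨a, s⟩, ⟨ha, hs⟩, p, ⟨hp, hps⟩, rfl⟩ := hz
  apply Submodule.subset_span
  refine ⟨(a, p), ⟨⟨ha, hp⟩, ?_⟩, rfl⟩
  intro h
  simp only [mem_singleton_iff, Prod.mk.injEq] at h
  obtain ⟨rfl, rfl⟩ := h
  exact hs rfl hps

end

end Pool.Agent.K4H97.SG
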