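import Pool.Agent.K4H97.SG.Whole
import Pool.Agent.K4H97.SG.Collapse

/-!
# The forcing notions
-/

set_option autoImplicit false
set_option linter.unusedSectionVars false

namespace Pool.Agent.K4H97.SG

open Set Cardinal Pool.Agent.Helper669.Forcing Pool.Agent.W684.FM Pool.Agent.Helper669.Lift

theorem exists_bound {κ : Cardinal.{0}} (hκ : ℵ₀ < κ.ord.cof) :
    ∀ S : Set κ.ord.ToType, S.Countable → ∃ b, ∀ s ∈ S, s < b := by
  have hc : Order.cof κ.ord.ToType = κ.ord.cof := by rw [Ordinal.cof_toType]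
  intro S hS
  by_contra hcon
  push Not at hcon
  have h1 : IsCofinal S := fun b => by
    obtain ⟨s, hs, hb⟩ := hcon b
    exact ⟨s, hs, hb⟩
  have h2 := Order.cof_le h1
  rw [hc] at h2
  have h3 : #S ≤ ℵ₀ := Cardinal.le_aleph0_iff_set_countable.2 hS
  exact absurd (h2.trans h3) (not_le.2 hκ)

theorem mk_sgn {Λ : Type} (h : ℵ₀ ≤ #Λ) : #(Λ →₀ SignType) = #Λ := by
  have : Infinite Λ := infinite_iff.2 h
  rw [Cardinal.mk_finsupp_of_infinite]
  apply max_eq_left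
  exact (mk_le_aleph0).trans h

theorem succ_pow {θ : Cardinal.{0}} (hinf : ℵ₀ ≤ θ) (h : θ ^ ℵ₀ ≤ Order.succ θ) :
    (Order.succ θ) ^ ℵ₀ = Order.succ θ := by
  set κ := Order.succ θ with hκ
  have hreg : κ.IsRegular := isRegular_succ hinf
  have hinf' : ℵ₀ ≤ κ := hinf.trans (Order.le_succ θ)
  have hb := exists_bound (κ := κ) (by
    rw [hreg.cof_ord]
    exact lt_of_le_of_lt hinf (Order.lt_succ θ))
  have hJ : #(κ.ord.ToType) = κ := by rw [mk_toType, card_ord]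
  apply le_antisymm _ (self_le_power κ one_le_aleph0)
  have h1 : κ ^ ℵ₀ = #(ℕ → κ.ord.ToType) := by simp [mk_pi, hJ]
  rw [h1]
  have h2 : ∀ f : ℕ → κ.ord.ToType, ∃ b, ∀ n, f n < b := fun f => by
    obtain ⟨b, hb'⟩ := hb (Set.range f) (Set.countable_range f)
    exact ⟨b, fun n => hb' _ ⟨n, rfl⟩⟩
  choose b hb' using h2
  have h3 : #(ℕ → κ.ord.ToType) ≤ #(Σ c : κ.ord.ToType, ℕ → Set.Iio c) := by
    refine mk_le_of_injective (f := fun f => ⟨b f, fun n => ⟨f n, hb' f n⟩⟩) ?_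
    intro f f' hff
    simp only [Sigma.mk.injEq] at hff
    obtain ⟨h4, h5⟩ := hff
    funext n
    have : ∀ (c c' : κ.ord.ToType) (u : ℕ → Set.Iio c) (u' : ℕ → Set.Iio c'), c = c' →
        HEq u u' → (u n).1 = (u' n).1 := by
      rintro c _ u u' rfl h
      rw [eq_of_heq h]
    exact this _ _ _ _ h4 h5
  refine h3.trans ?_
  rw [mk_sigma]
  refine (Cardinal.sum_le_sum _ (fun _ => κ) fun c => ?_).trans ?_
  · have h6 : #(ℕ → Set.Iio c) = #(Set.Iio c) ^ ℵ₀ := by simp [mk_pi]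
    rw [h6]
    have h7 : #(Set.Iio c) ≤ θ := by
      rw [← Order.lt_succ_iff]
      exact Cardinal.mk_Iio_ord_toType c
    exact (power_le_power_right h7).trans h
  · rw [Cardinal.sum_const', hJ]
    exact (mul_eq_self hinf').le

/-- **The iteration.** Let `κ` be a cardinal of uncountable cofinality and `κ ≤ μ = μ ^ ℵ₀`. -/
theorem exists_iteration {κ μ : Cardinal.{0}} (hκ : ℵ₀ < κ.ord.cof) (hκμ : κ ≤ μ)
    (hμ : μ ^ ℵ₀ = μ) : ∃ (P : Type) (_ : Preorder P), Nonempty P ∧ PCCC P ∧ #P ≤ μ ∧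
      (∀ p : P, p ∈ ContinuumIs P μ) ∧
      (∃ X : μ.out → ℕ → ℕ → Set P, (∀ i p, p ∈ IsFun (X i)) ∧
        ∀ i j, i ≠ j → ∀ p, p ∈ fnot (SameReal (X i) (X j))) ∧
      ∀ Y : Type, #Y = κ → ∃ K : Y → ℕ → ℚ → ℚ → Set P, (∀ y p, p ∈ NonemptyN (K y)) ∧
        (∀ y p, p ∈ AddClosedN (K y)) ∧ (∀ y y', y ≠ y' → ∀ p, p ∈ DisjointN (K y) (K y')) ∧
        ∀ p, p ∈ CoversN K := by
  have hκ0 : ℵ₀ < κ := hκ.trans_le (Ordinal.cof_ord_le κ)
  have hμ0 : ℵ₀ < μ := hκ0.trans_le hκμ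
  have hI : #(μ.ord.ToType) = μ := by rw [mk_toType, card_ord]
  have hL : #(κ.ord.ToType) = κ := by rw [mk_toType, card_ord]
  obtain ⟨nm, hnm⟩ := exists_universal (I := μ.ord.ToType) (Λ := κ.ord.ToType)
    (by rw [hI]; exact hμ0) (by rw [hI]; exact hμ) (by rw [hI, hL]; exact hκμ)
  have hΛ := exists_bound hκ
  refine ⟨Cond nm, inferInstance, inferInstance, pccc, ?_, ?_, ?_, ?_⟩
  · refine (mk_cond_le (by rw [hI]; exact hμ0.le) (by rw [hI, hL]; exact hκμ)).trans ?_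
    rw [hI]
  · intro p
    have := continuumIs (nm := nm) (by rw [hI]; exact hμ0) (by rw [hI]; exact hμ)
      (by rw [hI, hL]; exact hκμ) p
    rwa [hI] at this
  · obtain ⟨e⟩ : Nonempty (μ.out ≃ μ.ord.ToType) := Cardinal.eq.1 (by rw [mk_out, hI])
    exact ⟨fun i => CR nm (e i), fun i p => isFun_CR _ p,
      fun i j hij p => not_same_CR _ _ (fun h => hij (e.injective h)) p⟩
  · intro Y hY
    obtain ⟨e⟩ : Nonempty (Y ≃ (κ.ord.ToType →₀ SignType)) := Cardinal.eq.1 (by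
      rw [hY, mk_sgn (by rw [hL]; exact hκ0.le), hL])
    refine ⟨fun y => KN nm (e y), fun y p => nonemptyN hΛ (e y) p, fun y p => addClosed (e y) p,
      fun y y' hne p => disjointN hΛ (fun h => hne (e.injective h)) p, fun p x => ?_⟩
    rw [mem_fimp]
    intro q hq hx
    obtain ⟨r, hr, h⟩ := mem_fimp.1 (coversN hΛ hnm p x) q hq hx
    refine ⟨r, hr, ?_⟩
    rw [mem_fex]
    intro s hs
    obtain ⟨t, ht, σ, hσ⟩ := mem_fex.1 h s hs
    refine ⟨t, ht, e.symm σ, ?_⟩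
    show t ∈ InFsigma x (KN nm (e (e.symm σ)))
    rw [Equiv.apply_symm_apply]
    exact hσ

theorem down_SemigroupPartition {P : Type} [Preorder P] (Y : Type) :
    Down (SemigroupPartition P Y) := down_fex _

/-- **The ccc forcing notion.** -/
theorem exists_ccc {κ μ : Cardinal.{0}} (hκ : ℵ₀ < κ.ord.cof) (hκμ : κ ≤ μ)
    (hμ : μ ^ ℵ₀ = μ) : ∃ (P : Type) (_ : Preorder P), Nonempty P ∧ PCCC P ∧
      ∀ p : P, p ∈ CardinalsPreserved.{0, 0} P ∧ p ∈ ContinuumIs P μ ∧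
        p ∈ SemigroupPartition P κ.out := by
  obtain ⟨P, iP, h1, h2, -, h3, -, h4⟩ := exists_iteration hκ hκμ hμ
  refine ⟨P, iP, h1, h2, fun p => ⟨h2.cardinalsPreserved p, h3 p, ?_⟩⟩
  obtain ⟨K, k1, k2, k3, k4⟩ := h4 κ.out (mk_out κ)
  refine mem_fex_of_mem K ?_ ⟨⟨fun y => k1 y p, fun y => k2 y p⟩, fun y y' hne => k3 y y' hne p,
    k4 p⟩
  exact down_fand (down_fand (down_fall fun _ => down_fex _)
    (down_fall fun _ => down_fall fun _ => down_fall fun _ => down_fall fun _ => down_fimp _ _))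
    (down_fand (down_fall fun _ => down_fall fun _ => down_fall fun _ => down_fall fun _ =>
      down_fimp _ _) (down_fall fun _ => down_fimp _ _))

/-- **The model.** There is a forcing notion which forces that the continuum is the third
uncountable cardinal and that the real line has a partition into `F_σ` semigroups indexed by the
second uncountable cardinal. -/
theorem exists_model : ∃ (P : Type) (_ : Preorder P) (X₁ X₂ X₃ : Type) (_ : LinearOrder X₁)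
    (_ : LinearOrder X₂) (_ : LinearOrder X₃), Nonempty P ∧ ∀ p : P,
      p ∈ NextN P ℕ X₁ ∧ p ∈ NextN P X₁ X₂ ∧ p ∈ NextN P X₂ X₃ ∧ p ∈ ContinuumEq P X₃ ∧
      p ∈ SemigroupPartition P X₂ := by
  have hc0 : ℵ₀ ≤ 𝔠 := aleph0_le_continuum
  have hcc : (𝔠 : Cardinal.{0}) ^ ℵ₀ = 𝔠 := continuum_power_aleph0
  set κ : Cardinal.{0} := Order.succ 𝔠 with hκ
  set μ : Cardinal.{0} := Order.succ κ with hμ
  have hκ0 : ℵ₀ ≤ κ := hc0.trans (Order.le_succ _)
  have hμ0 : ℵ₀ ≤ μ := hκ0.trans (Order.le_succ _)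
  have hcκ : (𝔠 : Cardinal.{0}) < κ := Order.lt_succ _
  have hκμ : κ < μ := Order.lt_succ _
  have hκp : κ ^ ℵ₀ = κ := succ_pow hc0 (by rw [hcc]; exact Order.le_succ _)
  have hμp : μ ^ ℵ₀ = μ := succ_pow hκ0 (by rw [hκp]; exact Order.le_succ _)
  obtain ⟨P, iP, h1, h2, h3, -, ⟨X, hX1, hX2⟩, h4⟩ := exists_iteration (κ := κ) (μ := μ) (by
    rw [(isRegular_succ hc0).cof_ord]
    exact hc0.trans_lt hcκ) hκμ.le hμp
  let X₁ : Type := (ℵ₁ : Cardinal.{0}).ord.ToType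
  let X₂ : Type := κ.ord.ToType
  let X₃ : Type := μ.ord.ToType
  have e1 : #X₁ = ℵ₁ := by rw [mk_toType, card_ord]
  have e2 : #X₂ = κ := by rw [mk_toType, card_ord]
  have e3 : #X₃ = μ := by rw [mk_toType, card_ord]
  have hX₁ : ¬ Countable X₁ := by
    rw [← mk_le_aleph0_iff, e1, not_le]
    exact aleph0_lt_aleph_one
  let Q : Type := Col ((ℕ → Bool) : Type) X₁
  have hC : #(ℕ → Bool) = 𝔠 := by simp
  have hQ : #Q ≤ 𝔠 := mk_col_le hC.le (by rw [e1]; exact aleph_one_le_continuum) hc0 hcc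
  have hacb : ACB (Q × P) 𝔠 := acb_prod h2 hc0 hQ
  have hacb' : ACB (Q × P) κ := fun A hA => (hacb A hA).trans hcκ.le
  have hsc : SC Q := sc_col _ _
  refine ⟨Q × P, inferInstance, X₁, X₂, X₃, inferInstance, inferInstance, inferInstance,
    inferInstance, fun p => ⟨⟨no_inj_nat h2 hsc hX₁ p, fun b => ?_⟩, ⟨?_, fun b => ?_⟩,
      ⟨?_, fun b => ?_⟩, ?_, ?_⟩⟩
  · have h5 : #{y : X₁ // y < b} ≤ #ℕ := by
      rw [mk_nat, ← Order.lt_succ_iff, succ_aleph0]
      exact Cardinal.mk_Iio_ord_toType b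
    obtain ⟨f⟩ := Cardinal.le_def _ _ |>.1 h5
    exact inj_ground f f.injective p
  · exact no_inj hacb hc0 (by rw [e1]; exact aleph_one_le_continuum) (by rw [e2]; exact hcκ) p
  · have h5 : #{y : X₂ // y < b} ≤ #(ℕ → Bool) := by
      rw [hC, ← Order.lt_succ_iff]
      exact Cardinal.mk_Iio_ord_toType b
    obtain ⟨f⟩ := Cardinal.le_def _ _ |>.1 h5
    exact inj_comp f f.injective (inj_col hX₁ p)
  · exact no_inj hacb' hκ0 (by rw [e2]) (by rw [e3]; exact hκμ) p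
  · have h5 : #{y : X₃ // y < b} ≤ #X₂ := by
      rw [e2, ← Order.lt_succ_iff]
      exact Cardinal.mk_Iio_ord_toType b
    obtain ⟨f⟩ := Cardinal.le_def _ _ |>.1 h5
    exact inj_ground f f.injective p
  · obtain ⟨e⟩ : Nonempty (X₃ ≃ μ.out) := Cardinal.eq.1 (by rw [mk_out, e3])
    exact continuumEq_prod h2 hsc (Y := X₃) (by rw [e3]; exact hκ0.trans_lt hκμ)
      (by rw [e3]; exact hμp) (by rw [e3]; exact h3) (fun i => X (e i)) (fun i q => hX1 _ q)
      (fun i j hij q => hX2 _ _ (fun h => hij (e.injective h)) q) p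
  · obtain ⟨K, k1, k2, k3, k4⟩ := h4 X₂ e2
    exact partition_prod (ac_of_pccc h2) hsc K k1 k2 k3 k4 p

end Pool.Agent.K4H97.SG
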