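import Pool.Agent.K4H97.SG.Indep

/-!
# The pieces of the partition

A real number `z` is in the piece with the finite signature `σ` if it is a sum of numbers `ζ α`,
`α ∈ supp σ`, where `ζ α` is a rational combination of members of the sets `B (α, m)` with the
sign `σ α`.
-/

set_option autoImplicit false
set_option linter.unusedSectionVars false

namespace Pool.Agent.K4H97.SG

open Set

variable {Λ : Type}

/-- a compact subset of the piece with the signature `σ` -/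
def KS (B : Λ × ℕ → Set Pt) (σ : Λ →₀ SignType) (ℒ : σ.support → List (ℚ × ℕ)) (N : ℕ) : Set ℝ :=
  {z | ∃ ζ : σ.support → ℝ, (∀ α, ζ α ∈ Sm (fun m => B (α.1, m)) (ℒ α) ∧
    1 / ((N : ℝ) + 1) ≤ ((σ α.1 : SignType) : ℝ) * ζ α) ∧ z = ∑ α, ζ α}

theorem KS_mono {B B' : Λ × ℕ → Set Pt} (h : ∀ b, B b ⊆ B' b) (σ : Λ →₀ SignType)
    (ℒ : σ.support → List (ℚ × ℕ)) (N : ℕ) : KS B σ ℒ N ⊆ KS B' σ ℒ N := by
  rintro z ⟨ζ, h1, h2⟩
  exact ⟨ζ, fun α => ⟨Sm_mono (A := fun m => B (α.1, m)) (B := fun m => B' (α.1, m))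
    (fun x _ => h _) (h1 α).1, (h1 α).2⟩, h2⟩

/-- the possible sequences of summands -/
def KP (B : Λ × ℕ → Set Pt) (σ : Λ →₀ SignType) (ℒ : σ.support → List (ℚ × ℕ)) (N : ℕ) :
    Set (σ.support → ℝ) :=
  Set.univ.pi fun α => Sm (fun m => B (α.1, m)) (ℒ α) ∩
    {y | 1 / ((N : ℝ) + 1) ≤ ((σ α.1 : SignType) : ℝ) * y}

theorem isCompact_KP {B : Λ × ℕ → Set Pt} (hB : ∀ b, IsClosed (B b)) (σ : Λ →₀ SignType)
    (ℒ : σ.support → List (ℚ × ℕ)) (N : ℕ) : IsCompact (KP B σ ℒ N) := by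
  apply isCompact_univ_pi
  intro α
  refine (isCompact_Sm (A := fun m => B (α.1, m)) fun x _ => hB _).inter_right ?_
  exact isClosed_le continuous_const (by fun_prop)

theorem KS_eq (B : Λ × ℕ → Set Pt) (σ : Λ →₀ SignType) (ℒ : σ.support → List (ℚ × ℕ)) (N : ℕ) :
    KS B σ ℒ N = (fun ζ : σ.support → ℝ => ∑ α, ζ α) '' KP B σ ℒ N := by
  ext z
  constructor
  · rintro ⟨ζ, h1, rfl⟩
    exact ⟨ζ, fun α _ => h1 α, rfl⟩
  · rintro ⟨ζ, h1, rfl⟩
    exact ⟨ζ, fun α => h1 α trivial, rfl⟩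

theorem isCompact_KS {B : Λ × ℕ → Set Pt} (hB : ∀ b, IsClosed (B b)) (σ : Λ →₀ SignType)
    (ℒ : σ.support → List (ℚ × ℕ)) (N : ℕ) : IsCompact (KS B σ ℒ N) := by
  rw [KS_eq]
  exact (isCompact_KP hB σ ℒ N).image (by fun_prop)

theorem KS_iInter {B : ℕ → Λ × ℕ → Set Pt} (hB : ∀ k b, IsClosed (B k b))
    (hanti : ∀ b, Antitone fun k => B k b) (σ : Λ →₀ SignType) (ℒ : σ.support → List (ℚ × ℕ))
    (N : ℕ) {z : ℝ} (h : ∀ k, z ∈ KS (B k) σ ℒ N) : z ∈ KS (fun b => ⋂ k, B k b) σ ℒ N := by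
  let T : ℕ → Set (σ.support → ℝ) := fun k => KP (B k) σ ℒ N ∩ {ζ | ∑ α, ζ α = z}
  have hcl : IsClosed {ζ : σ.support → ℝ | ∑ α, ζ α = z} :=
    isClosed_eq (by fun_prop) continuous_const
  have h1 : (⋂ k, T k).Nonempty := by
    apply IsCompact.nonempty_iInter_of_sequence_nonempty_isCompact_isClosed T
    · rintro k ζ ⟨hζ, hz⟩
      refine ⟨fun α hα => ⟨Sm_mono (A := fun m => B (k + 1) (α.1, m)) (B := fun m => B k (α.1, m))
        (fun x _ => ?_) (hζ α hα).1, (hζ α hα).2⟩, hz⟩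
      exact hanti _ (Nat.le_succ k)
    · intro k
      obtain ⟨ζ, h1, h2⟩ := h k
      exact ⟨ζ, fun α _ => h1 α, h2.symm⟩
    · exact (isCompact_KP (hB 0) σ ℒ N).inter_right hcl
    · intro k
      exact (isCompact_KP (hB k) σ ℒ N).isClosed.inter hcl
  obtain ⟨ζ, hζ⟩ := h1
  rw [mem_iInter] at hζ
  refine ⟨ζ, fun α => ⟨?_, ((hζ 0).1 α trivial).2⟩, (hζ 0).2.symm⟩
  exact Sm_iInter (A := fun k m => B k (α.1, m)) (fun m => hanti _) (fun _ _ _ => hB _ _)
    fun k => ((hζ k).1 α trivial).1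

theorem KS_add {B : Λ × ℕ → Set Pt} {σ : Λ →₀ SignType} {ℒ ℒ' : σ.support → List (ℚ × ℕ)}
    {N N' : ℕ} {z z' : ℝ} (h : z ∈ KS B σ ℒ N) (h' : z' ∈ KS B σ ℒ' N') :
    z + z' ∈ KS B σ (fun α => ℒ α ++ ℒ' α) N := by
  obtain ⟨ζ, h1, rfl⟩ := h
  obtain ⟨ζ', h2, rfl⟩ := h'
  refine ⟨fun α => ζ α + ζ' α, fun α => ⟨Sm_append (h1 α).1 (h2 α).1, ?_⟩, ?_⟩
  · have h3 : (0 : ℝ) ≤ 1 / ((N' : ℝ) + 1) := by positivity
    have h4 := (h1 α).2
    have h5 := (h2 α).2
    rw [mul_add]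
    linarith
  · rw [Finset.sum_add_distrib]

theorem sign_of {s : SignType} (hs : s ≠ 0) {N : ℕ} {y : ℝ} (h : 1 / ((N : ℝ) + 1) ≤ (s : ℝ) * y) :
    SignType.sign y = s := by
  have hN : (0 : ℝ) < 1 / ((N : ℝ) + 1) := by positivity
  rcases s with _ | _ | _
  · exact absurd rfl hs
  · have h1 : y < 0 := by
      have : ((SignType.neg : SignType) : ℝ) = -1 := rfl
      rw [this] at h
      linarith
    exact sign_neg h1
  · have h1 : 0 < y := by
      have : ((SignType.pos : SignType) : ℝ) = 1 := rfl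
      rw [this] at h
      linarith
    exact sign_pos h1

open Classical in
/-- the signature of a point is determined by its representation -/
theorem KS_repr {B : Λ × ℕ → Set Pt} {𝒜 : Set (Λ × ℕ)} {σ : Λ →₀ SignType}
    {ℒ : σ.support → List (ℚ × ℕ)} {N : ℕ} (h𝒜 : ∀ α ∈ σ.support, ∀ m, (α, m) ∈ 𝒜) {z : ℝ}
    (h : z ∈ KS B σ ℒ N) : ∃ l ∈ Finsupp.supported ℚ ℚ {c : (Λ × ℕ) × Pt | c.1 ∈ 𝒜 ∧ c.2 ∈ B c.1},
      Finsupp.linearCombination ℚ (fun c : (Λ × ℕ) × Pt => v c.2) l = z ∧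
      ∀ α, σ α = SignType.sign (Finsupp.linearCombination ℚ (fun c : (Λ × ℕ) × Pt => v c.2)
        (l.filter fun c => c.1.1 = α)) := by
  obtain ⟨ζ, h1, rfl⟩ := h
  have hl : ∀ (α : Λ) (L : List (ℚ × ℕ)) (y : ℝ), y ∈ Sm (fun m => B (α, m)) L →
      ∃ l : ((Λ × ℕ) × Pt) →₀ ℚ, (∀ c ∈ l.support, c.1.1 = α ∧ c.2 ∈ B c.1) ∧
        Finsupp.linearCombination ℚ (fun c : (Λ × ℕ) × Pt => v c.2) l = y := by
    intro α L
    induction L with
    | nil =>
      intro y hy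
      rw [mem_Sm_nil] at hy
      subst hy
      exact ⟨0, by simp, by simp⟩
    | cons x L ih =>
      rintro y ⟨p, hp, w, hw, rfl⟩
      obtain ⟨l, h2, h3⟩ := ih w hw
      refine ⟨Finsupp.single ((α, x.2), p) x.1 + l, ?_, ?_⟩
      · intro c hc
        rcases Finset.mem_union.1 (Finsupp.support_add hc) with h4 | h4
        · have := Finsupp.support_single_subset h4
          rw [Finset.mem_singleton] at this
          subst this
          exact ⟨rfl, hp⟩
        · exact h2 c h4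
      · rw [map_add, Finsupp.linearCombination_single, h3, Rat.smul_def]
  choose l hl1 hl2 using fun α : σ.support => hl α.1 (ℒ α) (ζ α) (h1 α).1
  have hfilt : ∀ β : Λ, (∑ α, l α).filter (fun c => c.1.1 = β) =
      ∑ α, (l α).filter fun c => c.1.1 = β := by
    intro β
    exact map_sum (Finsupp.filterAddHom fun c : (Λ × ℕ) × Pt => c.1.1 = β) l Finset.univ
  have hf1 : ∀ (α : σ.support) (β : Λ), α.1 = β → (l α).filter (fun c => c.1.1 = β) = l α := by
    rintro α β rfl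
    rw [Finsupp.filter_eq_self_iff]
    intro c hc
    exact (hl1 α c (Finsupp.mem_support_iff.2 hc)).1
  have hf2 : ∀ (α : σ.support) (β : Λ), α.1 ≠ β → (l α).filter (fun c => c.1.1 = β) = 0 := by
    intro α β hne
    rw [Finsupp.filter_eq_zero_iff]
    intro c hc
    by_contra h2
    exact hne ((hl1 α c (Finsupp.mem_support_iff.2 h2)).1.symm.trans hc)
  refine ⟨∑ α, l α, ?_, ?_, ?_⟩
  · apply Submodule.sum_mem
    intro α _
    rw [Finsupp.mem_supported]
    intro c hc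
    obtain ⟨h2, h3⟩ := hl1 α c hc
    refine ⟨?_, h3⟩
    have := h𝒜 α.1 α.2 c.1.2
    rwa [← h2] at this
  · rw [map_sum]
    exact Finset.sum_congr rfl fun α _ => hl2 α
  · intro β
    rw [hfilt]
    by_cases hβ : β ∈ σ.support
    · rw [Finset.sum_eq_single (⟨β, hβ⟩ : σ.support)]
      · rw [hf1 ⟨β, hβ⟩ β rfl, hl2]
        exact (sign_of (Finsupp.mem_support_iff.1 hβ) (h1 ⟨β, hβ⟩).2).symm
      · intro α _ hne
        exact hf2 α β fun h => hne (Subtype.ext h)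
      · intro h
        exact absurd (Finset.mem_univ _) h
    · rw [Finset.sum_eq_zero]
      · rw [map_zero, sign_zero]
        exact Finsupp.notMem_support_iff.1 hβ
      · intro α _
        apply hf2
        rintro rfl
        exact hβ α.2

theorem KS_disjoint {B : Λ × ℕ → Set Pt} {𝒜 : Set (Λ × ℕ)} (hi : Indep B 𝒜)
    {σ σ' : Λ →₀ SignType} (hσ : ∀ α ∈ σ.support, ∀ m, (α, m) ∈ 𝒜)
    (hσ' : ∀ α ∈ σ'.support, ∀ m, (α, m) ∈ 𝒜) {ℒ : σ.support → List (ℚ × ℕ)} {N : ℕ}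
    {ℒ' : σ'.support → List (ℚ × ℕ)} {N' : ℕ} {z : ℝ} (h : z ∈ KS B σ ℒ N)
    (h' : z ∈ KS B σ' ℒ' N') : σ = σ' := by
  obtain ⟨l, h1, h2, h3⟩ := KS_repr hσ h
  obtain ⟨l', h1', h2', h3'⟩ := KS_repr hσ' h'
  have hl : l = l' := by
    unfold Indep at hi
    rw [linearIndepOn_iff] at hi
    have := hi (l - l') (Submodule.sub_mem _ h1 h1') (by rw [map_sub, h2, h2', sub_self])
    exact sub_eq_zero.1 this
  subst hl
  ext α
  rw [h3, h3']

/-- every combination is in a piece -/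
theorem KS_cover {B : Λ × ℕ → Set Pt} {L : List (ℚ × (Λ × ℕ))} {z : ℝ}
    (hz : z ∈ Sm B L) : ∃ (σ : Λ →₀ SignType) (ℒ : σ.support → List (ℚ × ℕ)) (N : ℕ),
      (∀ α ∈ σ.support, ∃ x ∈ L, x.2.1 = α) ∧ z ∈ KS B σ ℒ N := by
  classical
  let Lα : List (ℚ × (Λ × ℕ)) → Λ → List (ℚ × ℕ) := fun L α =>
    (L.filter fun x => x.2.1 = α).map fun x => (x.1, x.2.2)
  have key : ∀ (L : List (ℚ × (Λ × ℕ))) (z : ℝ), z ∈ Sm B L → ∃ ζ : Λ → ℝ,
      (∀ α, ζ α ∈ Sm (fun m => B (α, m)) (Lα L α)) ∧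
      ∀ S : Finset Λ, (∀ x ∈ L, x.2.1 ∈ S) → z = ∑ α ∈ S, ζ α := by
    intro L
    induction L with
    | nil =>
      intro z hz
      rw [mem_Sm_nil] at hz
      subst hz
      exact ⟨fun _ => 0, fun α => rfl, fun S _ => by simp⟩
    | cons x L ih =>
      rintro z ⟨p, hp, y, hy, rfl⟩
      obtain ⟨ζ, h1, h2⟩ := ih y hy
      refine ⟨fun α => (if x.2.1 = α then (x.1 : ℝ) * v p else 0) + ζ α, ?_, ?_⟩
      · intro α
        by_cases h : x.2.1 = α
        · have e : Lα (x :: L) α = (x.1, x.2.2) :: Lα L α := by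
            simp [Lα, h]
          rw [e]
          show (if x.2.1 = α then (x.1 : ℝ) * v p else 0) + ζ α ∈ _
          rw [if_pos h]
          refine ⟨p, ?_, ζ α, h1 α, rfl⟩
          subst h
          exact hp
        · have e : Lα (x :: L) α = Lα L α := by
            simp [Lα, h]
          rw [e]
          show (if x.2.1 = α then (x.1 : ℝ) * v p else 0) + ζ α ∈ _
          rw [if_neg h, zero_add]
          exact h1 α
      · intro S hS
        rw [Finset.sum_add_distrib, Finset.sum_ite_eq, if_pos (hS x (List.mem_cons_self ..)),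
          ← h2 S fun w hw => hS w (List.mem_cons_of_mem _ hw)]
  obtain ⟨ζ, h1, h2⟩ := key L z hz
  set S : Finset Λ := (L.map fun x => x.2.1).toFinset with hS
  have hzero : ∀ α, α ∉ S → ζ α = 0 := by
    intro α hα
    have h3 := h1 α
    have h4 : Lα L α = [] := by
      simp only [Lα, List.map_eq_nil_iff, List.filter_eq_nil_iff, decide_eq_true_eq]
      intro x hx h5
      apply hα
      rw [hS, List.mem_toFinset, List.mem_map]
      exact ⟨x, hx, h5⟩
    rw [h4] at h3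
    exact h3
  let σ : Λ →₀ SignType := Finsupp.onFinset S (fun α => SignType.sign (ζ α)) (by
    intro α hα
    by_contra h3
    rw [hzero α h3, sign_zero] at hα
    exact hα rfl)
  have hσ : ∀ α, σ α = SignType.sign (ζ α) := fun α => rfl
  have hsupp : ∀ α, α ∈ σ.support ↔ ζ α ≠ 0 := by
    intro α
    rw [Finsupp.mem_support_iff, hσ, Ne, sign_eq_zero_iff]
  obtain ⟨N, hN⟩ : ∃ N : ℕ, ∀ α ∈ σ.support, 1 / ((N : ℝ) + 1) ≤ |ζ α| := by
    have h3 : ∀ α, ∃ N : ℕ, ζ α ≠ 0 → 1 / ((N : ℝ) + 1) ≤ |ζ α| := by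
      intro α
      by_cases h : ζ α = 0
      · exact ⟨0, fun h' => absurd h h'⟩
      · obtain ⟨N, hN⟩ := exists_nat_one_div_lt (abs_pos.2 h)
        exact ⟨N, fun _ => hN.le⟩
    choose N hN using h3
    refine ⟨σ.support.sup N, fun α hα => ?_⟩
    refine le_trans ?_ (hN α ((hsupp α).1 hα))
    have : (N α : ℝ) ≤ (σ.support.sup N : ℕ) := by
      exact_mod_cast Finset.le_sup (f := N) hα
    apply one_div_le_one_div_of_le <;> [positivity; linarith]
  refine ⟨σ, fun α => Lα L α.1, N, ?_, fun α => ζ α.1, fun α => ⟨h1 α.1, ?_⟩, ?_⟩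
  · intro α hα
    have h3 : α ∈ S := by
      by_contra h4
      exact (hsupp α).1 hα (hzero α h4)
    rw [hS, List.mem_toFinset, List.mem_map] at h3
    exact h3
  · rw [hσ]
    have : ((SignType.sign (ζ α.1) : SignType) : ℝ) * ζ α.1 = |ζ α.1| := by
      exact sign_mul_self _
    rw [this]
    exact hN α.1 α.2
  · rw [h2 S (fun x hx => by
      rw [hS, List.mem_toFinset, List.mem_map]
      exact ⟨x, hx, rfl⟩)]
    rw [Finset.sum_coe_sort σ.support ζ]
    symm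
    apply Finset.sum_subset
    · intro α hα
      by_contra h4
      exact (hsupp α).1 hα (hzero α h4)
    · intro α _ hα
      by_contra h4
      exact hα ((hsupp α).2 h4)

end Pool.Agent.K4H97.SG
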