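import Pool.Agent.K4H97.SG.Card
import Pool.Agent.K4H97.SG.Defs
import Pool.Agent.K4H97.SG.CardDefs
import Pool.Agent.Helper669.Lift

/-!
# Products with a forcing notion adding no countable sequences
-/

set_option autoImplicit false
set_option linter.unusedSectionVars false

namespace Pool.Agent.K4H97.SG

open Set Cardinal Pool.Agent.Helper669.Forcing Pool.Agent.W684.FM Pool.Agent.Helper669.Lift

section

variable {Q P : Type} [Preorder Q] [Preorder P]

/-! ### Transfer of the formulas -/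

theorem rel_isReal {q : Q} {x : ℚ → Set (Q × P)} {x' : ℚ → Set P}
    (h : ∀ a, Rel q (meets (x a)) (meets (x' a))) : Rel q (IsReal x) (IsReal x') :=
  Rel.and (Rel.and (Rel.ex h) (Rel.ex fun a => (h a).not))
    (Rel.and (Rel.all fun a => Rel.all fun b => Rel.all fun _ => Rel.imp (h a) (h b))
      (Rel.all fun a => Rel.imp (h a) (Rel.ex fun b => Rel.and (Rel.ground q _) (h b))))

theorem rel_inSumCut {q : Q} {x y : ℚ → Set (Q × P)} {x' y' : ℚ → Set P}
    (h : ∀ a, Rel q (meets (x a)) (meets (x' a))) (h' : ∀ a, Rel q (meets (y a)) (meets (y' a)))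
    (c : ℚ) : Rel q (InSumCut x y c) (InSumCut x' y' c) :=
  Rel.ex fun a => Rel.ex fun b => Rel.and (Rel.ground q _) (Rel.and (h a) (h' b))

theorem rel_isSum {q : Q} {x y z : ℚ → Set (Q × P)} {x' y' z' : ℚ → Set P}
    (h : ∀ a, Rel q (meets (x a)) (meets (x' a))) (h' : ∀ a, Rel q (meets (y a)) (meets (y' a)))
    (h'' : ∀ a, Rel q (meets (z a)) (meets (z' a))) : Rel q (IsSum x y z) (IsSum x' y' z') :=
  Rel.all fun c => Rel.and (Rel.imp (h'' c) (rel_inSumCut h h' c))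
    (Rel.imp (rel_inSumCut h h' c) (h'' c))

theorem rel_between {q : Q} {x : ℚ → Set (Q × P)} {x' : ℚ → Set P}
    (h : ∀ a, Rel q (meets (x a)) (meets (x' a))) (a b : ℚ) :
    Rel q (Between x a b) (Between x' a b) :=
  Rel.and (h a) (Rel.ex fun c => Rel.and (Rel.ground q _) (h c).not)

/-- the code of an `F_σ` set as a name for the product -/
def upK (Q : Type) {P : Type} (K : ℕ → ℚ → ℚ → Set P) : ℕ → ℚ → ℚ → Set (Q × P) :=
  fun n a b => up Q (K n a b)

theorem rel_inFsigma {q : Q} {x : ℚ → Set (Q × P)} {x' : ℚ → Set P}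
    (h : ∀ a, Rel q (meets (x a)) (meets (x' a))) (K : ℕ → ℚ → ℚ → Set P) :
    Rel q (InFsigma x (upK Q K)) (InFsigma x' K) :=
  Rel.ex fun n => Rel.all fun a => Rel.all fun b =>
    Rel.imp (rel_between h a b) (rel_up q (K n a b)).not

theorem down_InFsigma {P : Type} [Preorder P] (x : ℚ → Set P) (K : ℕ → ℚ → ℚ → Set P) :
    Down (InFsigma x K) := down_fex _

theorem down_IsReal' {P : Type} [Preorder P] (x : ℚ → Set P) : Down (IsReal x) :=
  down_fand (down_fand (down_fex _) (down_fex _))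
    (down_fand (down_fall fun _ => down_fall fun _ => down_fall fun _ => down_fimp _ _)
      (down_fall fun _ => down_fimp _ _))

theorem partition_prod (hP : AC P) (hQ : SC Q) {Y : Type} (K : Y → ℕ → ℚ → ℚ → Set P)
    (h1 : ∀ y p, p ∈ NonemptyN (K y)) (h2 : ∀ y p, p ∈ AddClosedN (K y))
    (h3 : ∀ y y', y ≠ y' → ∀ p, p ∈ DisjointN (K y) (K y')) (h4 : ∀ p, p ∈ CoversN K)
    (d : Q × P) : d ∈ SemigroupPartition (Q × P) Y := by
  refine mem_fex_of_mem (fun y => upK Q (K y)) ?_ ⟨⟨?_, ?_⟩, ?_, ?_⟩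
  · exact down_fand (down_fand (down_fall fun _ => down_fex _)
      (down_fall fun _ => down_fall fun _ => down_fall fun _ => down_fall fun _ => down_fimp _ _))
      (down_fand (down_fall fun _ => down_fall fun _ => down_fall fun _ => down_fall fun _ =>
        down_fimp _ _) (down_fall fun _ => down_fimp _ _))
  · intro y
    unfold NonemptyN
    rw [mem_fex]
    rintro ⟨q1, p1⟩ _
    obtain ⟨p2, hp2, x, hx1, hx2⟩ := mem_fex.1 (h1 y p1) p1 le_rfl
    have hx : ∀ a, Rel q1 (meets (up Q (x a))) (meets (x a)) := fun a => rel_up q1 (x a)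
    exact ⟨(q1, p2), ⟨le_rfl, hp2⟩, fun a => up Q (x a),
      (rel_isReal hx q1 le_rfl p2).2 hx1, (rel_inFsigma hx (K y) q1 le_rfl p2).2 hx2⟩
  · intro y x x' x''
    rw [mem_fimp]
    rintro ⟨q1, p1⟩ _ h
    obtain ⟨q2, hq2, N, hN⟩ := reduce hP hQ (Λ := ℚ ⊕ ℚ ⊕ ℚ)
      (Sum.elim x (Sum.elim x' x'')) q1
    have e1 : ∀ a, Rel q2 (meets (x a)) (meets (N (Sum.inl a))) := fun a => hN (Sum.inl a)
    have e2 : ∀ a, Rel q2 (meets (x' a)) (meets (N (Sum.inr (Sum.inl a)))) :=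
      fun a => hN (Sum.inr (Sum.inl a))
    have e3 : ∀ a, Rel q2 (meets (x'' a)) (meets (N (Sum.inr (Sum.inr a)))) :=
      fun a => hN (Sum.inr (Sum.inr a))
    have hle : ((q2, p1) : Q × P) ≤ (q1, p1) := ⟨hq2, le_rfl⟩
    have hr : Rel q2 (fand (fand (IsReal x) (fand (IsReal x') (fand (IsReal x'')
        (IsSum x x' x'')))) (fand (InFsigma x (upK Q (K y))) (InFsigma x' (upK Q (K y)))))
        _ := Rel.and (Rel.and (rel_isReal e1) (Rel.and (rel_isReal e2) (Rel.and (rel_isReal e3)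
          (rel_isSum e1 e2 e3)))) (Rel.and (rel_inFsigma e1 (K y)) (rel_inFsigma e2 (K y)))
    have h' := (hr q2 le_rfl p1).1 (by
      obtain ⟨⟨g1, g2, g3, g4⟩, g5, g6⟩ := h
      refine ⟨⟨?_, ?_, ?_, ?_⟩, down_fex _ _ g5 _ hle, down_fex _ _ g6 _ hle⟩
      · exact down_IsReal' _ _ g1 _ hle
      · exact down_IsReal' _ _ g2 _ hle
      · exact down_IsReal' _ _ g3 _ hle
      · exact down_fall (fun _ => down_fand (down_fimp _ _) (down_fimp _ _)) _ g4 _ hle)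
    obtain ⟨p2, hp2, h5⟩ := mem_fimp.1 (h2 y p1 _ _ _) p1 le_rfl h'
    exact ⟨(q2, p2), ⟨hq2, hp2⟩, (rel_inFsigma e3 (K y) q2 le_rfl p2).2 h5⟩
  · intro y y' hne x
    rw [mem_fimp]
    rintro ⟨q1, p1⟩ _ h
    obtain ⟨q2, hq2, N, hN⟩ := reduce hP hQ (Λ := ℚ) x q1
    have hle : ((q2, p1) : Q × P) ≤ (q1, p1) := ⟨hq2, le_rfl⟩
    have h' := (rel_isReal hN q2 le_rfl p1).1 (down_IsReal' _ _ h _ hle)
    obtain ⟨p2, hp2, h5⟩ := mem_fimp.1 (h3 y y' hne p1 _) p1 le_rfl h'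
    exact ⟨(q2, p2), ⟨hq2, hp2⟩, ((Rel.and (rel_inFsigma hN (K y))
      (rel_inFsigma hN (K y'))).not q2 le_rfl p2).2 h5⟩
  · intro x
    rw [mem_fimp]
    rintro ⟨q1, p1⟩ _ h
    obtain ⟨q2, hq2, N, hN⟩ := reduce hP hQ (Λ := ℚ) x q1
    have hle : ((q2, p1) : Q × P) ≤ (q1, p1) := ⟨hq2, le_rfl⟩
    have h' := (rel_isReal hN q2 le_rfl p1).1 (down_IsReal' _ _ h _ hle)
    obtain ⟨p2, hp2, h5⟩ := mem_fimp.1 (h4 p1 _) p1 le_rfl h'
    exact ⟨(q2, p2), ⟨hq2, hp2⟩, (Rel.ex fun y => rel_inFsigma hN (K y)) q2 le_rfl p2 |>.2 h5⟩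

end

end Pool.Agent.K4H97.SG
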