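import Pool.Agent.K4H97.SG.Force

/-!
# The pieces cover the real line
-/

set_option autoImplicit false
set_option linter.unusedSectionVars false

namespace Pool.Agent.K4H97.SG

open Set Pre Pool.Agent.Helper669.Forcing Pool.Agent.W684.FM

section Digits

variable {P : Type} [Preorder P]

/-- the real named by `x` is less than `r` -/
def LtN (x : ℚ → Set P) (r : ℚ) : Set P := {s | ∃ c < r, s ∈ fnot (meets (x c))}

/-- the real named by `x` is at least `r` -/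
def GeN (x : ℚ → Set P) (r : ℚ) : Set P := {s | ∀ c < r, s ∈ meets (x c)}

theorem down_LtN (x : ℚ → Set P) (r : ℚ) : Down (LtN x r) := by
  rintro p ⟨c, hc, h⟩ q hq
  exact ⟨c, hc, down_fnot _ _ h _ hq⟩

theorem down_GeN (x : ℚ → Set P) (r : ℚ) : Down (GeN x r) :=
  fun _ h _ hq c hc => down_meets _ _ (h c hc) _ hq

theorem dense_LG (x : ℚ → Set P) (r : ℚ) (q : P) : ∃ s ≤ q, s ∈ LtN x r ∨ s ∈ GeN x r := by
  by_cases h : q ∈ GeN x r
  · exact ⟨q, le_rfl, Or.inr h⟩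
  · simp only [GeN, mem_ofPred_eq, not_forall] at h
    obtain ⟨c, hc, h⟩ := h
    simp only [meets, mem_ofPred_eq, not_forall] at h
    obtain ⟨s, hs, h⟩ := h
    push Not at h
    refine ⟨s, hs, Or.inl ⟨c, hc, fun t ht hm => ?_⟩⟩
    obtain ⟨u, hu, w, hw, huw⟩ := hm t le_rfl
    exact h u (hu.trans ht) w hw huw

theorem ev_LtN {g : ℕ → P} {x : ℚ → Set P} {ρ : ℝ} (h : Ev g x ρ) {r : ℚ} {k : ℕ}
    (hk : g k ∈ LtN x r) : ρ < r := by
  obtain ⟨c, hc, h1⟩ := hk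
  have h2 := h.le h1
  have h3 : (c : ℝ) < r := by exact_mod_cast hc
  linarith

theorem ev_GeN {g : ℕ → P} {x : ℚ → Set P} {ρ : ℝ} (h : Ev g x ρ) {r : ℚ} {k : ℕ}
    (hk : g k ∈ GeN x r) : (r : ℝ) ≤ ρ := by
  by_contra hcon
  push Not at hcon
  obtain ⟨c, hc1, hc2⟩ := exists_rat_btwn hcon
  have h1 := h.lt (hk c (by exact_mod_cast hc2))
  linarith

/-- the cut points -/
def cp (K m j : ℕ) : ℚ := 2 * K * j / 2 ^ (m + 1) - K

/-- the real is in the dyadic interval number `j` -/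
def Dig (x : ℚ → Set P) (K m j : ℕ) : Set P := {s | s ∈ GeN x (cp K m j) ∧ s ∈ LtN x (cp K m (j + 1))}

/-- the digit number `m` has the parity `a` -/
def ND (x : ℚ → Set P) (K m a : ℕ) : Set P := {s | ∃ j, j % 2 = a ∧ s ∈ Dig x K m j}

theorem down_ND (x : ℚ → Set P) (K m a : ℕ) : Down (ND x K m a) := by
  rintro p ⟨j, hj, h1, h2⟩ q hq
  exact ⟨j, hj, down_GeN _ _ _ h1 _ hq, down_LtN _ _ _ h2 _ hq⟩

theorem le_floor_iff {K m j : ℕ} (hK : 0 < K) {ρ : ℝ} :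
    ((cp K m j : ℚ) : ℝ) ≤ ρ ↔ (j : ℝ) ≤ (ρ + K) / (2 * K) * 2 ^ (m + 1) := by
  have hK' : (0 : ℝ) < K := by exact_mod_cast hK
  have h2 : (0 : ℝ) < 2 ^ (m + 1) := by positivity
  unfold cp
  push_cast
  rw [div_mul_eq_mul_div, le_div_iff₀ (by positivity), sub_le_iff_le_add, div_le_iff₀ h2]
  constructor <;> intro h <;> nlinarith [h]

theorem digits_of_dig {K m j : ℕ} (hK : 0 < K) {ρ : ℝ} (h1 : ((cp K m j : ℚ) : ℝ) ≤ ρ)
    (h2 : ρ < ((cp K m (j + 1) : ℚ) : ℝ)) :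
    Real.digits ((ρ + K) / (2 * K)) 2 m = Fin.ofNat 2 j := by
  have h3 := (le_floor_iff hK).1 h1
  have h4 : (ρ + K) / (2 * K) * 2 ^ (m + 1) < (j : ℝ) + 1 := by
    rw [← not_le]
    intro h
    apply not_le.2 h2
    rw [le_floor_iff hK]
    push_cast
    exact h
  unfold Real.digits
  have h5 : ⌊(ρ + K) / (2 * K) * ((2 : ℕ) : ℝ) ^ (m + 1)⌋₊ = j := by
    rw [Nat.floor_eq_iff (by push_cast; exact le_trans (Nat.cast_nonneg j) h3)]
    push_cast
    exact ⟨h3, h4⟩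
  rw [h5]

theorem ev_Dig {g : ℕ → P} {x : ℚ → Set P} {ρ : ℝ} (h : Ev g x ρ) {K m j k : ℕ} (hK : 0 < K)
    (hk : g k ∈ Dig x K m j) : Real.digits ((ρ + K) / (2 * K)) 2 m = Fin.ofNat 2 j :=
  digits_of_dig hK (ev_GeN h hk.1) (ev_LtN h hk.2)

theorem dense_ND {x : ℚ → Set P} {K m : ℕ} (hK : 0 < K) {a b : ℚ} (ha : -(K : ℚ) < a)
    {p : P} (hx : p ∈ IsReal x) (hpa : p ∈ meets (x a)) (_hb : b < K) (_hpb : p ∈ fnot (meets (x b)))
    (q : P) (hq : q ≤ p) : ∃ s ≤ q, s ∈ ND x K m 1 ∨ s ∈ ND x K m 0 := by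
  obtain ⟨g, hg0, hg, hgD⟩ := exists_seq q (RD x ∪ range fun r => {s | s ∈ LtN x r ∨ s ∈ GeN x r})
    ((countable_RD x).union (countable_range _)) (by
    rintro D (h1 | ⟨r, rfl⟩) s hs
    · exact dense_RD hx D h1 s (hs.trans hq)
    · exact dense_LG x r s)
  obtain ⟨ρ, hρ⟩ := exists_ev hg (k0 := 0) (x := x) (by
    rw [hg0]
    exact down_IsReal x _ hx _ hq) (fun D hD => hgD D (Or.inl hD))
  have h1 : (a : ℝ) < ρ := hρ.lt (k := 0) (by rw [hg0]; exact down_meets _ _ hpa _ hq)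
  have hK' : (0 : ℝ) < K := by exact_mod_cast hK
  have ha' : -(K : ℝ) < a := by exact_mod_cast ha
  have hy : 0 ≤ (ρ + K) / (2 * K) * 2 ^ (m + 1) := by
    have : 0 < ρ + K := by linarith
    positivity
  set j := ⌊(ρ + K) / (2 * K) * (2 : ℝ) ^ (m + 1)⌋₊ with hj
  have h2 : ((cp K m j : ℚ) : ℝ) ≤ ρ := by
    rw [le_floor_iff hK]
    exact Nat.floor_le hy
  have h3 : ρ < ((cp K m (j + 1) : ℚ) : ℝ) := by
    rw [← not_le, le_floor_iff hK]
    push Not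
    push_cast
    exact Nat.lt_floor_add_one _
  obtain ⟨k1, hk1⟩ := hgD _ (Or.inr ⟨cp K m j, rfl⟩)
  obtain ⟨k2, hk2⟩ := hgD _ (Or.inr ⟨cp K m (j + 1), rfl⟩)
  have h4 : g k1 ∈ GeN x (cp K m j) := by
    rcases hk1 with h | h
    · exact absurd (ev_LtN hρ h) (not_lt.2 h2)
    · exact h
  have h5 : g k2 ∈ LtN x (cp K m (j + 1)) := by
    rcases hk2 with h | h
    · exact h
    · exact absurd (ev_GeN hρ h) (not_le.2 h3)
  have h6 : g (max k1 k2) ∈ Dig x K m j := ⟨down_GeN _ _ _ h4 _ (hg (le_max_left _ _)),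
    down_LtN _ _ _ h5 _ (hg (le_max_right _ _))⟩
  refine ⟨g (max k1 k2), by rw [← hg0]; exact hg (Nat.zero_le _), ?_⟩
  rcases Nat.mod_two_eq_zero_or_one j with h | h
  · exact Or.inr ⟨j, h, h6⟩
  · exact Or.inl ⟨j, h, h6⟩

end Digits

variable {I Λ : Type} [LinearOrder I] [LinearOrder Λ] [WellFoundedLT Λ] {nm : Names I Λ}

theorem pure_conv {ξ : Λ} {L : List (ℚ × Atom I Λ)} (h : Pure ξ L) :
    ∃ L' : List (ℚ × (Λ × ℕ)), ∀ g : ℕ → Cond nm, Sm (Lim g) L ⊆ Sm (LimC g) L' := by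
  induction L with
  | nil => exact ⟨[], fun g => subset_rfl⟩
  | cons x L ih =>
    obtain ⟨L', hL'⟩ := ih fun y hy => h y (List.mem_cons_of_mem _ hy)
    obtain ⟨b, hb, -⟩ := h x (List.mem_cons_self ..)
    refine ⟨(x.1, b) :: L', fun g => ?_⟩
    rintro z ⟨p, hp, y, hy, rfl⟩
    refine ⟨p, ?_, y, hL' g hy, rfl⟩
    rw [hb, Lim_inr] at hp
    exact hp.1

theorem countable_sgn (S : Finset Λ) : {σ : Λ →₀ SignType | σ.support ⊆ S}.Countable := by
  classical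
  refine ((S.finsupp fun _ => (Finset.univ : Finset SignType)).countable_toSet).mono ?_
  intro σ hσ
  rw [Finset.mem_coe, Finset.mem_finsupp_iff]
  exact ⟨hσ, fun _ _ => Finset.mem_univ _⟩

/-- the empty condition -/
def e0 : Cond nm := ⟨⟨fun _ => [], ∅, ∅⟩, valid_empty⟩

theorem le_e0 (s : Cond nm) : s ≤ e0 :=
  ⟨fun _ => List.nil_prefix, empty_subset _, empty_subset _⟩

/-- either the real is in the compact set, or it is in an interval disjoint from it -/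
def DD (x : ℚ → Set (Cond nm)) (σ : Λ →₀ SignType) (n : ℕ) : Set (Cond nm) :=
  {s | s ∈ InC x σ n ∨ ∃ a b c : ℚ, c < b ∧ s ∈ meets (x a) ∧ s ∈ fnot (meets (x c)) ∧
    s ∈ KN nm σ n a b}

theorem dense_DD (x : ℚ → Set (Cond nm)) (σ : Λ →₀ SignType) (n : ℕ) (q : Cond nm) :
    ∃ s ≤ q, s ∈ DD x σ n := by
  by_cases h : q ∈ InC x σ n
  · exact ⟨q, le_rfl, Or.inl h⟩
  · simp only [InC, fall, mem_ofPred_eq, not_forall] at h
    obtain ⟨a, b, h⟩ := h
    rw [mem_fimp] at h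
    push Not at h
    obtain ⟨s, hs, hbt, h⟩ := h
    have h1 := h s le_rfl
    simp only [fnot, mem_ofPred_eq, not_forall, not_not] at h1
    obtain ⟨t, ht, hm⟩ := h1
    obtain ⟨u, hu, hK⟩ := exists_of_meets (down_KN σ n a b) hm
    obtain ⟨w, hw, c, hc1, hc2⟩ := mem_fex.1 hbt.2 u (hu.trans ht)
    refine ⟨w, hw.trans (hu.trans (ht.trans hs)), Or.inr ⟨a, b, c, hc1, ?_, hc2,
      down_KN σ n a b _ hK w hw⟩⟩
    exact down_meets _ _ hbt.1 _ (hw.trans (hu.trans ht))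

theorem coversN [WellFoundedLT I] (hΛ : ∀ S : Set Λ, S.Countable → ∃ ξ, ∀ η ∈ S, η < ξ)
    (hU : Universal nm) (p : Cond nm) : p ∈ CoversN (fun σ : Λ →₀ SignType => KN nm σ) := by
  classical
  intro x
  rw [mem_fimp]
  intro q0 _ hx0
  by_contra hcon
  push Not at hcon
  -- bounds
  obtain ⟨r1, hr1, a, ha⟩ := mem_fex.1 hx0.1.1 q0 le_rfl
  obtain ⟨q1, hq1, b, hb⟩ := mem_fex.1 hx0.1.2 r1 hr1
  have hq10 : q1 ≤ q0 := hq1.trans hr1
  obtain ⟨K, hK, hKa, hKb⟩ : ∃ K : ℕ, 0 < K ∧ -(K : ℚ) < a ∧ b < K := by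
    obtain ⟨n1, h1⟩ := exists_nat_gt (-a)
    obtain ⟨n2, h2⟩ := exists_nat_gt b
    refine ⟨n1 + n2 + 1, by omega, ?_, ?_⟩
    · push_cast
      have : (0 : ℚ) ≤ n2 := Nat.cast_nonneg _
      linarith
    · push_cast
      have : (0 : ℚ) ≤ n1 := Nat.cast_nonneg _
      linarith
  have hxq1 : q1 ∈ IsReal x := down_IsReal x _ hx0 _ hq10
  have haq1 : q1 ∈ meets (x a) := down_meets _ _ ha _ hq1
  -- the name of the binary expansion
  have hA : ∀ m, ∃ A : Set (Cond nm), A.Countable ∧ A ⊆ ND x K m 1 ∧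
      ∀ p ∈ ND x K m 1, ∃ a ∈ A, ∃ r, r ≤ p ∧ r ≤ a :=
    fun m => exists_predense pccc (ND x K m 1) (down_ND x K m 1)
  choose A hAc hAs hAp using hA
  obtain ⟨i, hi⟩ := hU (fun m => Subtype.val '' A m) (fun m => (hAc m).image _) (by
    rintro m _ ⟨s, -, rfl⟩
    exact s.2.1)
  obtain ⟨i1, hi1⟩ := hU (fun _ => {(e0 : Cond nm).1}) (fun m => countable_singleton _) (by
    rintro m _ rfl
    exact (e0 : Cond nm).2.1)
  -- the stages
  let S : Set Λ := ⋃ m, ⋃ r ∈ A m, ((fun u : Λ × ℕ × Str => u.1) '' r.1.U ∪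
    (fun u : Λ × ℕ × I => u.1) '' r.1.E)
  have hS : S.Countable := by
    refine countable_iUnion fun m => (hAc m).biUnion fun r _ => ?_
    exact ((r.2.1.2.1.countable).image _).union ((r.2.1.2.2.countable).image _)
  obtain ⟨ξ, hξ⟩ := hΛ S hS
  have hlow : Low nm ξ i := by
    intro m r hr
    rw [hi] at hr
    obtain ⟨s, hs, rfl⟩ := hr
    constructor
    · intro u hu
      exact hξ _ (mem_iUnion.2 ⟨m, mem_iUnion₂.2 ⟨s, hs, Or.inl ⟨u, hu, rfl⟩⟩⟩)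
    · intro u hu
      exact hξ _ (mem_iUnion.2 ⟨m, mem_iUnion₂.2 ⟨s, hs, Or.inr ⟨u, hu, rfl⟩⟩⟩)
  have hlow1 : Low nm ξ i1 := by
    intro m r hr
    rw [hi1] at hr
    rw [mem_singleton_iff] at hr
    subst hr
    exact ⟨fun u hu => absurd hu (notMem_empty _), fun u hu => absurd hu (notMem_empty _)⟩
  obtain ⟨q2, hq2, L, hLp, hLr⟩ := dense_rep ξ i hlow q1
  obtain ⟨q3, hq3, L1, hL1p, hL1r⟩ := dense_rep ξ i1 hlow1 q2
  obtain ⟨L', hL'⟩ := pure_conv (nm := nm) hLp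
  obtain ⟨L1', hL1'⟩ := pure_conv (nm := nm) hL1p
  set M : List (ℚ × (Λ × ℕ)) := scale (-(2 * K : ℚ)) L' ++ scale (K : ℚ) L1' with hM
  set SM : Finset Λ := (M.map fun y => y.2.1).toFinset with hSM
  have hq30 : q3 ≤ q0 := hq3.trans (hq2.trans hq10)
  have hq31 : q3 ≤ q1 := hq3.trans hq2
  -- a generic sequence
  obtain ⟨g, hg0, hg, hgD⟩ := exists_seq q3 (RD x ∪ (range fun m => {s : Cond nm |
      s ∈ ND x K m 1 ∨ s ∈ ND x K m 0}) ∪ (range fun m => {s : Cond nm |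
      Pos (nm i m) s.1 ∨ Neg (Valid nm) (nm i m) s.1}) ∪
      (fun y : (Λ →₀ SignType) × ℕ => DD x y.1 y.2) '' ({σ | σ.support ⊆ SM} ×ˢ univ))
    ((((countable_RD x).union (countable_range _)).union (countable_range _)).union
      (((countable_sgn SM).prod countable_univ).image _)) (by
    rintro D (((h1 | ⟨m, rfl⟩) | ⟨m, rfl⟩) | ⟨y, -, rfl⟩) s hs
    · exact dense_RD hx0 D h1 s (hs.trans hq30)
    · exact dense_ND hK hKa hxq1 haq1 hKb hb s (hs.trans hq31)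
    · exact dense_decide' i m s
    · exact dense_DD x y.1 y.2 s)
  have hg3 : ∀ k, g k ≤ q3 := fun k => hg0 ▸ hg (Nat.zero_le k)
  obtain ⟨ρ, hρ⟩ := exists_ev hg (k0 := 0) (x := x) (by
    rw [hg0]
    exact down_IsReal x _ hx0 _ hq30) (fun D hD => hgD D (Or.inl (Or.inl (Or.inl hD))))
  have hK' : (0 : ℝ) < K := by exact_mod_cast hK
  have h1 : (a : ℝ) < ρ := hρ.lt (k := 0) (by rw [hg0]; exact down_meets _ _ haq1 _ hq31)
  have h2 : ρ ≤ b := hρ.le (k := 0) (by rw [hg0]; exact down_fnot _ _ hb _ hq31)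
  have ha' : -(K : ℝ) < a := by exact_mod_cast hKa
  have hb' : (b : ℝ) < K := by exact_mod_cast hKb
  have hy : (ρ + K) / (2 * K) ∈ Ico (0 : ℝ) 1 := by
    constructor
    · have : 0 < ρ + K := by linarith
      positivity
    · rw [div_lt_one (by positivity)]
      linarith
  -- the value of the name `i`
  have hval : val nm (fun k => (g k).1) i = Real.digits ((ρ + K) / (2 * K)) 2 := by
    funext m
    obtain ⟨k, hk⟩ := hgD _ (Or.inl (Or.inl (Or.inr ⟨m, rfl⟩)))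
    rcases hk with hk | hk
    · obtain ⟨j, hj, hd⟩ := hk
      rw [ev_Dig hρ hK hd]
      have h3 : (Fin.ofNat 2 j : Fin 2) = 1 := by
        apply Fin.ext
        simp [Fin.ofNat, hj]
      rw [h3]
      apply if_pos
      obtain ⟨l, hl | hl⟩ := hgD _ (Or.inl (Or.inr ⟨m, rfl⟩))
      · exact ⟨l, hl⟩
      · exfalso
        obtain ⟨c, hc, r, hr1, hr2⟩ := hAp m (g (max k l))
          (down_ND x K m 1 _ ⟨j, hj, hd⟩ _ (hg (le_max_left _ _)))
        refine hl r.1 r.2 (hr1.trans (hg (le_max_right _ _))) c.1 ?_ hr2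
        rw [hi]
        exact ⟨c, hc, rfl⟩
    · obtain ⟨j, hj, hd⟩ := hk
      rw [ev_Dig hρ hK hd]
      have h3 : (Fin.ofNat 2 j : Fin 2) = 0 := by
        apply Fin.ext
        simp [Fin.ofNat, hj]
      rw [h3]
      apply if_neg
      rintro ⟨l, c, hc, hlc⟩
      rw [hi] at hc
      obtain ⟨c', hc', rfl⟩ := hc
      obtain ⟨j', hj', hd'⟩ := down_ND x K m 1 _ (hAs m hc') (g l) hlc
      have h4 := ev_Dig hρ hK hd
      rw [ev_Dig hρ hK hd'] at h4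
      have h5 := congrArg Fin.val h4
      simp [Fin.ofNat, hj, hj'] at h5
  have hdec : Dec g i := fun m => by
    obtain ⟨l, hl⟩ := hgD _ (Or.inl (Or.inr ⟨m, rfl⟩))
    exact ⟨l, hl⟩
  have hrep : (0 : ℝ) ∈ Sm (Lim g) ((1, Sum.inl i) :: L) :=
    mem_Lim_Sm hg fun k => hLr (g k) ((hg3 k).trans hq3)
  have hrep1 : (0 : ℝ) ∈ Sm (Lim g) ((1, Sum.inl i1) :: L1) :=
    mem_Lim_Sm hg fun k => hL1r (g k) (hg3 k)
  obtain ⟨z, hz, y, hyL, h0⟩ := hrep
  obtain ⟨z1, hz1, y1, hyL1, h01⟩ := hrep1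
  simp only at hz hz1 h0 h01
  rw [Lim_inl hg hdec, mem_singleton_iff] at hz
  have hvz : v z = (ρ + K) / (2 * K) := by
    rw [hz, hval]
    exact Real.ofDigits_digits one_lt_two hy
  have hz1' : z1 = fun _ => 1 := by
    funext k
    refine ((Lim_subset g _ 0 hz1) k).1 ?_
    refine ⟨(e0 : Cond nm).1, ?_, le_e0 (g 0)⟩
    rw [hi1]
    rfl
  have hvz1 : v z1 = 1 := by
    rw [hz1']
    exact Real.ofDigits_const_last_eq_one' one_lt_two
  have hsum : ρ ∈ Sm (LimC g) M := by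
    have e1 := Sm_scale (-(2 * K : ℚ)) (hL' g hyL)
    have e2 := Sm_scale (K : ℚ) (hL1' g hyL1)
    have e3 := Sm_append e1 e2
    have e4 : ((-(2 * K : ℚ) : ℚ) : ℝ) * y + ((K : ℚ) : ℝ) * y1 = ρ := by
      have e5 : y = -((ρ + K) / (2 * K)) := by
        rw [hvz] at h0
        push_cast at h0
        linarith
      have e6 : y1 = -1 := by
        rw [hvz1] at h01
        push_cast at h01
        linarith
      rw [e5, e6]
      push_cast
      field_simp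
      ring
    rw [e4] at e3
    exact e3
  obtain ⟨σ, ℒ, N, hσ, hmem⟩ := KS_cover hsum
  obtain ⟨n, hn⟩ := en_surj σ (ℒ, N)
  have hσS : σ.support ⊆ SM := by
    intro α hα
    obtain ⟨y, hy1, hy2⟩ := hσ α hα
    rw [hSM, List.mem_toFinset, List.mem_map]
    exact ⟨y, hy1, hy2⟩
  obtain ⟨k, hk | ⟨a', b', c', hcb, hma, hmc, hKN⟩⟩ := hgD _ (Or.inr ⟨(σ, n), ⟨hσS, trivial⟩, rfl⟩)
  · refine hcon (g k) ((hg3 k).trans hq30) ?_
    refine mem_fex_of_mem σ (by rw [InFsigma_eq]; exact down_fex _) ?_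
    rw [InFsigma_eq]
    exact mem_fex_of_mem n (down_InC _ _ _) hk
  · refine hKN ρ ?_ ⟨hρ.lt hma, lt_of_le_of_lt (hρ.le hmc) (by exact_mod_cast hcb)⟩
    unfold KC
    simp only at hn ⊢
    rw [hn]
    exact KS_mono (fun b => iInter_subset _ k) _ _ _ hmem

end Pool.Agent.K4H97.SG
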